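import Mathlib

/-!
# MP_c64b61_an : definitions
Extending continuous maps on extreme points of (S,R,C) compact sets to affine Baire-one maps.
-/
open Set Filter Topology MeasureTheory

namespace C64

section general
variable {V : Type*} [AddCommGroup V] [Module ℝ V] [TopologicalSpace V]
variable {F : Type*} [AddCommGroup F] [Module ℝ F] [TopologicalSpace F]

/-- `g` is affine on the (convex) set `X`. -/
def IsAffOn {V : Type*} [AddCommGroup V] [Module ℝ V] {F : Type*} [AddCommGroup F] [Module ℝ F]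
    (X : Set V) (g : V → F) : Prop :=
  ∀ x ∈ X, ∀ y ∈ X, ∀ t ∈ Icc (0 : ℝ) 1, g (t • x + (1 - t) • y) = t • g x + (1 - t) • g y

/-- `𝔄₀(X,F)`: continuous affine maps `X → F` (values outside `X` are irrelevant). -/
def A0 (X : Set V) (g : V → F) : Prop := ContinuousOn g X ∧ IsAffOn X g

/-- `𝔄₁(X,F)`: pointwise limits on `X` of sequences in `𝔄₀(X,F)`. -/
def A1 (X : Set V) (g : V → F) : Prop :=
  ∃ h : ℕ → V → F, (∀ n, A0 X (h n)) ∧ ∀ x ∈ X, Tendsto (fun n => h n x) atTop (𝓝 (g x))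

/-- The cone over `X × {1}` in `V × ℝ`. -/
def cone {V : Type*} [AddCommGroup V] [Module ℝ V] (X : Set V) : Set (V × ℝ) :=
  {p | ∃ r : ℝ, 0 ≤ r ∧ ∃ x ∈ X, p = (r • x, r)}

/-- Choquet simplex: the cone over `X × {1}` is a lattice in its own ordering
(`p ≤ q` iff `q - p` lies in the cone): any two elements have a greatest lower bound in the cone. -/
def IsSimplex {V : Type*} [AddCommGroup V] [Module ℝ V] (X : Set V) : Prop :=
  ∀ p ∈ cone X, ∀ q ∈ cone X, ∃ m ∈ cone X, p - m ∈ cone X ∧ q - m ∈ cone X ∧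
    ∀ m' ∈ cone X, p - m' ∈ cone X → q - m' ∈ cone X → m - m' ∈ cone X

end general

/-- The dual unit ball of `E` with the weak* topology. -/
def dualBall (𝕜 E : Type*) [RCLike 𝕜] [NormedAddCommGroup E] [NormedSpace 𝕜 E] :
    Set (WeakDual 𝕜 E) := {x | ‖WeakDual.toStrongDual x‖ ≤ 1}

/-- `E` is a (real or complex) `L₁`-predual: its dual is isometric to an `L₁(μ)` space. -/
def IsL1Predual.{u, v, w} (𝕜 : Type u) (E : Type v) [RCLike 𝕜] [NormedAddCommGroup E]
    [NormedSpace 𝕜 E] : Prop :=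
  ∃ (Ω : Type w) (_ : MeasurableSpace Ω) (μ : Measure Ω),
    Nonempty (StrongDual 𝕜 E ≃ₗᵢ[𝕜] Lp 𝕜 1 μ)

end C64
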