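import Pool.Agent.R197.C64.Defs

/-!
# MP_c64b61_an : module M2
Affine majorants near extreme points of compact convex sets, weak-star functionals.
-/
open Set Filter Topology MeasureTheory

namespace C64

section gen
variable {V : Type*} [AddCommGroup V] [Module ℝ V] [TopologicalSpace V]
  [IsTopologicalAddGroup V] [ContinuousSMul ℝ V]

/-- The convex join of two compact sets is compact. -/
theorem isCompact_convexJoin {A B : Set V} (hA : IsCompact A) (hB : IsCompact B) :
    IsCompact (convexJoin ℝ A B) := by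
  have h : convexJoin ℝ A B =
      (fun p : (V × V) × ℝ => (1 - p.2) • p.1.1 + p.2 • p.1.2) '' ((A ×ˢ B) ×ˢ Icc (0:ℝ) 1) := by
    ext x
    rw [mem_convexJoin]
    constructor
    · rintro ⟨a, ha, b, hb, hx⟩
      rw [segment_eq_image] at hx
      obtain ⟨θ, hθ, rfl⟩ := hx
      exact ⟨((a, b), θ), ⟨⟨ha, hb⟩, hθ⟩, rfl⟩
    · rintro ⟨⟨⟨a, b⟩, θ⟩, ⟨⟨ha, hb⟩, hθ⟩, rfl⟩
      refine ⟨a, ha, b, hb, ?_⟩
      rw [segment_eq_image]
      exact ⟨θ, hθ, rfl⟩
  rw [h]
  apply ((hA.prod hB).prod isCompact_Icc).image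
  fun_prop

/-- Closed convex hull of a union. -/
theorem closure_convexHull_union_subset [T2Space V] {L A B : Set V} (hL : IsCompact L)
    (hc : Convex ℝ L) (hA : A ⊆ L) (hB : B ⊆ L) {x : V}
    (hx : x ∈ closure (convexHull ℝ (A ∪ B))) :
    x ∈ closure (convexHull ℝ A) ∨ x ∈ closure (convexHull ℝ B) ∨
      ∃ a ∈ closure (convexHull ℝ A), ∃ b ∈ closure (convexHull ℝ B), x ∈ segment ℝ a b := by
  rcases A.eq_empty_or_nonempty with rfl | hAn
  · right; left; simpa using hx
  rcases B.eq_empty_or_nonempty with rfl | hBn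
  · left; simpa using hx
  right; right
  have cA : IsCompact (closure (convexHull ℝ A)) :=
    hL.of_isClosed_subset isClosed_closure (closure_minimal (convexHull_min hA hc) hL.isClosed)
  have cB : IsCompact (closure (convexHull ℝ B)) :=
    hL.of_isClosed_subset isClosed_closure (closure_minimal (convexHull_min hB hc) hL.isClosed)
  have hJ := isCompact_convexJoin cA cB
  have hJc : Convex ℝ (convexJoin ℝ (closure (convexHull ℝ A)) (closure (convexHull ℝ B))) :=
    (convex_convexHull ℝ A).closure.convexJoin (convex_convexHull ℝ B).closure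
  have hsub : closure (convexHull ℝ (A ∪ B)) ⊆
      convexJoin ℝ (closure (convexHull ℝ A)) (closure (convexHull ℝ B)) := by
    apply closure_minimal _ hJ.isClosed
    apply convexHull_min _ hJc
    apply union_subset
    · exact ((subset_convexHull ℝ A).trans subset_closure).trans
        (subset_convexJoin_left (hBn.convexHull.closure))
    · exact ((subset_convexHull ℝ B).trans subset_closure).trans
        (subset_convexJoin_right (hAn.convexHull.closure))
  have := hsub hx
  rw [mem_convexJoin] at this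
  exact this

end gen

section env
variable {V : Type*} [AddCommGroup V] [Module ℝ V] [TopologicalSpace V]
  [IsTopologicalAddGroup V] [ContinuousSMul ℝ V] [LocallyConvexSpace ℝ V] [T2Space V]

/-- The union step in the proof of `fiber`. -/
theorem union_step {X : Set V} {y₀ : V} (hy : y₀ ∈ X.extremePoints ℝ)
    (hX : IsCompact X) (hc : Convex ℝ X) {A B : Set (V × ℝ)}
    (hA : A ⊆ X ×ˢ Icc (0:ℝ) 1) (hB : B ⊆ X ×ˢ Icc (0:ℝ) 1)
    (pA : ∀ s : ℝ, 0 < s → (y₀, s) ∉ closure (convexHull ℝ A))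
    (pB : ∀ s : ℝ, 0 < s → (y₀, s) ∉ closure (convexHull ℝ B)) :
    ∀ s : ℝ, 0 < s → (y₀, s) ∉ closure (convexHull ℝ (A ∪ B)) := by
  intro s hs hmem
  have hLc : IsCompact (X ×ˢ Icc (0:ℝ) 1) := hX.prod isCompact_Icc
  have hLv : Convex ℝ (X ×ˢ Icc (0:ℝ) 1) := hc.prod (convex_Icc 0 1)
  rcases closure_convexHull_union_subset hLc hLv hA hB hmem with h | h | ⟨a, ha, b, hb, h⟩
  · exact pA s hs h
  · exact pB s hs h
  · have haL : a ∈ X ×ˢ Icc (0:ℝ) 1 := closure_minimal (convexHull_min hA hLv) hLc.isClosed ha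
    have hbL : b ∈ X ×ˢ Icc (0:ℝ) 1 := closure_minimal (convexHull_min hB hLv) hLc.isClosed hb
    rw [segment_eq_image] at h
    obtain ⟨θ, ⟨h0, h1⟩, hθ⟩ := h
    obtain ⟨a1, a2⟩ := a
    obtain ⟨b1, b2⟩ := b
    simp only [Prod.smul_mk, Prod.mk_add_mk, Prod.mk.injEq, smul_eq_mul] at hθ
    obtain ⟨e1, e2⟩ := hθ
    rcases h0.eq_or_lt with h0 | h0
    · subst h0
      simp only [sub_zero, one_smul, zero_smul, add_zero, one_mul, zero_mul] at e1 e2
      subst e1; subst e2
      exact pA _ hs ha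
    rcases h1.eq_or_lt with h1 | h1
    · subst h1
      simp only [sub_self, one_smul, zero_smul, zero_add, one_mul, zero_mul] at e1 e2
      subst e1; subst e2
      exact pB _ hs hb
    have hseg : y₀ ∈ openSegment ℝ a1 b1 := by
      rw [openSegment_eq_image]
      exact ⟨θ, ⟨h0, h1⟩, e1⟩
    rw [mem_extremePoints] at hy
    obtain ⟨ea, eb⟩ := hy.2 a1 haL.1 b1 hbL.1 hseg
    subst ea
    subst eb
    have ha2 : a2 = 0 := by
      by_contra hne
      exact pA a2 (lt_of_le_of_ne haL.2.1 (Ne.symm hne)) ha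
    have hb2 : b2 = 0 := by
      by_contra hne
      exact pB b2 (lt_of_le_of_ne hbL.2.1 (Ne.symm hne)) hb
    rw [ha2, hb2] at e2
    simp at e2
    exact hs.ne e2

/-- Local step: separate points of `V`. -/
theorem local_step {y₀ k : V} (hk : k ≠ y₀) :
    ∃ N : Set V, IsOpen N ∧ k ∈ N ∧ ∀ A : Set (V × ℝ), A ⊆ Prod.fst ⁻¹' N →
      ∀ s : ℝ, (y₀, s) ∉ closure (convexHull ℝ A) := by
  obtain ⟨f, hf⟩ := geometric_hahn_banach_point_point (E := V) hk
  obtain ⟨c, hc1, hc2⟩ := exists_between hf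
  refine ⟨{x | f x < c}, isOpen_lt f.continuous continuous_const, hc1, ?_⟩
  intro A hA s hmem
  have hsub : closure (convexHull ℝ A) ⊆ {p : V × ℝ | f p.1 ≤ c} := by
    apply closure_minimal
    · apply convexHull_min
      · intro p hp
        have h5 : f p.1 < c := hA hp
        exact h5.le
      · exact convex_halfSpace_le (f := fun p : V × ℝ => f p.1)
          ((f.toLinearMap.comp (LinearMap.fst ℝ V ℝ)).isLinear) c
    · exact isClosed_le (f.continuous.comp continuous_fst) continuous_const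
  have := hsub hmem
  simp only [mem_ofPred_eq] at this
  linarith

/-- The fibre over an extreme point of the hull of the hypograph. -/
theorem fiber {X : Set V} (hX : IsCompact X) (hc : Convex ℝ X)
    {y₀ : V} (hy : y₀ ∈ X.extremePoints ℝ) {U : Set V} (hU : IsOpen U) (hyU : y₀ ∈ U) :
    ∀ s : ℝ, 0 < s →
      (y₀, s) ∉ closure (convexHull ℝ (X ×ˢ {(0:ℝ)} ∪ (X \ U) ×ˢ {(1:ℝ)})) := by
  set T : Set (V × ℝ) := X ×ˢ {(0:ℝ)} ∪ (X \ U) ×ˢ {(1:ℝ)} with hT
  have hTc : IsCompact T :=
    (hX.prod isCompact_singleton).union ((hX.diff hU).prod isCompact_singleton)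
  have hTL : T ⊆ X ×ˢ Icc (0:ℝ) 1 := by
    rintro ⟨x, r⟩ (⟨hx, hr⟩ | ⟨hx, hr⟩)
    · simp only [mem_singleton_iff] at hr
      subst hr
      exact ⟨hx, by norm_num⟩
    · simp only [mem_singleton_iff] at hr
      subst hr
      exact ⟨hx.1, by norm_num⟩
  have main : ∀ s : ℝ, 0 < s → (y₀, s) ∉ closure (convexHull ℝ (T ∩ T)) := by
    refine hTc.induction_on (p := fun A => ∀ s : ℝ, 0 < s →
      (y₀, s) ∉ closure (convexHull ℝ (A ∩ T))) ?_ ?_ ?_ ?_
    · intro s hs
      simp
    · intro A B hAB hB s hs hmem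
      exact hB s hs (closure_mono (convexHull_mono (inter_subset_inter_left _ hAB)) hmem)
    · intro A B hA hB
      rw [union_inter_distrib_right]
      exact union_step hy hX hc (inter_subset_right.trans hTL) (inter_subset_right.trans hTL) hA hB
    · rintro ⟨k, r⟩ hk
      by_cases hky : k = y₀
      · subst hky
        refine ⟨Prod.fst ⁻¹' U, ?_, ?_⟩
        · apply mem_nhdsWithin_of_mem_nhds
          exact (hU.preimage continuous_fst).mem_nhds hyU
        · intro s hs hmem
          have hsub : closure (convexHull ℝ ((Prod.fst ⁻¹' U) ∩ T)) ⊆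
              {p : V × ℝ | p.2 ≤ 0} := by
            apply closure_minimal
            · apply convexHull_min
              · rintro ⟨x, q⟩ ⟨hxU, (⟨hx, hq⟩ | ⟨hx, hq⟩)⟩
                · simp only [mem_singleton_iff] at hq
                  subst hq
                  simp
                · exact absurd hxU hx.2
              · exact convex_halfSpace_le (f := fun p : V × ℝ => p.2)
                  ((LinearMap.snd ℝ V ℝ).isLinear) 0
            · exact isClosed_le continuous_snd continuous_const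
          have := hsub hmem
          simp only [mem_ofPred_eq] at this
          linarith
      · obtain ⟨N, hN, hkN, hNs⟩ := local_step hky
        refine ⟨Prod.fst ⁻¹' N, ?_, ?_⟩
        · apply mem_nhdsWithin_of_mem_nhds
          exact (hN.preimage continuous_fst).mem_nhds hkN
        · intro s _
          exact hNs _ inter_subset_left s
  simpa using main

theorem envelope {X : Set V} (hX : IsCompact X) (hc : Convex ℝ X)
    {y₀ : V} (hy : y₀ ∈ X.extremePoints ℝ) {U : Set V} (hU : IsOpen U) (hyU : y₀ ∈ U)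
    {ε : ℝ} (hε : 0 < ε) :
    ∃ (l : V →L[ℝ] ℝ) (t : ℝ), (∀ x ∈ X, 0 ≤ l x + t) ∧ (∀ x ∈ X \ U, 1 ≤ l x + t) ∧
      l y₀ + t < ε := by
  have hnot := fiber hX hc hy hU hyU ε hε
  set T : Set (V × ℝ) := X ×ˢ {(0:ℝ)} ∪ (X \ U) ×ˢ {(1:ℝ)} with hT
  obtain ⟨f, u, hfu, hu⟩ := geometric_hahn_banach_closed_point
    (convex_convexHull ℝ T).closure isClosed_closure hnot
  have hTs : ∀ p ∈ T, f p < u := fun p hp => hfu p (subset_closure (subset_convexHull ℝ T hp))
  set κ : ℝ := f (0, 1) with hκ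
  have hdec : ∀ (x : V) (s : ℝ), f (x, s) = f (x, 0) + s * κ := by
    intro x s
    have : ((x, s) : V × ℝ) = (x, 0) + s • (0, 1) := by
      ext <;> simp
    rw [this, map_add, map_smul, smul_eq_mul]
  have hX0 : ∀ x ∈ X, f (x, 0) < u := fun x hx => hTs _ (Or.inl ⟨hx, rfl⟩)
  have hK1 : ∀ x ∈ X \ U, f (x, 0) + κ < u := by
    intro x hx
    have := hTs (x, 1) (Or.inr ⟨hx, rfl⟩)
    rw [hdec] at this
    linarith
  have hyX : y₀ ∈ X := extremePoints_subset hy
  have h1 := hX0 y₀ hyX
  rw [hdec] at hu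
  have hκ0 : 0 < κ := by
    have : 0 < ε * κ := by linarith
    exact (mul_pos_iff_of_pos_left hε).mp this
  refine ⟨(-(κ⁻¹)) • (f.comp (ContinuousLinearMap.inl ℝ V ℝ)), κ⁻¹ * u, ?_, ?_, ?_⟩
  · intro x hx
    have := hX0 x hx
    have h2 : 0 ≤ κ⁻¹ * (u - f (x, 0)) := mul_nonneg (inv_nonneg.mpr hκ0.le) (by linarith)
    simp only [_root_.smul_apply, ContinuousLinearMap.comp_apply,
      ContinuousLinearMap.inl_apply, smul_eq_mul]
    linarith
  · intro x hx
    have := hK1 x hx
    have h2 : κ⁻¹ * κ ≤ κ⁻¹ * (u - f (x, 0)) :=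
      mul_le_mul_of_nonneg_left (by linarith) (inv_nonneg.mpr hκ0.le)
    rw [inv_mul_cancel₀ hκ0.ne'] at h2
    simp only [_root_.smul_apply, ContinuousLinearMap.comp_apply,
      ContinuousLinearMap.inl_apply, smul_eq_mul]
    linarith
  · have h2 : κ⁻¹ * (u - f (y₀, 0)) < κ⁻¹ * (ε * κ) :=
      mul_lt_mul_of_pos_left (by linarith) (inv_pos.mpr hκ0)
    have h3 : κ⁻¹ * (ε * κ) = ε := by field_simp
    simp only [_root_.smul_apply, ContinuousLinearMap.comp_apply,
      ContinuousLinearMap.inl_apply, smul_eq_mul]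
    linarith

end env

section weakdual
variable {𝕜 E : Type*} [RCLike 𝕜] [NormedAddCommGroup E] [NormedSpace 𝕜 E]

instance instLocallyConvexWeakDual : LocallyConvexSpace ℝ (WeakDual 𝕜 E) :=
  inferInstanceAs (LocallyConvexSpace ℝ (WeakBilin (topDualPairing 𝕜 E)))

theorem dualBall_eq : dualBall 𝕜 E =
    (WeakDual.toStrongDual (𝕜 := 𝕜) (E := E)) ⁻¹' Metric.closedBall 0 1 := by
  ext x
  simp [dualBall]

theorem isCompact_dualBall : IsCompact (dualBall 𝕜 E) := by
  rw [dualBall_eq]
  exact WeakDual.isCompact_closedBall (𝕜 := 𝕜) (E := E) 0 1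

theorem convex_dualBall : Convex ℝ (dualBall 𝕜 E) := by
  intro x hx y hy a b ha hb hab
  simp only [dualBall, mem_ofPred_eq] at *
  have h1 : WeakDual.toStrongDual (a • x + b • y) =
      a • WeakDual.toStrongDual x + b • WeakDual.toStrongDual y := rfl
  rw [h1]
  calc ‖a • WeakDual.toStrongDual x + b • WeakDual.toStrongDual y‖
      ≤ ‖a • WeakDual.toStrongDual x‖ + ‖b • WeakDual.toStrongDual y‖ := norm_add_le _ _
    _ = a * ‖WeakDual.toStrongDual x‖ + b * ‖WeakDual.toStrongDual y‖ := by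
        rw [norm_smul, norm_smul, Real.norm_of_nonneg ha, Real.norm_of_nonneg hb]
    _ ≤ a * 1 + b * 1 := by
        gcongr
    _ = 1 := by linarith

theorem weakDual_functional (l : WeakDual 𝕜 E →L[ℝ] ℝ) :
    ∃ e : E, ∀ y : WeakDual 𝕜 E, l y = RCLike.re (y e) := by
  let L : StrongDual 𝕜 (WeakDual 𝕜 E) := StrongDual.extendRCLike l
  obtain ⟨e, he⟩ := LinearMap.dualEmbedding_surjective (topDualPairing 𝕜 E) L
  refine ⟨e, fun y => ?_⟩
  have h1 : RCLike.re (L y) = l y := StrongDual.re_extendRCLike_apply l y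
  rw [← h1, ← he]
  rfl

end weakdual

end C64
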