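import Pool.Agent.R197.C64.Envelope

/-! # M3: scalar approximation for L1-preduals -/

set_option autoImplicit false

open Set Filter Topology MeasureTheory
namespace C64
namespace RC

section l1
variable {𝕜 : Type*} [RCLike 𝕜] {Ω : Type*} [MeasurableSpace Ω] {μ : Measure Ω}

/-- The coordinates of the projection onto the vectors with sum zero. -/
noncomputable def prj (𝕜 : Type*) [RCLike 𝕜] {n : ℕ} (j : Fin n) : (Fin n → 𝕜) →L[𝕜] 𝕜 :=
  ContinuousLinearMap.proj (φ := fun _ => 𝕜) j -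
    (n : 𝕜)⁻¹ • ∑ i, ContinuousLinearMap.proj (φ := fun _ => 𝕜) i

theorem prj_apply {n : ℕ} (j : Fin n) (α : Fin n → 𝕜) :
    prj 𝕜 j α = α j - (n : 𝕜)⁻¹ * ∑ i, α i := by
  simp [prj]

theorem sum_prj {n : ℕ} (α : Fin n → 𝕜) : ∑ j, prj 𝕜 j α = 0 := by
  simp only [prj_apply, Finset.sum_sub_distrib, Finset.sum_const, Finset.card_univ,
    Fintype.card_fin, nsmul_eq_mul]
  rcases Nat.eq_zero_or_pos n with h | h
  · subst h; simp
  · rw [← mul_assoc, mul_inv_cancel₀ (by exact_mod_cast h.ne'), one_mul, sub_self]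

/-- Composition with the projection. -/
noncomputable def TT {n : ℕ} (j : Fin n) : Lp (Fin n → 𝕜) 1 μ →L[𝕜] Lp 𝕜 1 μ :=
  ContinuousLinearMap.compLpL (𝕜 := 𝕜) (𝕜' := 𝕜) (σ := RingHom.id 𝕜) 1 μ (prj 𝕜 j)

theorem coe_TT {n : ℕ} (j : Fin n) (F : Lp (Fin n → 𝕜) 1 μ) :
    (TT j F : Ω → 𝕜) =ᵐ[μ] fun a => prj 𝕜 j (F a) :=
  ContinuousLinearMap.coeFn_compLpL (𝕜 := 𝕜) (𝕜' := 𝕜) (σ := RingHom.id 𝕜) (p := 1) (μ := μ)
    (prj 𝕜 j) F

theorem norm_TT {n : ℕ} (j : Fin n) (F : Lp (Fin n → 𝕜) 1 μ) :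
    ‖TT j F‖ = ∫ a, ‖prj 𝕜 j (F a)‖ ∂μ := by
  rw [L1.norm_eq_integral_norm]
  apply integral_congr_ae
  filter_upwards [coe_TT j F] with a ha
  rw [ha]

theorem norm_TT_add {n : ℕ} (j : Fin n) {f g : Ω → Fin n → 𝕜} (hf : MemLp f 1 μ)
    (hg : MemLp g 1 μ) (hd : Disjoint (Function.support f) (Function.support g)) :
    ‖TT j (hf.toLp f + hg.toLp g)‖ = ‖TT j (hf.toLp f)‖ + ‖TT j (hg.toLp g)‖ := by
  rw [norm_TT, norm_TT, norm_TT, ← integral_add]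
  · apply integral_congr_ae
    filter_upwards [Lp.coeFn_add (hf.toLp f) (hg.toLp g), hf.coeFn_toLp, hg.coeFn_toLp]
      with a h1 h2 h3
    rw [h1, Pi.add_apply, h2, h3]
    by_cases h : f a = 0
    · rw [h]; simp
    · have : g a = 0 := by
        by_contra h'
        exact Set.disjoint_left.1 hd h h'
      rw [this]; simp
  · exact ((L1.integrable_coeFn _).congr (coe_TT j (hf.toLp f))).norm
  · exact ((L1.integrable_coeFn _).congr (coe_TT j (hg.toLp g))).norm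

theorem TT_ind {n : ℕ} (j : Fin n) (c : Fin n → 𝕜) {s : Set Ω} (hs : MeasurableSet s)
    (hμs : μ s ≠ ⊤) : TT j (indicatorConstLp 1 hs hμs c)
      = prj 𝕜 j c • (indicatorConstLp 1 hs hμs (1 : 𝕜) : Lp 𝕜 1 μ) := by
  apply Lp.ext
  filter_upwards [coe_TT j (indicatorConstLp 1 hs hμs c),
    indicatorConstLp_coeFn (p := 1) (hs := hs) (hμs := hμs) (c := c),
    indicatorConstLp_coeFn (p := 1) (hs := hs) (hμs := hμs) (c := (1 : 𝕜)),
    Lp.coeFn_smul (prj 𝕜 j c) (indicatorConstLp 1 hs hμs (1 : 𝕜) : Lp 𝕜 1 μ)] with a h1 h2 h3 h4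
  rw [h1, h2, h4, Pi.smul_apply, h3]
  by_cases h : a ∈ s
  · simp [h]
  · simp [h]

theorem l1_aux {n : ℕ} (L : Fin n → (Lp 𝕜 1 μ →L[𝕜] 𝕜)) (t : Fin n → ℝ)
    (H : ∀ (u : Lp 𝕜 1 μ) (α : Fin n → 𝕜), ∑ j, α j = 0 →
      RCLike.re (∑ j, α j * L j u) ≤ ‖u‖ * ∑ j, ‖α j‖ * t j)
    (F : Lp (Fin n → 𝕜) 1 μ) :
    RCLike.re (∑ j, L j (TT j F)) ≤ ∑ j, t j * ‖TT j F‖ := by
  refine Lp.induction (p := 1) (by norm_num) (motive := fun F =>
    RCLike.re (∑ j, L j (TT j F)) ≤ ∑ j, t j * ‖TT j F‖) ?_ ?_ ?_ F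
  · intro c s hs hμs
    rw [Lp.simpleFunc.coe_indicatorConst]
    have h := H (indicatorConstLp 1 hs hμs.ne (1 : 𝕜)) (fun j => prj 𝕜 j c) (sum_prj c)
    simp only [TT_ind, map_smul, smul_eq_mul, norm_smul]
    refine h.trans (le_of_eq ?_)
    rw [Finset.mul_sum]
    apply Finset.sum_congr rfl
    intro j _
    ring
  · intro f g hf hg hd h1 h2
    simp only [norm_TT_add _ hf hg hd]
    simp only [map_add, Finset.sum_add_distrib, mul_add] at h1 h2 ⊢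
    exact add_le_add h1 h2
  · apply isClosed_le
    · fun_prop
    · fun_prop

theorem l1_claim {n : ℕ} (L : Fin n → (Lp 𝕜 1 μ →L[𝕜] 𝕜)) (t : Fin n → ℝ)
    (H : ∀ (u : Lp 𝕜 1 μ) (α : Fin n → 𝕜), ∑ j, α j = 0 →
      RCLike.re (∑ j, α j * L j u) ≤ ‖u‖ * ∑ j, ‖α j‖ * t j)
    (g : Fin n → Lp 𝕜 1 μ) (hg : ∑ j, g j = 0) :
    RCLike.re (∑ j, L j (g j)) ≤ ∑ j, t j * ‖g j‖ := by
  let G : Lp (Fin n → 𝕜) 1 μ :=
    ∑ i, (ContinuousLinearMap.single 𝕜 (fun _ : Fin n => 𝕜) i).compLpL 1 μ (g i)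
  have hG : ∀ j, TT j G = g j := by
    intro j
    have h1 : ∀ i, TT j ((ContinuousLinearMap.single 𝕜 (fun _ : Fin n => 𝕜) i).compLpL 1 μ (g i))
        = ((if i = j then (1 : 𝕜) else 0) - (n : 𝕜)⁻¹) • g i := by
      intro i
      apply Lp.ext
      filter_upwards [coe_TT j ((ContinuousLinearMap.single 𝕜
          (fun _ : Fin n => 𝕜) i).compLpL 1 μ (g i)),
        (ContinuousLinearMap.single 𝕜 (fun _ : Fin n => 𝕜) i).coeFn_compLpL (p := 1) (g i),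
        Lp.coeFn_smul ((if i = j then (1 : 𝕜) else 0) - (n : 𝕜)⁻¹) (g i)] with a h2 h3 h4
      rw [h2, h3, h4, prj_apply]
      by_cases hij : i = j
      · subst hij
        simp [Finset.sum_pi_single']
        ring
      · simp [hij, Pi.single_apply, Ne.symm hij]
    simp only [G, map_sum, h1, sub_smul, Finset.sum_sub_distrib, ← Finset.smul_sum, hg, smul_zero,
      sub_zero]
    simp [ite_smul]
  have := l1_aux L t H G
  simpa only [hG] using this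

end l1

section dual
variable {𝕜 E : Type*} [RCLike 𝕜] [NormedAddCommGroup E] [NormedSpace 𝕜 E]

theorem wd_smul_apply (r : ℝ) (y : WeakDual 𝕜 E) (e : E) : (r • y) e = r • (y e) := rfl

theorem wd_smul_apply' (r : 𝕜) (y : WeakDual 𝕜 E) (e : E) : (r • y) e = r * (y e) := rfl

theorem wd_lc : LocallyConvexSpace ℝ (WeakDual 𝕜 E) := by
  have : IsScalarTower ℝ 𝕜 (StrongDual 𝕜 E) := inferInstance
  exact (WeakBilin.locallyConvexSpace (B := topDualPairing 𝕜 E))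

theorem isCompact_ball : IsCompact (dualBall 𝕜 E) := by
  have h := WeakDual.isCompact_closedBall (𝕜 := 𝕜) (E := E) 0 1
  convert h using 1
  ext x
  simp [dualBall]

theorem convex_dball : Convex ℝ (dualBall 𝕜 E) := by
  intro x hx y hy a b ha hb hab
  simp only [dualBall] at hx hy ⊢
  show ‖WeakDual.toStrongDual (a • x + b • y)‖ ≤ 1
  have : WeakDual.toStrongDual (a • x + b • y) = a • WeakDual.toStrongDual x +
    b • WeakDual.toStrongDual y := rfl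
  rw [this]
  calc _ ≤ ‖a • WeakDual.toStrongDual x‖ + ‖b • WeakDual.toStrongDual y‖ := norm_add_le _ _
    _ = a * ‖WeakDual.toStrongDual x‖ + b * ‖WeakDual.toStrongDual y‖ := by
      rw [norm_smul, norm_smul, Real.norm_of_nonneg ha, Real.norm_of_nonneg hb]
    _ ≤ a * 1 + b * 1 := by gcongr <;> assumption
    _ = 1 := by linarith

theorem smul_mem_ball {y : WeakDual 𝕜 E} (hy : y ∈ dualBall 𝕜 E) {α : 𝕜} (hα : ‖α‖ = 1) :
    α • y ∈ dualBall 𝕜 E := by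
  show ‖WeakDual.toStrongDual (α • y)‖ ≤ 1
  have : WeakDual.toStrongDual (α • y) = α • WeakDual.toStrongDual y := rfl
  rw [this, norm_smul, hα, one_mul]
  exact hy

theorem smul_mem_ext {y : WeakDual 𝕜 E} (hy : y ∈ (dualBall 𝕜 E).extremePoints ℝ) {α : 𝕜}
    (hα : ‖α‖ = 1) : α • y ∈ (dualBall 𝕜 E).extremePoints ℝ := by
  have hα0 : α ≠ 0 := by rintro rfl; simp at hα
  have hα' : ‖α⁻¹‖ = 1 := by rw [norm_inv, hα, inv_one]
  rw [mem_extremePoints] at hy ⊢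
  refine ⟨smul_mem_ball hy.1 hα, fun x₁ h₁ x₂ h₂ hs => ?_⟩
  have h3 : y ∈ openSegment ℝ (α⁻¹ • x₁) (α⁻¹ • x₂) := by
    obtain ⟨a, b, ha, hb, hab, h⟩ := hs
    refine ⟨a, b, ha, hb, hab, ?_⟩
    have h4 : α⁻¹ • (a • x₁ + b • x₂) = y := by
      rw [h, smul_smul, inv_mul_cancel₀ hα0, one_smul]
    rw [← h4]
    refine DFunLike.ext _ _ fun e => ?_
    show a • (α⁻¹ * x₁ e) + b • (α⁻¹ * x₂ e) = α⁻¹ * (a • x₁ e + b • x₂ e)
    rw [mul_add, mul_smul_comm, mul_smul_comm]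
  obtain ⟨h5, h6⟩ := hy.2 _ (smul_mem_ball h₁ hα') _ (smul_mem_ball h₂ hα') h3
  refine ⟨?_, ?_⟩
  · rw [← h5, smul_smul, mul_inv_cancel₀ hα0, one_smul]
  · rw [← h6, smul_smul, mul_inv_cancel₀ hα0, one_smul]

/-- Majorants. -/
def Maj (ψ : WeakDual 𝕜 E → 𝕜) (e : E) (t : ℝ) : Prop :=
  ∀ y ∈ (dualBall 𝕜 E).extremePoints ℝ, RCLike.re (ψ y) ≤ RCLike.re (y e) + t

theorem Maj.norm_le {ψ : WeakDual 𝕜 E → 𝕜}
    (hom : ∀ y ∈ (dualBall 𝕜 E).extremePoints ℝ, ∀ α : 𝕜, ‖α‖ = 1 → ψ (α • y) = α * ψ y)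
    {e : E} {t : ℝ} (h : Maj ψ e t) {y : WeakDual 𝕜 E}
    (hy : y ∈ (dualBall 𝕜 E).extremePoints ℝ) : ‖y e - ψ y‖ ≤ t := by
  obtain ⟨c, hc, hc2⟩ := RCLike.exists_norm_eq_mul_self (ψ y - y e)
  have h1 := h _ (smul_mem_ext hy hc)
  rw [hom y hy c hc, wd_smul_apply'] at h1
  have h2 : RCLike.re (c * (ψ y - y e)) ≤ t := by
    rw [mul_sub, map_sub]; linarith
  rw [← hc2, RCLike.ofReal_re] at h2
  rwa [norm_sub_rev]

theorem km {V : Type*} [AddCommGroup V] [Module ℝ V] [TopologicalSpace V] [T2Space V]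
    [IsTopologicalAddGroup V] [ContinuousSMul ℝ V] (hlc : LocallyConvexSpace ℝ V) {X : Set V}
    (hX : IsCompact X) (hc : Convex ℝ X) {S : Set V} (h1 : IsClosed S) (h2 : Convex ℝ S)
    (h3 : X.extremePoints ℝ ⊆ S) : X ⊆ S := by
  have h4 := closure_convexHull_extremePoints hX hc
  intro x hx
  rw [← h4] at hx
  exact closure_minimal (convexHull_min h3 h2) h1 hx

theorem ball_subset {S : Set (WeakDual 𝕜 E)} (h1 : IsClosed S) (h2 : Convex ℝ S)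
    (h3 : (dualBall 𝕜 E).extremePoints ℝ ⊆ S) : dualBall 𝕜 E ⊆ S :=
  km (V := WeakDual 𝕜 E) wd_lc isCompact_ball convex_dball h1 h2 h3

theorem comb_closed {n : ℕ} (e : Fin n → E) (α : Fin n → 𝕜) (c : ℝ) :
    IsClosed {x : WeakDual 𝕜 E | RCLike.re (∑ j, α j * x (e j)) ≤ c} := by
  have h1 : ∀ j, Continuous (fun x : WeakDual 𝕜 E => α j * x (e j)) := fun j =>
    continuous_const.mul (WeakDual.eval_continuous (e j))
  have h2 : Continuous (fun x : WeakDual 𝕜 E => ∑ j, α j * x (e j)) :=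
    continuous_finsetSum Finset.univ fun j _ => h1 j
  exact isClosed_le (RCLike.continuous_re.comp h2) continuous_const

theorem comb_convex {n : ℕ} (e : Fin n → E) (α : Fin n → 𝕜) (c : ℝ) :
    Convex ℝ {x : WeakDual 𝕜 E | RCLike.re (∑ j, α j * x (e j)) ≤ c} := by
  intro x hx y hy a b ha hb hab
  have h2 : RCLike.re (∑ j, α j * x (e j)) ≤ c := hx
  have h3 : RCLike.re (∑ j, α j * y (e j)) ≤ c := hy
  have h1 : ∑ j, α j * (a • x (e j) + b • y (e j)) =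
      a • ∑ j, α j * x (e j) + b • ∑ j, α j * y (e j) := by
    rw [Finset.smul_sum, Finset.smul_sum, ← Finset.sum_add_distrib]
    apply Finset.sum_congr rfl
    intro j _
    rw [mul_add, mul_smul_comm, mul_smul_comm]
  show RCLike.re (∑ j, α j * (a • x (e j) + b • y (e j))) ≤ c
  rw [h1, map_add, RCLike.smul_re, RCLike.smul_re]
  calc _ ≤ a * c + b * c := by gcongr
    _ = _ := by rw [← add_mul, hab, one_mul]

/-- The inequality on the ball. -/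
theorem ball_ineq {ψ : WeakDual 𝕜 E → 𝕜}
    (hom : ∀ y ∈ (dualBall 𝕜 E).extremePoints ℝ, ∀ α : 𝕜, ‖α‖ = 1 → ψ (α • y) = α * ψ y)
    {n : ℕ} {e : Fin n → E} {t : Fin n → ℝ} (h : ∀ j, Maj ψ (e j) (t j))
    {α : Fin n → 𝕜} (hα : ∑ j, α j = 0) {x : WeakDual 𝕜 E} (hx : x ∈ dualBall 𝕜 E) :
    RCLike.re (∑ j, α j * x (e j)) ≤ ∑ j, ‖α j‖ * t j := by
  have hS3 : (dualBall 𝕜 E).extremePoints ℝ ⊆
      {x : WeakDual 𝕜 E | RCLike.re (∑ j, α j * x (e j)) ≤ ∑ j, ‖α j‖ * t j} := by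
    intro y hy
    show RCLike.re (∑ j, α j * y (e j)) ≤ ∑ j, ‖α j‖ * t j
    have h1 : ∑ j, α j * y (e j) = ∑ j, α j * (y (e j) - ψ y) := by
      simp only [mul_sub, Finset.sum_sub_distrib, ← Finset.sum_mul, hα, zero_mul, sub_zero]
    rw [h1]
    refine (RCLike.re_le_norm _).trans ((norm_sum_le _ _).trans ?_)
    apply Finset.sum_le_sum
    intro j _
    rw [norm_mul]
    exact mul_le_mul_of_nonneg_left ((h j).norm_le hom hy) (norm_nonneg _)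
  exact ball_subset (comb_closed e α _) (comb_convex e α _) hS3 hx

theorem dual_ineq {ψ : WeakDual 𝕜 E → 𝕜}
    (hom : ∀ y ∈ (dualBall 𝕜 E).extremePoints ℝ, ∀ α : 𝕜, ‖α‖ = 1 → ψ (α • y) = α * ψ y)
    {n : ℕ} {e : Fin n → E} {t : Fin n → ℝ} (h : ∀ j, Maj ψ (e j) (t j))
    {α : Fin n → 𝕜} (hα : ∑ j, α j = 0) (x : StrongDual 𝕜 E) :
    RCLike.re (∑ j, α j * x (e j)) ≤ ‖x‖ * ∑ j, ‖α j‖ * t j := by
  by_cases hx : x = 0
  · subst hx; simp
  · have hx0 : 0 < ‖x‖ := norm_pos_iff.2 hx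
    have h1 : (StrongDual.toWeakDual (((‖x‖⁻¹ : ℝ) : 𝕜) • x)) ∈ dualBall 𝕜 E := by
      show ‖((‖x‖⁻¹ : ℝ) : 𝕜) • x‖ ≤ 1
      rw [norm_smul, RCLike.norm_ofReal, abs_of_pos (inv_pos.2 hx0),
        inv_mul_cancel₀ hx0.ne']
    have h2 := ball_ineq hom h hα h1
    have h3 : ∑ j, α j * (StrongDual.toWeakDual (((‖x‖⁻¹ : ℝ) : 𝕜) • x)) (e j)
        = ((‖x‖⁻¹ : ℝ) : 𝕜) * ∑ j, α j * x (e j) := by
      rw [Finset.mul_sum]
      apply Finset.sum_congr rfl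
      intro j _
      show α j * (((‖x‖⁻¹ : ℝ) : 𝕜) * x (e j)) = _
      ring
    rw [h3, RCLike.re_ofReal_mul] at h2
    calc RCLike.re (∑ j, α j * x (e j)) = ‖x‖ * (‖x‖⁻¹ * RCLike.re (∑ j, α j * x (e j))) := by
          rw [← mul_assoc, mul_inv_cancel₀ hx0.ne', one_mul]
      _ ≤ _ := by gcongr

theorem claim {Ω : Type*} [MeasurableSpace Ω] {μ : Measure Ω}
    (I : StrongDual 𝕜 E ≃ₗᵢ[𝕜] Lp 𝕜 1 μ) {ψ : WeakDual 𝕜 E → 𝕜}
    (hom : ∀ y ∈ (dualBall 𝕜 E).extremePoints ℝ, ∀ α : 𝕜, ‖α‖ = 1 → ψ (α • y) = α * ψ y)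
    {n : ℕ} {e : Fin n → E} {t : Fin n → ℝ} (h : ∀ j, Maj ψ (e j) (t j))
    (f : Fin n → StrongDual 𝕜 E) (hf : ∑ j, f j = 0) :
    RCLike.re (∑ j, f j (e j)) ≤ ∑ j, t j * ‖f j‖ := by
  let L : Fin n → (Lp 𝕜 1 μ →L[𝕜] 𝕜) := fun j =>
    (ContinuousLinearMap.apply 𝕜 𝕜 (e j)).comp
      (I.symm.toContinuousLinearEquiv : Lp 𝕜 1 μ →L[𝕜] StrongDual 𝕜 E)
  have h1 := l1_claim L t (fun u α hα => ?_) (fun j => I (f j)) (by rw [← map_sum, hf, map_zero])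
  · simpa [L] using h1
  · have h2 := dual_ineq hom h hα (I.symm u)
    rw [LinearIsometryEquiv.norm_map] at h2
    exact h2

theorem exists_center {Ω : Type*} [MeasurableSpace Ω] {μ : Measure Ω}
    (I : StrongDual 𝕜 E ≃ₗᵢ[𝕜] Lp 𝕜 1 μ) {ψ : WeakDual 𝕜 E → 𝕜}
    (hom : ∀ y ∈ (dualBall 𝕜 E).extremePoints ℝ, ∀ α : 𝕜, ‖α‖ = 1 → ψ (α • y) = α * ψ y)
    {n : ℕ} {e : Fin n → E} {t : Fin n → ℝ} (h : ∀ j, Maj ψ (e j) (t j)) (ht : ∀ j, 0 ≤ t j)
    {δ : ℝ} (hδ : 0 < δ) : ∃ c : E, ∀ j, ‖c - e j‖ < t j + δ := by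
  by_contra hcon
  let _ : NormedSpace ℝ E := NormedSpace.restrictScalars ℝ 𝕜 E
  have _ : IsScalarTower ℝ 𝕜 E := RestrictScalars.isScalarTower _ _ _
  let U : Set (Fin n → E) := Set.pi univ (fun j => Metric.ball (e j) (t j + δ))
  let D : Set (Fin n → E) := range (fun (c : E) (_ : Fin n) => c)
  have hU1 : IsOpen U := isOpen_set_pi finite_univ fun j _ => Metric.isOpen_ball
  have hU2 : Convex ℝ U := convex_pi fun j _ => convex_ball _ _
  have hD : Convex ℝ D := by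
    rintro _ ⟨x, rfl⟩ _ ⟨y, rfl⟩ a b _ _ _
    exact ⟨a • x + b • y, rfl⟩
  have hdis : Disjoint U D := by
    rw [Set.disjoint_left]
    rintro _ hU ⟨c, rfl⟩
    apply hcon
    refine ⟨c, fun j => ?_⟩
    have := hU j (mem_univ j)
    rwa [mem_ball_iff_norm] at this
  obtain ⟨f, u, hf1, hf2⟩ := RCLike.geometric_hahn_banach_open (𝕜 := 𝕜) hU2 hU1 hD hdis
  have hu : u ≤ 0 := by
    have := hf2 0 ⟨0, rfl⟩
    simpa using this
  have hdiag : ∀ c : E, f (fun _ => c) = 0 := by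
    intro c
    by_contra hz
    have h1 := hf2 (fun _ => ((((u - 1 : ℝ) : 𝕜)) * (f (fun _ => c))⁻¹) • c) ⟨_, rfl⟩
    have h2 : f (fun _ => ((((u - 1 : ℝ) : 𝕜)) * (f (fun _ => c))⁻¹) • c) = ((u - 1 : ℝ) : 𝕜) := by
      have : (fun _ : Fin n => ((((u - 1 : ℝ) : 𝕜)) * (f (fun _ => c))⁻¹) • c)
          = ((((u - 1 : ℝ) : 𝕜)) * (f (fun _ => c))⁻¹) • (fun _ : Fin n => c) := rfl
      rw [this, map_smul, smul_eq_mul, mul_assoc, inv_mul_cancel₀ hz, mul_one]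
    rw [h2, RCLike.ofReal_re] at h1
    linarith
  let g : Fin n → StrongDual 𝕜 E := fun j => f.comp (ContinuousLinearMap.single 𝕜 (fun _ => E) j)
  have hg : ∀ a : Fin n → E, f a = ∑ j, g j (a j) := fun a =>
    (ContinuousLinearMap.sum_comp_single 𝕜 (fun _ => E) f a).symm
  have hg0 : ∑ j, g j = 0 := by
    ext c
    rw [_root_.sum_apply, _root_.zero_apply, ← hdiag c, hg]
  have hcl := claim I hom h (fun j => - g j) (by rw [Finset.sum_neg_distrib, hg0, neg_zero])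
  simp only [_root_.neg_apply, Finset.sum_neg_distrib, map_neg, norm_neg] at hcl
  -- choose almost norming vectors
  have hsum : ∑ j, ‖g j‖ = 0 := by
    by_contra hne
    have hpos : 0 < ∑ j, ‖g j‖ := lt_of_le_of_ne (Finset.sum_nonneg fun j _ => norm_nonneg _)
      (Ne.symm hne)
    set R : ℝ := ∑ j, (t j + δ) with hR
    have hR0 : 0 ≤ R := Finset.sum_nonneg fun j _ => by have := ht j; linarith
    set η : ℝ := δ * (∑ j, ‖g j‖) / (R + 1) with hη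
    have hη0 : 0 < η := by positivity
    have hx : ∀ j, ∃ x : E, ‖x‖ < 1 ∧ ‖g j‖ - η < RCLike.re (g j x) := by
      intro j
      rcases lt_or_ge (‖g j‖ - η) 0 with h0 | h0
      · exact ⟨0, by simp, by simpa using h0⟩
      · obtain ⟨x, hx1, hx2⟩ := (g j).exists_lt_apply_of_lt_opNorm (r := ‖g j‖ - η) (by linarith)
        obtain ⟨c, hc, hc2⟩ := RCLike.exists_norm_eq_mul_self (g j x)
        refine ⟨c • x, by rw [norm_smul, hc, one_mul]; exact hx1, ?_⟩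
        rw [map_smul, smul_eq_mul, ← hc2, RCLike.ofReal_re]
        exact hx2
    choose x hx1 hx2 using hx
    obtain ⟨r, hr⟩ : ∃ r : Fin n → ℝ, ∀ j, r j = t j + δ := ⟨_, fun _ => rfl⟩
    have h1 := hf1 (fun j => e j + ((r j : ℝ) : 𝕜) • x j) (fun j _ => by
      rw [mem_ball_iff_norm, add_sub_cancel_left, norm_smul, RCLike.norm_ofReal, hr,
        abs_of_nonneg (by have := ht j; linarith)]
      have := ht j
      nlinarith [hx1 j])
    rw [hg] at h1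
    simp only [map_add, Finset.sum_add_distrib, map_smul, smul_eq_mul, map_sum,
      RCLike.re_ofReal_mul] at h1 hcl
    simp only [hr] at h1
    have h2 : ∑ j, (t j + δ) * (‖g j‖ - η) ≤ ∑ j, (t j + δ) * RCLike.re (g j (x j)) := by
      apply Finset.sum_le_sum
      intro j _
      have := ht j
      exact mul_le_mul_of_nonneg_left (hx2 j).le (by linarith)
    have h3 : ∑ j, (t j + δ) * (‖g j‖ - η) = ∑ j, t j * ‖g j‖ + δ * ∑ j, ‖g j‖ - R * η := by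
      rw [hR, Finset.sum_mul, Finset.mul_sum, ← Finset.sum_add_distrib, ← Finset.sum_sub_distrib]
      apply Finset.sum_congr rfl
      intro j _
      ring
    have h4 : R * η < δ * ∑ j, ‖g j‖ := by
      have : η * (R + 1) = δ * ∑ j, ‖g j‖ := by
        rw [hη]; field_simp
      nlinarith
    linarith
  have hgz : ∀ j, g j = 0 := by
    intro j
    rw [← norm_eq_zero]
    exact (Finset.sum_eq_zero_iff_of_nonneg fun j _ => norm_nonneg _).1 hsum j (Finset.mem_univ j)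
  have h1 := hf1 e (fun j _ => Metric.mem_ball_self (by have := ht j; linarith))
  rw [hg] at h1
  simp only [hgz, _root_.zero_apply, Finset.sum_const_zero, map_zero] at h1
  linarith

end dual


theorem env0 {V : Type*} [AddCommGroup V] [Module ℝ V] [TopologicalSpace V]
    [T2Space V] [IsTopologicalAddGroup V] [ContinuousSMul ℝ V] (hlc : LocallyConvexSpace ℝ V)
    {X : Set V} (hX : IsCompact X) (hc : Convex ℝ X) {y₀ : V}
    (hy : y₀ ∈ X.extremePoints ℝ) {U : Set V} (hU : IsOpen U) (hyU : y₀ ∈ U) {ε : ℝ}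
    (hε : 0 < ε) :
    ∃ (l : V →L[ℝ] ℝ) (t : ℝ), (∀ x ∈ X, 0 ≤ l x + t) ∧ (∀ x ∈ X \ U, 1 ≤ l x + t) ∧
      l y₀ + t < ε :=
  envelope hX hc hy hU hyU hε

theorem env {𝕜 E : Type*} [RCLike 𝕜] [NormedAddCommGroup E] [NormedSpace 𝕜 E]
    {y₀ : WeakDual 𝕜 E} (hy : y₀ ∈ (dualBall 𝕜 E).extremePoints ℝ) {U : Set (WeakDual 𝕜 E)}
    (hU : IsOpen U) (hyU : y₀ ∈ U) {ε : ℝ} (hε : 0 < ε) :
    ∃ (l : WeakDual 𝕜 E →L[ℝ] ℝ) (t : ℝ), (∀ x ∈ dualBall 𝕜 E, 0 ≤ l x + t) ∧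
      (∀ x ∈ dualBall 𝕜 E \ U, 1 ≤ l x + t) ∧ l y₀ + t < ε :=
  env0 (V := WeakDual 𝕜 E) instLocallyConvexWeakDual isCompact_dualBall convex_dualBall hy hU hyU hε

theorem fnl {𝕜 E : Type*} [RCLike 𝕜] [NormedAddCommGroup E] [NormedSpace 𝕜 E]
    (l : WeakDual 𝕜 E →L[ℝ] ℝ) : ∃ e : E, ∀ y, l y = RCLike.re (y e) :=
  weakDual_functional l

section final
variable {𝕜 E : Type*} [RCLike 𝕜] [NormedAddCommGroup E] [NormedSpace 𝕜 E]

theorem exists_maj {ψ : WeakDual 𝕜 E → 𝕜} (hψ : ContinuousOn ψ ((dualBall 𝕜 E).extremePoints ℝ))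
    (hb : ∀ y ∈ (dualBall 𝕜 E).extremePoints ℝ, ‖ψ y‖ ≤ 1) {y₀ : WeakDual 𝕜 E}
    (hy : y₀ ∈ (dualBall 𝕜 E).extremePoints ℝ) {ε : ℝ} (hε : 0 < ε) :
    ∃ (e : E) (t : ℝ), Maj ψ e t ∧ RCLike.re (y₀ e) + t < RCLike.re (ψ y₀) + ε := by
  have h1 : {y | RCLike.re (ψ y) < RCLike.re (ψ y₀) + ε / 2} ∈
      𝓝[(dualBall 𝕜 E).extremePoints ℝ] y₀ :=
    (RCLike.continuous_re.continuousAt.comp_continuousWithinAt (hψ y₀ hy)).eventually_lt_const
      (by show RCLike.re (ψ y₀) < _; linarith)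
  rw [mem_nhdsWithin] at h1
  obtain ⟨U, hU, hyU, hUs⟩ := h1
  obtain ⟨l, t, hl1, hl2, hl3⟩ := env hy hU hyU (ε := ε / 8) (by linarith)
  obtain ⟨e, he⟩ := fnl l
  have hb' : ∀ y ∈ (dualBall 𝕜 E).extremePoints ℝ, |RCLike.re (ψ y)| ≤ 1 := fun y hy =>
    (RCLike.abs_re_le_norm _).trans (hb y hy)
  refine ⟨(2 : 𝕜) • e, RCLike.re (ψ y₀) + ε / 2 + 2 * t, fun y hyE => ?_, ?_⟩
  · have h2 : RCLike.re (y ((2 : 𝕜) • e)) = 2 * l y := by
      rw [map_smul, smul_eq_mul, he, ← RCLike.ofReal_ofNat, RCLike.re_ofReal_mul]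
    rw [h2]
    have h3 := abs_le.1 (hb' y hyE)
    have h4 := abs_le.1 (hb' y₀ hy)
    by_cases hyU' : y ∈ U
    · have h5 : RCLike.re (ψ y) < RCLike.re (ψ y₀) + ε / 2 := hUs ⟨hyU', hyE⟩
      have h6 := hl1 y hyE.1
      linarith
    · have h6 := hl2 y ⟨hyE.1, hyU'⟩
      linarith
  · have h2 : RCLike.re (y₀ ((2 : 𝕜) • e)) = 2 * l y₀ := by
      rw [map_smul, smul_eq_mul, he, ← RCLike.ofReal_ofNat, RCLike.re_ofReal_mul]
    rw [h2]
    linarith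

theorem exists_seq {ψ : WeakDual 𝕜 E → 𝕜} (hL : IsLindelof ((dualBall 𝕜 E).extremePoints ℝ))
    (hψ : ContinuousOn ψ ((dualBall 𝕜 E).extremePoints ℝ))
    (hb : ∀ y ∈ (dualBall 𝕜 E).extremePoints ℝ, ‖ψ y‖ ≤ 1) :
    ∃ (e : ℕ → E) (t : ℕ → ℝ), (∀ j, Maj ψ (e j) (t j)) ∧ e 0 = 0 ∧ t 0 = 1 ∧
      ∀ y ∈ (dualBall 𝕜 E).extremePoints ℝ, ∀ ε : ℝ, 0 < ε →
        ∃ j, RCLike.re (y (e j)) + t j < RCLike.re (ψ y) + ε := by
  have hm0 : ∀ m : ℕ, (0 : ℝ) < 1 / (m + 1) := fun m => Nat.one_div_pos_of_nat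
  have h1 : ∀ (m : ℕ) (x : (dualBall 𝕜 E).extremePoints ℝ), ∃ p : E × ℝ, Maj ψ p.1 p.2 ∧
      RCLike.re (x.1 p.1) + p.2 < RCLike.re (ψ x.1) + 1 / (m + 1) := by
    intro m x
    obtain ⟨e, t, h2, h3⟩ := exists_maj hψ hb x.2 (hm0 m)
    exact ⟨(e, t), h2, h3⟩
  choose p hp1 hp2 using h1
  have h2 : ∀ (m : ℕ) (x : (dualBall 𝕜 E).extremePoints ℝ), ∃ V : Set (WeakDual 𝕜 E),
      V ∈ 𝓝 x.1 ∧ ∀ y ∈ V, y ∈ (dualBall 𝕜 E).extremePoints ℝ →
        RCLike.re (y (p m x).1) + (p m x).2 < RCLike.re (ψ y) + 1 / (m + 1) := by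
    intro m x
    have h3 : {y : WeakDual 𝕜 E | RCLike.re (y (p m x).1) + (p m x).2 <
        RCLike.re (ψ y) + 1 / (m + 1)} ∈ 𝓝[(dualBall 𝕜 E).extremePoints ℝ] x.1 := by
      have h4 : ContinuousWithinAt (fun y : WeakDual 𝕜 E => RCLike.re (y (p m x).1) + (p m x).2)
          ((dualBall 𝕜 E).extremePoints ℝ) x.1 :=
        ((RCLike.continuous_re.comp (WeakDual.eval_continuous (p m x).1)).add
          continuous_const).continuousWithinAt
      have h5 : ContinuousWithinAt (fun y : WeakDual 𝕜 E => RCLike.re (ψ y) + 1 / ((m : ℝ) + 1))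
          ((dualBall 𝕜 E).extremePoints ℝ) x.1 :=
        (RCLike.continuous_re.continuousAt.comp_continuousWithinAt (hψ x.1 x.2)).add
          continuousWithinAt_const
      exact h4.eventually_lt h5 (hp2 m x)
    rw [mem_nhdsWithin] at h3
    obtain ⟨V, hV, hxV, hVs⟩ := h3
    exact ⟨V, hV.mem_nhds hxV, fun y hy hyE => hVs ⟨hy, hyE⟩⟩
  choose V hV1 hV2 using h2
  have h3 : ∀ m : ℕ, ∃ s : Set ((dualBall 𝕜 E).extremePoints ℝ), s.Countable ∧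
      (dualBall 𝕜 E).extremePoints ℝ ⊆ ⋃ x ∈ s, V m x := fun m =>
    hL.elim_nhds_subcover' (fun x hx => V m ⟨x, hx⟩) (fun x hx => hV1 m ⟨x, hx⟩)
  choose s hs1 hs2 using h3
  let S : Set (E × ℝ) := {((0 : E), (1 : ℝ))} ∪ ⋃ m, p m '' s m
  have hS : S.Countable := (countable_singleton _).union
    (countable_iUnion fun m => (hs1 m).image _)
  have hSM : ∀ q ∈ S, Maj ψ q.1 q.2 := by
    rintro q (hq | hq)
    · rw [mem_singleton_iff] at hq
      subst hq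
      intro y hy
      have h4 := (RCLike.re_le_norm (ψ y)).trans (hb y hy)
      simpa using h4
    · obtain ⟨m, hm⟩ := mem_iUnion.1 hq
      obtain ⟨x, -, rfl⟩ := hm
      exact hp1 m x
  obtain ⟨f, hf⟩ := hS.exists_eq_range ⟨_, Or.inl rfl⟩
  let F : ℕ → E × ℝ := fun n => Nat.casesOn n ((0 : E), (1 : ℝ)) f
  have hF : ∀ n, F n ∈ S := by
    intro n
    rcases n with _ | n
    · exact Or.inl rfl
    · rw [hf]; exact mem_range_self n
  refine ⟨fun n => (F n).1, fun n => (F n).2, fun j => hSM _ (hF j), rfl, rfl, ?_⟩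
  intro y hy ε hε
  obtain ⟨m, hm⟩ := exists_nat_one_div_lt hε
  obtain ⟨x, hx, hyx⟩ := mem_iUnion₂.1 (hs2 m hy)
  have h4 := hV2 m x y hyx hy
  have h5 : p m x ∈ range f := by
    rw [← hf]
    exact Or.inr (mem_iUnion.2 ⟨m, mem_image_of_mem _ hx⟩)
  obtain ⟨j, hj⟩ := h5
  refine ⟨j + 1, ?_⟩
  show RCLike.re (y (f j).1) + (f j).2 < RCLike.re (ψ y) + ε
  rw [hj]
  linarith

theorem tendsto_of_re {z : ℕ → 𝕜} (h : ∀ α : 𝕜, ‖α‖ = 1 → ∀ ε : ℝ, 0 < ε →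
    ∀ᶠ n in atTop, RCLike.re (α * z n) < ε) : Tendsto z atTop (𝓝 0) := by
  rw [Metric.tendsto_atTop']
  simp only [dist_zero_right]
  intro ε hε
  have h1 := h 1 (by simp) (ε / 2) (by linarith)
  have h2 := h (-1) (by simp) (ε / 2) (by linarith)
  have h3 : ∀ᶠ n in atTop, |RCLike.im (z n)| < ε / 2 := by
    rcases RCLike.I_eq_zero_or_im_I_eq_one (K := 𝕜) with hI | hI
    · filter_upwards with n
      have h4 : RCLike.im (z n) = 0 := by
        rw [← RCLike.re_add_im (z n), hI, mul_zero, add_zero, RCLike.ofReal_im]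
      rw [h4, abs_zero]
      linarith
    · have hI0 : (RCLike.I : 𝕜) ≠ 0 := by
        intro h0; rw [h0, map_zero] at hI; exact zero_ne_one hI
      have h4 := h RCLike.I (RCLike.norm_I_of_ne_zero hI0) (ε / 2) (by linarith)
      have h5 := h (-RCLike.I) (by rw [norm_neg, RCLike.norm_I_of_ne_zero hI0]) (ε / 2)
        (by linarith)
      filter_upwards [h4, h5] with n h6 h7
      rw [neg_mul, map_neg] at h7
      rw [RCLike.mul_re, RCLike.I_re, hI, zero_mul, one_mul, zero_sub] at h6 h7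
      rw [abs_lt]
      constructor <;> linarith
  obtain ⟨N, hN⟩ := eventually_atTop.1 (h1.and (h2.and h3))
  refine ⟨N, fun n hn => ?_⟩
  obtain ⟨h6, h7, h8⟩ := hN n hn.le
  rw [one_mul] at h6
  rw [neg_mul, one_mul, map_neg] at h7
  have h9 : |RCLike.re (z n)| < ε / 2 := by
    rw [abs_lt]
    constructor <;> linarith
  have h10 : ‖z n‖ ≤ |RCLike.re (z n)| + |RCLike.im (z n)| := by
    conv_lhs => rw [← RCLike.re_add_im (z n)]
    refine (norm_add_le _ _).trans ?_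
    rw [norm_mul, RCLike.norm_ofReal, RCLike.norm_ofReal]
    have h11 : ‖(RCLike.I : 𝕜)‖ ≤ 1 := by rw [RCLike.norm_I]; split_ifs <;> norm_num
    have := abs_nonneg (RCLike.im (z n))
    nlinarith
  linarith

end final

end RC

open RC in
theorem SA_RC.{u, v, w} {𝕜 : Type u} {E : Type v} [RCLike 𝕜] [NormedAddCommGroup E]
    [NormedSpace 𝕜 E] [CompleteSpace E] (hE : IsL1Predual.{u, v, w} 𝕜 E)
    (hL : IsLindelof ((dualBall 𝕜 E).extremePoints ℝ))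
    (ψ : WeakDual 𝕜 E → 𝕜) (hψ : ContinuousOn ψ ((dualBall 𝕜 E).extremePoints ℝ))
    (hom : ∀ y ∈ (dualBall 𝕜 E).extremePoints ℝ, ∀ α : 𝕜, ‖α‖ = 1 → ψ (α • y) = α * ψ y)
    (hb : ∀ y ∈ (dualBall 𝕜 E).extremePoints ℝ, ‖ψ y‖ ≤ 1) :
    ∃ a : ℕ → E, (∀ n, ‖a n‖ ≤ 2) ∧ ∀ y ∈ (dualBall 𝕜 E).extremePoints ℝ,
      Tendsto (fun n => y (a n)) atTop (𝓝 (ψ y)) := by
  obtain ⟨Ω, _, μ, ⟨I⟩⟩ := hE
  by_cases hne : ((dualBall 𝕜 E).extremePoints ℝ).Nonempty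
  swap
  · refine ⟨fun _ => 0, fun _ => by simp, fun y hy => ?_⟩
    exact absurd ⟨y, hy⟩ hne
  obtain ⟨y₁, hy₁⟩ := hne
  obtain ⟨e, t, h1, he0, ht0, h2⟩ := exists_seq hL hψ hb
  have ht : ∀ j, 0 ≤ t j := fun j => (norm_nonneg _).trans ((h1 j).norm_le hom hy₁)
  have hm0 : ∀ m : ℕ, (0 : ℝ) < 1 / (m + 1) := fun m => Nat.one_div_pos_of_nat
  have h3 : ∀ n : ℕ, ∃ c : E, ∀ j ≤ n, ‖c - e j‖ < t j + 1 / (n + 1) := by
    intro n
    obtain ⟨c, hc⟩ := exists_center (n := n + 1) I hom (e := fun j => e j) (t := fun j => t j)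
      (fun j => h1 j) (fun j => ht j) (hm0 n)
    exact ⟨c, fun j hj => hc ⟨j, by lia⟩⟩
  choose c hc using h3
  refine ⟨c, fun n => ?_, fun y hy => ?_⟩
  · have h4 := hc n 0 (Nat.zero_le _)
    rw [he0, ht0, sub_zero] at h4
    have h5 : (1 : ℝ) / (n + 1) ≤ 1 := by
      rw [div_le_one (by positivity)]
      have : (0 : ℝ) ≤ n := Nat.cast_nonneg n
      linarith
    linarith
  · rw [← tendsto_sub_nhds_zero_iff]
    apply tendsto_of_re
    intro α hα ε hε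
    have hy' := smul_mem_ext hy hα
    obtain ⟨j, hj⟩ := h2 _ hy' (ε / 2) (by linarith)
    have h5 : ∀ᶠ n : ℕ in atTop, (1 : ℝ) / (n + 1) < ε / 2 :=
      tendsto_one_div_add_atTop_nhds_zero_nat.eventually_lt_const (by linarith)
    filter_upwards [h5, eventually_ge_atTop j] with n h6 h7
    have h8 := hc n j h7
    have h9 : RCLike.re ((α • y) (c n)) ≤ RCLike.re ((α • y) (e j)) + ‖c n - e j‖ := by
      have h10 : (α • y) (c n) = (α • y) (e j) + (α • y) (c n - e j) := by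
        rw [← map_add]; congr 1; abel
      rw [h10, map_add]
      have h11 : RCLike.re ((α • y) (c n - e j)) ≤ ‖c n - e j‖ := by
        refine (RCLike.re_le_norm _).trans ?_
        have h12 : ‖WeakDual.toStrongDual (α • y)‖ ≤ 1 := hy'.1
        have h13 := (WeakDual.toStrongDual (α • y)).le_opNorm (c n - e j)
        calc ‖(α • y) (c n - e j)‖ ≤ ‖WeakDual.toStrongDual (α • y)‖ * ‖c n - e j‖ := h13
          _ ≤ 1 * ‖c n - e j‖ := by gcongr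
          _ = _ := one_mul _
      linarith
    rw [hom y hy α hα] at hj
    rw [wd_smul_apply'] at h9
    rw [mul_sub, map_sub]
    linarith

end C64
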