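import Pool.Agent.R197.C64.Defs
import Pool.Agent.R197.C64.Envelope

/-!
# MP_c64b61_an, module M4: scalar approximation for simplices
-/

open Set Filter Topology MeasureTheory

namespace C64.SAS

section cone

variable {V : Type*} [AddCommGroup V] [Module ℝ V] {X : Set V}

theorem cone_zero (hne : X.Nonempty) : (0 : V × ℝ) ∈ cone X := by
  obtain ⟨x, hx⟩ := hne
  exact ⟨0, le_rfl, x, hx, by rw [zero_smul]; rfl⟩

theorem cone_smul {r : ℝ} (hr : 0 ≤ r) {p : V × ℝ} (hp : p ∈ cone X) : r • p ∈ cone X := by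
  obtain ⟨s, hs, x, hx, rfl⟩ := hp
  exact ⟨r * s, mul_nonneg hr hs, x, hx, by simp [mul_smul]⟩

theorem cone_add (hc : Convex ℝ X) {p q : V × ℝ} (hp : p ∈ cone X) (hq : q ∈ cone X) :
    p + q ∈ cone X := by
  obtain ⟨r, hr, x, hx, rfl⟩ := hp
  obtain ⟨s, hs, y, hy, rfl⟩ := hq
  rcases eq_or_lt_of_le hr with h0 | h0
  · refine ⟨s, hs, y, hy, ?_⟩
    rw [← h0]
    simp
  · have h1 : 0 < r + s := by linarith
    refine ⟨r + s, h1.le, (r / (r + s)) • x + (s / (r + s)) • y, ?_, ?_⟩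
    · refine hc hx hy (by positivity) (by positivity) ?_
      field_simp
    · rw [smul_add, smul_smul, smul_smul, mul_div_cancel₀ _ h1.ne', mul_div_cancel₀ _ h1.ne']
      rfl

theorem cone_nonneg {p : V × ℝ} (hp : p ∈ cone X) : 0 ≤ p.2 := by
  obtain ⟨r, hr, x, hx, rfl⟩ := hp
  exact hr

/-- the Riesz decomposition property of the cone -/
theorem riesz (hc : Convex ℝ X) (hs : IsSimplex X) {p1 p2 q1 q2 : V × ℝ} (hp1 : p1 ∈ cone X)
    (hp2 : p2 ∈ cone X) (hq1 : q1 ∈ cone X) (hq2 : q2 ∈ cone X) (h : p1 + p2 = q1 + q2) :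
    ∃ r11 ∈ cone X, ∃ r12 ∈ cone X, ∃ r21 ∈ cone X, ∃ r22 ∈ cone X,
      p1 = r11 + r12 ∧ p2 = r21 + r22 ∧ q1 = r11 + r21 ∧ q2 = r12 + r22 := by
  obtain ⟨r, hr, h1, h2, h3⟩ := hs p1 hp1 q1 hq1
  obtain ⟨L, hL, h4, h5, h6⟩ := hs (p1 + p2) (cone_add hc hp1 hp2) (q1 + p2) (cone_add hc hq1 hp2)
  have h7 : L - p2 ∈ cone X := h6 p2 hp2 (by rwa [add_sub_cancel_right])
    (by rwa [add_sub_cancel_right])
  have h8 : r - (L - p2) ∈ cone X := by
    refine h3 _ h7 ?_ ?_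
    · have : p1 - (L - p2) = p1 + p2 - L := by abel
      rwa [this]
    · have : q1 - (L - p2) = q1 + p2 - L := by abel
      rwa [this]
  have h9 : L - q1 ∈ cone X := by
    refine h6 q1 hq1 ?_ ?_
    · rw [h, add_sub_cancel_left]
      exact hq2
    · rw [add_sub_cancel_left]
      exact hp2
  refine ⟨r, hr, p1 - r, h1, q1 - r, h2, p2 - (q1 - r), ?_, by abel, by abel, by abel, ?_⟩
  · have : p2 - (q1 - r) = (r - (L - p2)) + (L - q1) := by abel
    rw [this]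
    exact cone_add hc h8 h9
  · have : p1 - r + (p2 - (q1 - r)) = (p1 + p2) - q1 := by abel
    rw [this, h, add_sub_cancel_left]

end cone

section interp

variable {V : Type*} [AddCommGroup V] [Module ℝ V] [TopologicalSpace V]
  {X : Set V}

/-- the value of the affine function `(l, t)` -/
def ev (d : (V →L[ℝ] ℝ) × ℝ) (x : V) : ℝ := d.1 x + d.2

/-- the linear extension to `V × ℝ` -/
def hom (d : (V →L[ℝ] ℝ) × ℝ) (p : V × ℝ) : ℝ := d.1 p.1 + d.2 * p.2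

theorem hom_add (d : (V →L[ℝ] ℝ) × ℝ) (p q : V × ℝ) : hom d (p + q) = hom d p + hom d q := by
  simp only [hom, Prod.fst_add, Prod.snd_add, map_add]
  ring

theorem hom_smul (d : (V →L[ℝ] ℝ) × ℝ) (r : ℝ) (p : V × ℝ) : hom d (r • p) = r * hom d p := by
  simp only [hom, Prod.smul_fst, Prod.smul_snd, map_smul, smul_eq_mul]
  ring

theorem hom_pos {d e : (V →L[ℝ] ℝ) × ℝ} (h : ∀ x ∈ X, ev d x < ev e x) {p : V × ℝ}
    (hp : p ∈ cone X) : hom d p ≤ hom e p ∧ (hom d p = hom e p → p = 0) := by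
  obtain ⟨r, hr, x, hx, rfl⟩ := hp
  have h1 : ∀ f : (V →L[ℝ] ℝ) × ℝ, hom f (r • x, r) = r * ev f x := by
    intro f
    simp only [hom, ev, map_smul, smul_eq_mul]
    ring
  rw [h1, h1]
  refine ⟨mul_le_mul_of_nonneg_left (h x hx).le hr, fun h2 => ?_⟩
  rcases eq_or_lt_of_le hr with h0 | h0
  · rw [← h0]
    simp
  · have := mul_lt_mul_of_pos_left (h x hx) h0
    linarith

variable [IsTopologicalAddGroup V] [ContinuousSMul ℝ V] [T2Space V]

/-- the points of the cone of mass at most one -/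
def coneB (X : Set V) : Set (V × ℝ) := {p | p ∈ cone X ∧ p.2 ≤ 1}

omit [IsTopologicalAddGroup V] [T2Space V] in
theorem coneB_compact (hX : IsCompact X) : IsCompact (coneB X) := by
  have h1 : coneB X = (fun rx : ℝ × V => (rx.1 • rx.2, rx.1)) '' (Icc (0 : ℝ) 1 ×ˢ X) := by
    ext p
    constructor
    · rintro ⟨⟨r, hr, x, hx, rfl⟩, h2⟩
      exact ⟨(r, x), ⟨⟨hr, h2⟩, hx⟩, rfl⟩
    · rintro ⟨⟨r, x⟩, ⟨⟨hr, hr1⟩, hx⟩, rfl⟩
      exact ⟨⟨r, hr, x, hx, rfl⟩, hr1⟩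
  rw [h1]
  refine (isCompact_Icc.prod hX).image ?_
  exact (continuous_fst.smul continuous_snd).prodMk continuous_fst

/-- strict interpolation for two and two functions -/
theorem interp22 [LocallyConvexSpace ℝ V] (hX : IsCompact X) (hc : Convex ℝ X) (hs : IsSimplex X)
    (hne : X.Nonempty)
    {a1 a2 b1 b2 : (V →L[ℝ] ℝ) × ℝ} (h11 : ∀ x ∈ X, ev a1 x < ev b1 x)
    (h12 : ∀ x ∈ X, ev a1 x < ev b2 x) (h21 : ∀ x ∈ X, ev a2 x < ev b1 x)
    (h22 : ∀ x ∈ X, ev a2 x < ev b2 x) :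
    ∃ c : (V →L[ℝ] ℝ) × ℝ, ∀ x ∈ X, ev a1 x < ev c x ∧ ev a2 x < ev c x ∧ ev c x < ev b1 x ∧
      ev c x < ev b2 x := by
  obtain ⟨φ, hφ⟩ : ∃ φ : (Fin 4 → V × ℝ) → (V × ℝ) × ℝ, φ = fun P =>
    (P 0 + P 1 - P 2 - P 3, hom a1 (P 0) + hom a2 (P 1) - hom b1 (P 2) - hom b2 (P 3)) := ⟨_, rfl⟩
  obtain ⟨T, hT⟩ : ∃ T : Set (Fin 4 → V × ℝ), T = (Set.univ.pi fun _ => coneB X) ∩
    {P | ∑ i, (P i).2 = 1} := ⟨_, rfl⟩
  have hTc : IsCompact T := by
    rw [hT]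
    refine (isCompact_univ_pi fun _ => coneB_compact hX).inter_right ?_
    refine isClosed_eq ?_ continuous_const
    exact continuous_finsetSum _ fun i _ => continuous_snd.comp (continuous_apply i)
  have hφc : Continuous φ := by
    rw [hφ]
    have hh : ∀ (d : (V →L[ℝ] ℝ) × ℝ) (i : Fin 4), Continuous fun P : Fin 4 → V × ℝ =>
        hom d (P i) := by
      intro d i
      unfold hom
      exact (d.1.continuous.comp (continuous_fst.comp (continuous_apply i))).add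
        (continuous_const.mul (continuous_snd.comp (continuous_apply i)))
    have hi : ∀ i : Fin 4, Continuous fun P : Fin 4 → V × ℝ => P i := fun i => continuous_apply i
    exact ((((hi 0).add (hi 1)).sub (hi 2)).sub (hi 3)).prodMk
      ((((hh a1 0).add (hh a2 1)).sub (hh b1 2)).sub (hh b2 3))
  have hKc : IsCompact (φ '' T) := hTc.image hφc
  have hlin : ∀ (a b : ℝ) (P Q : Fin 4 → V × ℝ), φ (a • P + b • Q) = a • φ P + b • φ Q := by
    intro a b P Q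
    rw [hφ]
    simp only [Pi.add_apply, Pi.smul_apply, hom_add, hom_smul, Prod.smul_mk, Prod.mk_add_mk,
      smul_eq_mul]
    refine Prod.ext ?_ ?_
    · simp only [smul_add, smul_sub]
      abel
    · simp only
      ring
  have hKconv : Convex ℝ (φ '' T) := by
    rintro _ ⟨P, hP, rfl⟩ _ ⟨Q, hQ, rfl⟩ a b ha hb hab
    refine ⟨a • P + b • Q, ?_, hlin a b P Q⟩
    rw [hT] at hP hQ ⊢
    refine ⟨fun i _ => ?_, ?_⟩
    · have h1 := hP.1 i (Set.mem_univ i)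
      have h2 := hQ.1 i (Set.mem_univ i)
      refine ⟨cone_add hc (cone_smul ha h1.1) (cone_smul hb h2.1), ?_⟩
      show a * (P i).2 + b * (Q i).2 ≤ 1
      have h3 := mul_le_mul_of_nonneg_left h1.2 ha
      have h4 := mul_le_mul_of_nonneg_left h2.2 hb
      linarith
    · have h1 : ∑ i, (P i).2 = 1 := hP.2
      have h2 : ∑ i, (Q i).2 = 1 := hQ.2
      show ∑ i, (a * (P i).2 + b * (Q i).2) = 1
      rw [Finset.sum_add_distrib, ← Finset.mul_sum, ← Finset.mul_sum, h1, h2]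
      linarith
  have h0 : (0 : (V × ℝ) × ℝ) ∉ φ '' T := by
    rintro ⟨P, hP, hP0⟩
    rw [hT] at hP
    rw [hφ] at hP0
    have e1 : P 0 + P 1 - P 2 - P 3 = 0 := congrArg Prod.fst hP0
    have e2 : hom a1 (P 0) + hom a2 (P 1) - hom b1 (P 2) - hom b2 (P 3) = 0 :=
      congrArg Prod.snd hP0
    have hm : ∀ i, P i ∈ cone X := fun i => (hP.1 i (Set.mem_univ i)).1
    have e3 : P 0 + P 1 = P 2 + P 3 := by
      rw [sub_sub, sub_eq_zero] at e1
      exact e1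
    obtain ⟨r11, m11, r12, m12, r21, m21, r22, m22, f1, f2, f3, f4⟩ :=
      riesz hc hs (hm 0) (hm 1) (hm 2) (hm 3) e3
    have g11 := hom_pos h11 m11
    have g12 := hom_pos h12 m12
    have g21 := hom_pos h21 m21
    have g22 := hom_pos h22 m22
    rw [f1, f2, f3, f4] at e2
    simp only [hom_add] at e2
    have z11 := g11.2 (by linarith [g11.1, g12.1, g21.1, g22.1])
    have z12 := g12.2 (by linarith [g11.1, g12.1, g21.1, g22.1])
    have z21 := g21.2 (by linarith [g11.1, g12.1, g21.1, g22.1])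
    have z22 := g22.2 (by linarith [g11.1, g12.1, g21.1, g22.1])
    have h5 : ∑ i, (P i).2 = 1 := hP.2
    rw [Fin.sum_univ_four, f1, f2, f3, f4, z11, z12, z21, z22] at h5
    simp at h5
  obtain ⟨Λ, u, hu0, hu⟩ := geometric_hahn_banach_point_closed hKconv hKc.isClosed h0
  rw [map_zero] at hu0
  have hΛ : ∀ P ∈ T, 0 < Λ (φ P) := fun P hP => hu0.trans (hu _ ⟨P, hP, rfl⟩)
  have hz : (0 : V × ℝ) ∈ coneB X := ⟨cone_zero hne, by simp⟩
  have hx1 : ∀ x ∈ X, ((x, 1) : V × ℝ) ∈ coneB X := fun x hx =>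
    ⟨⟨1, zero_le_one, x, hx, by simp⟩, le_rfl⟩
  have hTs : ∀ (k : Fin 4), ∀ x ∈ X, (Pi.single k ((x, 1) : V × ℝ) : Fin 4 → V × ℝ) ∈ T := by
    intro k x hx
    rw [hT]
    refine ⟨fun i _ => ?_, ?_⟩
    · by_cases hik : i = k
      · subst hik
        rw [Pi.single_eq_same]
        exact hx1 x hx
      · rw [Pi.single_eq_of_ne hik]
        exact hz
    · show ∑ i, ((Pi.single k ((x, 1) : V × ℝ) : Fin 4 → V × ℝ) i).2 = 1
      rw [Finset.sum_eq_single k]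
      · rw [Pi.single_eq_same]
      · intro i _ hik
        rw [Pi.single_eq_of_ne hik]
        rfl
      · intro h
        exact absurd (Finset.mem_univ k) h
  obtain ⟨κ, hκ⟩ : ∃ κ : ℝ, κ = Λ ((0, 0), 1) := ⟨_, rfl⟩
  obtain ⟨t0, ht0⟩ : ∃ t0 : ℝ, t0 = Λ ((0, 1), 0) := ⟨_, rfl⟩
  obtain ⟨l0, hl0⟩ : ∃ l0 : V →L[ℝ] ℝ, ∀ x, l0 x = Λ ((x, 0), 0) :=
    ⟨Λ.comp ((ContinuousLinearMap.inl ℝ (V × ℝ) ℝ).comp (ContinuousLinearMap.inl ℝ V ℝ)),
      fun x => rfl⟩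
  have hdec : ∀ (x : V) (r s : ℝ), Λ ((x, r), s) = l0 x + t0 * r + κ * s := by
    intro x r s
    have h1 : (((x, r), s) : (V × ℝ) × ℝ) = ((x, 0), 0) + r • ((0, 1), 0) + s • ((0, 0), 1) := by
      simp
    rw [h1, map_add, map_add, map_smul, map_smul, ← hl0, ← ht0, ← hκ, smul_eq_mul, smul_eq_mul]
    ring
  have hom0 : ∀ d : (V →L[ℝ] ℝ) × ℝ, hom d 0 = 0 := by
    intro d
    simp [hom]
  have hom1 : ∀ (d : (V →L[ℝ] ℝ) × ℝ) (x : V), hom d (x, 1) = ev d x := by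
    intro d x
    simp [hom, ev]
  have k0 : ∀ x ∈ X, 0 < l0 x + t0 + κ * ev a1 x := by
    intro x hx
    have h1 := hΛ _ (hTs 0 x hx)
    rw [hφ] at h1
    simp only [Pi.single_eq_same, Pi.single_eq_of_ne (show (1 : Fin 4) ≠ 0 by decide),
      Pi.single_eq_of_ne (show (2 : Fin 4) ≠ 0 by decide),
      Pi.single_eq_of_ne (show (3 : Fin 4) ≠ 0 by decide), hom0, hom1, add_zero, sub_zero,
      hdec, mul_one] at h1
    exact h1
  have k1 : ∀ x ∈ X, 0 < l0 x + t0 + κ * ev a2 x := by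
    intro x hx
    have h1 := hΛ _ (hTs 1 x hx)
    rw [hφ] at h1
    simp only [Pi.single_eq_same, Pi.single_eq_of_ne (show (0 : Fin 4) ≠ 1 by decide),
      Pi.single_eq_of_ne (show (2 : Fin 4) ≠ 1 by decide),
      Pi.single_eq_of_ne (show (3 : Fin 4) ≠ 1 by decide), hom0, hom1, zero_add, sub_zero,
      hdec, mul_one] at h1
    exact h1
  have k2 : ∀ x ∈ X, l0 x + t0 + κ * ev b1 x < 0 := by
    intro x hx
    have h1 := hΛ _ (hTs 2 x hx)
    rw [hφ] at h1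
    simp only [Pi.single_eq_same, Pi.single_eq_of_ne (show (0 : Fin 4) ≠ 2 by decide),
      Pi.single_eq_of_ne (show (1 : Fin 4) ≠ 2 by decide),
      Pi.single_eq_of_ne (show (3 : Fin 4) ≠ 2 by decide), hom0, hom1, zero_add, sub_zero,
      zero_sub, Prod.neg_mk, hdec, map_neg] at h1
    linarith
  have k3 : ∀ x ∈ X, l0 x + t0 + κ * ev b2 x < 0 := by
    intro x hx
    have h1 := hΛ _ (hTs 3 x hx)
    rw [hφ] at h1
    simp only [Pi.single_eq_same, Pi.single_eq_of_ne (show (0 : Fin 4) ≠ 3 by decide),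
      Pi.single_eq_of_ne (show (1 : Fin 4) ≠ 3 by decide),
      Pi.single_eq_of_ne (show (2 : Fin 4) ≠ 3 by decide), hom0, hom1, zero_add, sub_zero,
      zero_sub, Prod.neg_mk, hdec, map_neg] at h1
    linarith
  obtain ⟨x0, hx0⟩ := hne
  have hκ0 : κ < 0 := by
    have h1 := k0 x0 hx0
    have h2 := k2 x0 hx0
    have h3 := h11 x0 hx0
    by_contra hcon
    push Not at hcon
    have := mul_le_mul_of_nonneg_left h3.le hcon
    linarith
  have hκ1 : 0 < -κ⁻¹ := by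
    rw [neg_pos]
    exact inv_lt_zero.2 hκ0
  refine ⟨((-κ⁻¹) • l0, (-κ⁻¹) * t0), fun x hx => ?_⟩
  have hev : ev ((-κ⁻¹) • l0, (-κ⁻¹) * t0) x = (-κ⁻¹) * (l0 x + t0) := by
    show (-κ⁻¹) * l0 x + (-κ⁻¹) * t0 = (-κ⁻¹) * (l0 x + t0)
    ring
  have hk : ∀ z : ℝ, (-κ⁻¹) * (κ * z) = -z := by
    intro z
    have hκne := hκ0.ne
    field_simp
  have j0 := mul_pos hκ1 (k0 x hx)
  have j1 := mul_pos hκ1 (k1 x hx)
  have j2 := mul_neg_of_pos_of_neg hκ1 (k2 x hx)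
  have j3 := mul_neg_of_pos_of_neg hκ1 (k3 x hx)
  rw [mul_add, hk] at j0 j1 j2 j3
  rw [hev]
  refine ⟨by linarith, by linarith, by linarith, by linarith⟩

/-- strict interpolation for finite families -/
theorem interp [LocallyConvexSpace ℝ V] (hX : IsCompact X) (hc : Convex ℝ X) (hs : IsSimplex X)
    (hne : X.Nonempty) (A B : Finset ((V →L[ℝ] ℝ) × ℝ)) (hA : A.Nonempty) (hB : B.Nonempty)
    (h : ∀ a ∈ A, ∀ b ∈ B, ∀ x ∈ X, ev a x < ev b x) :
    ∃ c : (V →L[ℝ] ℝ) × ℝ, (∀ a ∈ A, ∀ x ∈ X, ev a x < ev c x) ∧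
      ∀ b ∈ B, ∀ x ∈ X, ev c x < ev b x := by
  classical
  have step : ∀ B : Finset ((V →L[ℝ] ℝ) × ℝ), B.Nonempty → ∀ a1 a2 : (V →L[ℝ] ℝ) × ℝ,
      (∀ b ∈ B, ∀ x ∈ X, ev a1 x < ev b x) → (∀ b ∈ B, ∀ x ∈ X, ev a2 x < ev b x) →
      ∃ c : (V →L[ℝ] ℝ) × ℝ, (∀ x ∈ X, ev a1 x < ev c x) ∧ (∀ x ∈ X, ev a2 x < ev c x) ∧
        ∀ b ∈ B, ∀ x ∈ X, ev c x < ev b x := by
    intro B hB
    induction hB using Finset.Nonempty.cons_induction with
    | singleton b =>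
      intro a1 a2 h1 h2
      obtain ⟨c, hcc⟩ := interp22 hX hc hs hne (h1 b (by simp)) (h1 b (by simp)) (h2 b (by simp))
        (h2 b (by simp))
      refine ⟨c, fun x hx => (hcc x hx).1, fun x hx => (hcc x hx).2.1, fun b' hb' x hx => ?_⟩
      rw [Finset.mem_singleton] at hb'
      rw [hb']
      exact (hcc x hx).2.2.1
    | cons b s hbs hsne ih =>
      intro a1 a2 h1 h2
      obtain ⟨c', g1, g2, g3⟩ := ih a1 a2 (fun b' hb' => h1 b' (Finset.mem_cons_of_mem hb'))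
        (fun b' hb' => h2 b' (Finset.mem_cons_of_mem hb'))
      obtain ⟨c, hcc⟩ := interp22 hX hc hs hne g1 (h1 b (Finset.mem_cons_self b s)) g2
        (h2 b (Finset.mem_cons_self b s))
      refine ⟨c, fun x hx => (hcc x hx).1, fun x hx => (hcc x hx).2.1, fun b' hb' x hx => ?_⟩
      rcases Finset.mem_cons.1 hb' with h3 | h3
      · rw [h3]
        exact (hcc x hx).2.2.2
      · exact (hcc x hx).2.2.1.trans (g3 b' h3 x hx)
  induction hA using Finset.Nonempty.cons_induction with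
  | singleton a =>
    obtain ⟨c, g1, g2, g3⟩ := step B hB a a (h a (by simp)) (h a (by simp))
    refine ⟨c, fun a' ha' => ?_, g3⟩
    rw [Finset.mem_singleton] at ha'
    rw [ha']
    exact g1
  | cons a s has hsne ih =>
    obtain ⟨c', g1, g2⟩ := ih fun a' ha' => h a' (Finset.mem_cons_of_mem ha')
    obtain ⟨c, k1, k2, k3⟩ := step B hB a c' (h a (Finset.mem_cons_self a s)) g2
    refine ⟨c, fun a' ha' x hx => ?_, k3⟩
    rcases Finset.mem_cons.1 ha' with h3 | h3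
    · rw [h3]
      exact k1 x hx
    · exact (g1 a' h3 x hx).trans (k2 x hx)

end interp

section approx

variable {V : Type*} [AddCommGroup V] [Module ℝ V] [TopologicalSpace V]
  [IsTopologicalAddGroup V] [ContinuousSMul ℝ V] [T2Space V] [LocallyConvexSpace ℝ V]
  {X : Set V}

/-- the conclusion of module M2 for the compact convex set `X` -/
def Env (X : Set V) : Prop := ∀ y₀ ∈ X.extremePoints ℝ, ∀ U : Set V, IsOpen U → y₀ ∈ U →
  ∀ ε : ℝ, 0 < ε → ∃ (l : V →L[ℝ] ℝ) (t : ℝ), (∀ x ∈ X, 0 ≤ l x + t) ∧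
    (∀ x ∈ X \ U, 1 ≤ l x + t) ∧ l y₀ + t < ε

omit [IsTopologicalAddGroup V] [ContinuousSMul ℝ V] [T2Space V] [LocallyConvexSpace ℝ V] in
theorem ev_continuous (d : (V →L[ℝ] ℝ) × ℝ) : Continuous (ev d) := by
  unfold ev
  exact d.1.continuous.add continuous_const

omit [IsTopologicalAddGroup V] [ContinuousSMul ℝ V] [T2Space V] [LocallyConvexSpace ℝ V] in
/-- countably many upper functions -/
theorem upper (henv : Env X) (hL : IsLindelof (X.extremePoints ℝ)) (φ : V → ℝ)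
    (hφ : ContinuousOn φ (X.extremePoints ℝ)) (hb : ∀ y ∈ X.extremePoints ℝ, |φ y| ≤ 1) :
    ∃ b : ℕ → (V →L[ℝ] ℝ) × ℝ, (∀ j, ∀ y ∈ X.extremePoints ℝ, φ y ≤ ev (b j) y) ∧
      (∀ y ∈ X.extremePoints ℝ, ∀ δ : ℝ, 0 < δ → ∃ j, ev (b j) y < φ y + δ) ∧
      b 0 = (0, 1) := by
  have h1 : ∀ m : ℕ, ∀ y₀ ∈ X.extremePoints ℝ, ∃ d : (V →L[ℝ] ℝ) × ℝ,
      (∀ y ∈ X.extremePoints ℝ, φ y ≤ ev d y) ∧ ev d y₀ < φ y₀ + 1 / ((m : ℝ) + 1) := by
    intro m y₀ hy₀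
    obtain ⟨ε, hε⟩ : ∃ ε : ℝ, ε = 1 / ((m : ℝ) + 1) := ⟨_, rfl⟩
    have hε0 : 0 < ε := by
      rw [hε]
      positivity
    rw [← hε]
    have h2 : ∀ᶠ y in 𝓝[X.extremePoints ℝ] y₀, φ y < φ y₀ + ε / 2 :=
      (hφ y₀ hy₀).eventually_lt_const (by linarith)
    obtain ⟨U, hU, hy₀U, hU2⟩ := mem_nhdsWithin.1 h2
    obtain ⟨l, t, e1, e2, e3⟩ := henv y₀ hy₀ U hU hy₀U (ε / 8) (by linarith)
    refine ⟨((2 : ℝ) • l, φ y₀ + ε / 2 + 2 * t), fun y hy => ?_, ?_⟩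
    · show φ y ≤ 2 * l y + (φ y₀ + ε / 2 + 2 * t)
      have hyX : y ∈ X := extremePoints_subset hy
      by_cases hyU : y ∈ U
      · have h3 : φ y < φ y₀ + ε / 2 := hU2 ⟨hyU, hy⟩
        have h4 := e1 y hyX
        linarith
      · have h3 := e2 y ⟨hyX, hyU⟩
        have h4 := (abs_le.1 (hb y hy)).2
        have h5 := (abs_le.1 (hb y₀ hy₀)).1
        linarith
    · show 2 * l y₀ + (φ y₀ + ε / 2 + 2 * t) < φ y₀ + ε
      linarith
  choose! D hD1 hD2 using h1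
  have h3 : ∀ m : ℕ, ∃ t : Set V, t.Countable ∧ (∀ x ∈ t, x ∈ X.extremePoints ℝ) ∧
      ∀ y ∈ X.extremePoints ℝ, ∃ y₀ ∈ t, ev (D m y₀) y < φ y + 1 / ((m : ℝ) + 1) := by
    intro m
    have h4 : ∀ y₀ ∈ X.extremePoints ℝ, ∃ O ∈ 𝓝 y₀, ∀ y ∈ X.extremePoints ℝ, y ∈ O →
        ev (D m y₀) y < φ y + 1 / ((m : ℝ) + 1) := by
      intro y₀ hy₀
      have h5 : ContinuousWithinAt (fun y => ev (D m y₀) y - φ y) (X.extremePoints ℝ) y₀ :=
        (ev_continuous (D m y₀)).continuousWithinAt.sub (hφ y₀ hy₀)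
      have h6 : ∀ᶠ y in 𝓝[X.extremePoints ℝ] y₀, ev (D m y₀) y - φ y < 1 / ((m : ℝ) + 1) :=
        h5.eventually_lt_const (by linarith [hD2 m y₀ hy₀])
      obtain ⟨U, hU, hy₀U, hU2⟩ := mem_nhdsWithin.1 h6
      refine ⟨U, hU.mem_nhds hy₀U, fun y hy hyU => ?_⟩
      have h7 : ev (D m y₀) y - φ y < 1 / ((m : ℝ) + 1) := hU2 ⟨hyU, hy⟩
      linarith
    choose! O hO1 hO2 using h4
    obtain ⟨t, ht1, ht2, ht3⟩ := hL.elim_nhds_subcover O hO1
    refine ⟨t, ht1, ht2, fun y hy => ?_⟩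
    obtain ⟨y₀, hy₀⟩ := Set.mem_iUnion.1 (ht3 hy)
    obtain ⟨hy₀t, hyO⟩ := Set.mem_iUnion.1 hy₀
    exact ⟨y₀, hy₀t, hO2 y₀ (ht2 y₀ hy₀t) y hy hyO⟩
  choose t ht1 ht2 ht3 using h3
  obtain ⟨B, hB⟩ : ∃ B : Set ((V →L[ℝ] ℝ) × ℝ), B = insert (0, 1) (⋃ m, (D m) '' (t m)) := ⟨_, rfl⟩
  have hBc : B.Countable := by
    rw [hB]
    exact (Set.countable_iUnion fun m => (ht1 m).image _).insert _
  have hBu : ∀ d ∈ B, ∀ y ∈ X.extremePoints ℝ, φ y ≤ ev d y := by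
    intro d hd y hy
    rw [hB] at hd
    rcases hd with hd | hd
    · rw [hd]
      have := (abs_le.1 (hb y hy)).2
      simpa [ev] using this
    · obtain ⟨m, y₀, hy₀, rfl⟩ := Set.mem_iUnion.1 hd
      exact hD1 m y₀ (ht2 m y₀ hy₀) y hy
  obtain ⟨b, hb'⟩ := hBc.exists_eq_range ⟨(0, 1), by rw [hB]; exact Set.mem_insert _ _⟩
  refine ⟨fun n => Nat.casesOn n (0, 1) b, fun j y hy => ?_, fun y hy δ hδ => ?_, rfl⟩
  · cases j with
    | zero => exact hBu (0, 1) (by rw [hB]; exact Set.mem_insert _ _) y hy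
    | succ j => exact hBu (b j) (by rw [hb']; exact ⟨j, rfl⟩) y hy
  · obtain ⟨m, hm⟩ := exists_nat_one_div_lt hδ
    obtain ⟨y₀, hy₀, h5⟩ := ht3 m y hy
    have h6 : D m y₀ ∈ B := by
      rw [hB]
      exact Or.inr (Set.mem_iUnion.2 ⟨m, y₀, hy₀, rfl⟩)
    rw [hb'] at h6
    obtain ⟨j, hj⟩ := h6
    refine ⟨j + 1, ?_⟩
    show ev (b j) y < φ y + δ
    rw [hj]
    linarith

/-- a property of affine functions which holds at the extreme points holds everywhere -/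
theorem le_of_ext (hX : IsCompact X) (hc : Convex ℝ X) {a b : (V →L[ℝ] ℝ) × ℝ}
    (h : ∀ y ∈ X.extremePoints ℝ, ev a y ≤ ev b y) : ∀ x ∈ X, ev a x ≤ ev b x := by
  intro x hx
  have h1 : IsClosed {x : V | ev a x ≤ ev b x} := isClosed_le (ev_continuous a) (ev_continuous b)
  have h2 : Convex ℝ {x : V | ev a x ≤ ev b x} := by
    intro x hx y hy s t hs ht hst
    have hx' : a.1 x + a.2 ≤ b.1 x + b.2 := hx
    have hy' : a.1 y + a.2 ≤ b.1 y + b.2 := hy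
    show a.1 (s • x + t • y) + a.2 ≤ b.1 (s • x + t • y) + b.2
    rw [map_add, map_add, map_smul, map_smul, map_smul, map_smul, smul_eq_mul, smul_eq_mul,
      smul_eq_mul, smul_eq_mul]
    have h3 := mul_le_mul_of_nonneg_left hx' hs
    have h4 := mul_le_mul_of_nonneg_left hy' ht
    have h5 : t = 1 - s := by linarith
    subst h5
    nlinarith
  rw [← closure_convexHull_extremePoints hX hc] at hx
  exact closure_minimal (convexHull_min h h2) h1 hx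

/-- module M4, with the conclusion of module M2 as a hypothesis -/
theorem SA_S' (hX : IsCompact X) (hc : Convex ℝ X) (hs : IsSimplex X) (henv : Env X)
    (hL : IsLindelof (X.extremePoints ℝ)) (φ : V → ℝ) (hφ : ContinuousOn φ (X.extremePoints ℝ))
    (hb : ∀ y ∈ X.extremePoints ℝ, |φ y| ≤ 1) :
    ∃ (l : ℕ → (V →L[ℝ] ℝ)) (t : ℕ → ℝ), (∀ n, ∀ x ∈ X, |l n x + t n| ≤ 2) ∧
      ∀ y ∈ X.extremePoints ℝ, Tendsto (fun n => l n y + t n) atTop (𝓝 (φ y)) := by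
  classical
  rcases X.eq_empty_or_nonempty with hne | hne
  · subst hne
    refine ⟨fun _ => 0, fun _ => 0, fun n x hx => absurd hx (Set.notMem_empty x), fun y hy => ?_⟩
    exact absurd (extremePoints_subset hy) (Set.notMem_empty y)
  obtain ⟨b, hb1, hb2, hb3⟩ := upper henv hL φ hφ hb
  obtain ⟨a', ha1', ha2', ha3'⟩ := upper henv hL (fun y => -φ y) hφ.neg
    (fun y hy => by rw [abs_neg]; exact hb y hy)
  obtain ⟨a, ha⟩ : ∃ a : ℕ → (V →L[ℝ] ℝ) × ℝ, a = fun n => -a' n := ⟨_, rfl⟩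
  have hneg : ∀ n y, ev (a n) y = -ev (a' n) y := by
    intro n y
    rw [ha]
    show -(a' n).1 y + -(a' n).2 = -((a' n).1 y + (a' n).2)
    ring
  have ha1 : ∀ j, ∀ y ∈ X.extremePoints ℝ, ev (a j) y ≤ φ y := by
    intro j y hy
    rw [hneg]
    have := ha1' j y hy
    linarith
  have ha2 : ∀ y ∈ X.extremePoints ℝ, ∀ δ : ℝ, 0 < δ → ∃ j, φ y - δ < ev (a j) y := by
    intro y hy δ hδ
    obtain ⟨j, hj⟩ := ha2' y hy δ hδ
    refine ⟨j, ?_⟩
    rw [hneg]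
    linarith
  have hab : ∀ i j, ∀ x ∈ X, ev (a i) x ≤ ev (b j) x := by
    intro i j
    exact le_of_ext hX hc fun y hy => (ha1 i y hy).trans (hb1 j y hy)
  have hsh : ∀ (d : (V →L[ℝ] ℝ) × ℝ) (r : ℝ) (x : V), ev (d.1, d.2 + r) x = ev d x + r := by
    intro d r x
    simp only [ev]
    ring
  have key : ∀ n : ℕ, ∃ c : (V →L[ℝ] ℝ) × ℝ,
      (∀ i ≤ n, ∀ x ∈ X, ev (a i) x - 1 / ((n : ℝ) + 1) < ev c x) ∧
      ∀ j ≤ n, ∀ x ∈ X, ev c x < ev (b j) x + 1 / ((n : ℝ) + 1) := by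
    intro n
    obtain ⟨r, hr⟩ : ∃ r : ℝ, r = 1 / ((n : ℝ) + 1) := ⟨_, rfl⟩
    have hr0 : 0 < r := by
      rw [hr]
      positivity
    rw [← hr]
    obtain ⟨c, hc1, hc2⟩ := interp hX hc hs hne
      ((Finset.range (n + 1)).image fun i => ((a i).1, (a i).2 + -r))
      ((Finset.range (n + 1)).image fun i => ((b i).1, (b i).2 + r))
      ((Finset.nonempty_range_iff.2 (by omega)).image _)
      ((Finset.nonempty_range_iff.2 (by omega)).image _) (by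
        intro d hd e he x hx
        obtain ⟨i, -, rfl⟩ := Finset.mem_image.1 hd
        obtain ⟨j, -, rfl⟩ := Finset.mem_image.1 he
        rw [hsh, hsh]
        have := hab i j x hx
        linarith)
    refine ⟨c, fun i hi x hx => ?_, fun j hj x hx => ?_⟩
    · have := hc1 _ (Finset.mem_image.2 ⟨i, Finset.mem_range.2 (by omega), rfl⟩) x hx
      rw [hsh] at this
      linarith
    · have := hc2 _ (Finset.mem_image.2 ⟨j, Finset.mem_range.2 (by omega), rfl⟩) x hx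
      rw [hsh] at this
      linarith
  choose c hc1 hc2 using key
  refine ⟨fun n => (c n).1, fun n => (c n).2, fun n x hx => ?_, fun y hy => ?_⟩
  · have h1 := hc1 n 0 (Nat.zero_le n) x hx
    have h2 := hc2 n 0 (Nat.zero_le n) x hx
    have h3 : 1 / ((n : ℝ) + 1) ≤ 1 := by
      rw [div_le_one (by positivity)]
      have : (0 : ℝ) ≤ n := Nat.cast_nonneg n
      linarith
    rw [hneg, ha3'] at h1
    rw [hb3] at h2
    have e0 : ev ((0 : V →L[ℝ] ℝ), (1 : ℝ)) x = 1 := by simp [ev]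
    rw [e0] at h1 h2
    show |ev (c n) x| ≤ 2
    rw [abs_le]
    constructor <;> linarith
  · show Tendsto (fun n => ev (c n) y) atTop (𝓝 (φ y))
    have hyX : y ∈ X := extremePoints_subset hy
    rw [Metric.tendsto_atTop]
    intro δ hδ
    obtain ⟨j, hj⟩ := hb2 y hy (δ / 2) (by linarith)
    obtain ⟨i, hi⟩ := ha2 y hy (δ / 2) (by linarith)
    obtain ⟨m, hm⟩ := exists_nat_one_div_lt (show (0 : ℝ) < δ / 2 by linarith)
    refine ⟨i + j + m, fun n hn => ?_⟩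
    have h1 := hc1 n i (by omega) y hyX
    have h2 := hc2 n j (by omega) y hyX
    have h3 : 1 / ((n : ℝ) + 1) ≤ 1 / ((m : ℝ) + 1) := by
      apply one_div_le_one_div_of_le (by positivity)
      have : (m : ℝ) ≤ n := by exact_mod_cast (by omega : m ≤ n)
      linarith
    rw [Real.dist_eq, abs_lt]
    constructor <;> linarith

/-- module M4 -/
theorem _root_.C64.SA_S {X : Set V} (hX : IsCompact X) (hc : Convex ℝ X) (hs : IsSimplex X)
    (hL : IsLindelof (X.extremePoints ℝ)) (φ : V → ℝ) (hφ : ContinuousOn φ (X.extremePoints ℝ))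
    (hb : ∀ y ∈ X.extremePoints ℝ, |φ y| ≤ 1) :
    ∃ (l : ℕ → (V →L[ℝ] ℝ)) (t : ℕ → ℝ), (∀ n, ∀ x ∈ X, |l n x + t n| ≤ 2) ∧
      ∀ y ∈ X.extremePoints ℝ, Tendsto (fun n => l n y + t n) atTop (𝓝 (φ y)) :=
  SA_S' hX hc hs (fun _ hy _ hU hyU _ hε => envelope hX hc hy hU hyU hε) hL φ hφ hb

end approx

end C64.SAS
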