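import Pool.Agent.R197.C64.Vector
import Pool.Agent.R197.C64.SAS
import Pool.Agent.R197.C64.Envelope
import Pool.Agent.R197.C64.SARC

open Set Filter Topology MeasureTheory

namespace C64

theorem main_S {V : Type*} [AddCommGroup V] [Module ℝ V] [TopologicalSpace V]
    [IsTopologicalAddGroup V] [ContinuousSMul ℝ V] [LocallyConvexSpace ℝ V] [T2Space V]
    {F : Type*} [AddCommGroup F] [Module ℝ F] [UniformSpace F] [IsUniformAddGroup F]
    [ContinuousSMul ℝ F] [LocallyConvexSpace ℝ F] [T2Space F] [CompleteSpace F]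
    [FirstCountableTopology F]
    {X : Set V} (hX : IsCompact X) (hc : Convex ℝ X) (hs : IsSimplex X)
    (hL : IsLindelof (X.extremePoints ℝ))
    (f : V → F) (hf : ContinuousOn f (X.extremePoints ℝ))
    (hb : Bornology.IsVonNBounded ℝ (f '' X.extremePoints ℝ)) :
    ∃ g : V → F, A1 X g ∧ EqOn g f (X.extremePoints ℝ) := by
  refine vector_ext (𝕜 := ℝ) hX hc hL {1} ?_ ?_ ?_ ?_ f hf hb ?_
  · rintro α rfl
    exact norm_one
  · rintro α rfl y hy
    rw [one_smul]
    exact hy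
  · intro y₀ _
    refine ⟨fun _ => 1, continuousOn_const, ?_, ?_, one_ne_zero⟩
    · rintro α rfl y _
      rw [mul_one]
    · intro y _
      rw [norm_one]
  · intro ψ hψ _ hψb
    obtain ⟨l, t, hl, hlt⟩ := SA_S hX hc hs hL ψ hψ (fun y hy => hψb y hy)
    refine ⟨fun n x => l n x + t n, ?_, ?_, hlt⟩
    · intro n
      refine ⟨((l n).continuous.add continuous_const).continuousOn, ?_⟩
      intro x _ y _ s _
      change l n (s • x + (1 - s) • y) + t n = s • (l n x + t n) + (1 - s) • (l n y + t n)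
      rw [map_add, map_smul, map_smul]
      simp only [smul_eq_mul]
      ring
    · intro n x hx
      exact hl n x hx
  · rintro α rfl y _
    rw [one_smul, one_smul]

section rc

variable {𝕜 E : Type*} [RCLike 𝕜] [NormedAddCommGroup E] [NormedSpace 𝕜 E]

lemma smul_mem_dualBall {α : 𝕜} (hα : ‖α‖ = 1) {y : WeakDual 𝕜 E} (hy : y ∈ dualBall 𝕜 E) :
    α • y ∈ dualBall 𝕜 E := by
  have h1 : WeakDual.toStrongDual (α • y) = α • WeakDual.toStrongDual y := rfl
  have h2 : ‖WeakDual.toStrongDual y‖ ≤ 1 := hy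
  change ‖WeakDual.toStrongDual (α • y)‖ ≤ 1
  rw [h1, norm_smul, hα, one_mul]
  exact h2

lemma wd_smul_comm (a : ℝ) (c : 𝕜) (x : WeakDual 𝕜 E) : a • c • x = c • a • x := by
  apply DFunLike.ext
  intro e
  exact smul_comm a c (x e)

lemma smul_mem_ext {α : 𝕜} (hα : ‖α‖ = 1) {y : WeakDual 𝕜 E}
    (hy : y ∈ (dualBall 𝕜 E).extremePoints ℝ) : α • y ∈ (dualBall 𝕜 E).extremePoints ℝ := by
  have hα0 : α ≠ 0 := by
    intro h
    rw [h, norm_zero] at hα
    exact zero_ne_one hα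
  have hα' : ‖α⁻¹‖ = 1 := by rw [norm_inv, hα, inv_one]
  rw [mem_extremePoints] at hy ⊢
  refine ⟨smul_mem_dualBall hα hy.1, ?_⟩
  intro x₁ hx₁ x₂ hx₂ hx
  obtain ⟨a, b, ha, hb, hab, hx⟩ := hx
  have h1 : y ∈ openSegment ℝ (α⁻¹ • x₁) (α⁻¹ • x₂) := by
    refine ⟨a, b, ha, hb, hab, ?_⟩
    rw [wd_smul_comm a, wd_smul_comm b, ← smul_add, hx, smul_smul, inv_mul_cancel₀ hα0, one_smul]
  obtain ⟨h2, h3⟩ := hy.2 _ (smul_mem_dualBall hα' hx₁) _ (smul_mem_dualBall hα' hx₂) h1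
  constructor
  · rw [← h2, smul_smul, mul_inv_cancel₀ hα0, one_smul]
  · rw [← h3, smul_smul, mul_inv_cancel₀ hα0, one_smul]

end rc

theorem main_RC.{u, v, w, z} {𝕜 : Type u} {E : Type v} [RCLike 𝕜] [NormedAddCommGroup E]
    [NormedSpace 𝕜 E] [CompleteSpace E] (hE : IsL1Predual.{u, v, w} 𝕜 E)
    {F : Type z} [AddCommGroup F] [Module ℝ F] [Module 𝕜 F] [IsScalarTower ℝ 𝕜 F] [UniformSpace F]
    [IsUniformAddGroup F] [ContinuousSMul 𝕜 F] [ContinuousSMul ℝ F] [LocallyConvexSpace ℝ F]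
    [T2Space F] [CompleteSpace F] [FirstCountableTopology F]
    (hL : IsLindelof ((dualBall 𝕜 E).extremePoints ℝ)) (f : WeakDual 𝕜 E → F)
    (hf : ContinuousOn f ((dualBall 𝕜 E).extremePoints ℝ))
    (hb : Bornology.IsVonNBounded ℝ (f '' (dualBall 𝕜 E).extremePoints ℝ))
    (hhom : ∀ y ∈ (dualBall 𝕜 E).extremePoints ℝ, ∀ α : 𝕜, ‖α‖ = 1 → f (α • y) = α • f y) :
    ∃ g : WeakDual 𝕜 E → F, A1 (dualBall 𝕜 E) g ∧ EqOn g f ((dualBall 𝕜 E).extremePoints ℝ) := by
  by_cases h0 : (0 : WeakDual 𝕜 E) ∈ (dualBall 𝕜 E).extremePoints ℝ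
  · -- the dual ball is a point
    have hball : ∀ y ∈ dualBall 𝕜 E, y = 0 := by
      intro y hy
      rw [mem_extremePoints] at h0
      have h1 : (0 : WeakDual 𝕜 E) ∈ openSegment ℝ y ((-1 : 𝕜) • y) := by
        refine ⟨1 / 2, 1 / 2, by norm_num, by norm_num, by norm_num, ?_⟩
        rw [neg_one_smul, smul_neg, add_neg_cancel]
      exact (h0.2 _ hy _ (smul_mem_dualBall (by rw [norm_neg, norm_one]) hy) h1).1
    have hf0 : f 0 = 0 := by
      have h1 := hhom 0 h0 (-1) (by rw [norm_neg, norm_one])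
      rw [smul_zero, neg_one_smul] at h1
      have h2 : (2 : 𝕜) • f 0 = 0 := by
        rw [two_smul]
        nth_rewrite 1 [h1]
        exact neg_add_cancel _
      exact (smul_eq_zero.1 h2).resolve_left two_ne_zero
    refine ⟨fun _ => 0, ⟨fun _ _ => 0, fun n => ⟨continuousOn_const, ?_⟩, fun x _ =>
      tendsto_const_nhds⟩, ?_⟩
    · intro x _ y _ t _
      change (0 : F) = t • 0 + (1 - t) • 0
      rw [smul_zero, smul_zero, add_zero]
    · intro y hy
      rw [hball y hy.1, hf0]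
  · have hev : ∀ e : E, Continuous fun y : WeakDual 𝕜 E => y e := fun e =>
      WeakDual.eval_continuous e
    have key := @vector_ext 𝕜 _ (WeakDual 𝕜 E) _ _ _ _ _ _ _ _ F _ _ _ _ _ _ _ _ _ _ _ _
      (dualBall 𝕜 E)
    have key2 := key isCompact_dualBall
    have key3 := key2 convex_dualBall
    have key4 := key3 hL {α | ‖α‖ = 1} (fun α hα => hα) (fun α hα y hy => smul_mem_ext hα hy)
    refine key4 ?_ ?_ f hf hb (fun α hα y hy => hhom y hy α hα)
    · intro y₀ hy₀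
      have hne : y₀ ≠ 0 := by
        rintro rfl
        exact h0 hy₀
      obtain ⟨e, he⟩ : ∃ e : E, y₀ e ≠ 0 := by
        by_contra hcon
        push Not at hcon
        exact hne (DFunLike.ext _ _ hcon)
      have he0 : e ≠ 0 := by
        rintro rfl
        exact he (map_zero y₀)
      have hen : 0 < ‖e‖ := norm_pos_iff.2 he0
      refine ⟨fun y => ((‖e‖⁻¹ : ℝ) : 𝕜) * y e, ?_, ?_, ?_, ?_⟩
      · exact (continuous_const.mul (hev e)).continuousOn
      · intro α _ y _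
        change ((‖e‖⁻¹ : ℝ) : 𝕜) * (α * y e) = α * (((‖e‖⁻¹ : ℝ) : 𝕜) * y e)
        ring
      · intro y hy
        have h1 : ‖WeakDual.toStrongDual y‖ ≤ 1 := hy.1
        have h2 : ‖y e‖ ≤ ‖WeakDual.toStrongDual y‖ * ‖e‖ :=
          (WeakDual.toStrongDual y).le_opNorm e
        rw [norm_mul, RCLike.norm_ofReal, abs_of_pos (inv_pos.2 hen), inv_mul_le_iff₀ hen]
        nlinarith
      · have : ((‖e‖⁻¹ : ℝ) : 𝕜) ≠ 0 := by
          rw [Ne, RCLike.ofReal_eq_zero]
          exact (inv_pos.2 hen).ne'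
        exact mul_ne_zero this he
    · intro ψ hψ hψh hψb
      obtain ⟨a, ha, hal⟩ := SA_RC hE hL ψ hψ (fun y hy α hα => hψh α hα y hy) hψb
      refine ⟨fun n x => x (a n), ?_, ?_, hal⟩
      · intro n
        refine ⟨(hev (a n)).continuousOn, ?_⟩
        intro x _ y _ t _
        rfl
      · intro n x hx
        have h1 : ‖WeakDual.toStrongDual x‖ ≤ 1 := hx
        have h2 : ‖x (a n)‖ ≤ ‖WeakDual.toStrongDual x‖ * ‖a n‖ :=
          (WeakDual.toStrongDual x).le_opNorm (a n)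
        have h3 := ha n
        change ‖x (a n)‖ ≤ 2
        nlinarith [norm_nonneg (a n), norm_nonneg (WeakDual.toStrongDual x)]

end C64
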