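import Pool.Agent.R197.C64.Defs

/-!
# MP_c64b61_an, module M5: seminorms of a Fréchet space
-/
open Set Filter Topology MeasureTheory Pointwise

set_option linter.unusedSectionVars false

namespace C64

section semi

variable {𝕜 : Type*} [RCLike 𝕜]
  {F : Type*} [AddCommGroup F] [Module ℝ F] [Module 𝕜 F] [IsScalarTower ℝ 𝕜 F] [UniformSpace F]
  [IsUniformAddGroup F] [ContinuousSMul 𝕜 F] [ContinuousSMul ℝ F] [LocallyConvexSpace ℝ F]

/-- An increasing sequence of continuous seminorms which defines the topology. -/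
structure SN (q : ℕ → Seminorm 𝕜 F) : Prop where
  mono : Monotone q
  cont : ∀ n, Continuous (q n)
  basis : ∀ U ∈ 𝓝 (0 : F), ∃ n, {x | q n x < 1} ⊆ U

lemma exists_sn1 (U : Set F) (hU : U ∈ 𝓝 (0 : F)) :
    ∃ p : Seminorm 𝕜 F, Continuous p ∧ {x | p x < 1} ⊆ U := by
  obtain ⟨C, ⟨hC0, hC1⟩, hCU⟩ := (LocallyConvexSpace.convex_basis_zero ℝ F).mem_iff.1 hU
  set B := balancedCore 𝕜 C with hB
  have hB0 : B ∈ 𝓝 (0 : F) := balancedCore_mem_nhds_zero hC0
  have hBC : B ⊆ C := balancedCore_subset C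
  have hBb : Balanced 𝕜 B := balancedCore_balanced C
  set W := convexHull ℝ B with hW
  have hWC : W ⊆ C := convexHull_min hBC hC1
  have hW0 : W ∈ 𝓝 (0 : F) := mem_of_superset hB0 (subset_convexHull ℝ B)
  have hWb : Balanced 𝕜 W := by
    intro a ha
    have h1 : a • W = convexHull ℝ (a • B) := by
      have h2 := ((a • LinearMap.id : F →ₗ[𝕜] F).restrictScalars ℝ).image_convexHull B
      have h3 : ∀ S : Set F, ((a • LinearMap.id : F →ₗ[𝕜] F).restrictScalars ℝ) '' S = a • S := by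
        intro S
        ext z
        simp [Set.mem_smul_set]
      rw [h3, h3] at h2
      exact h2
    rw [h1]
    exact convexHull_mono (hBb a ha)
  have hWc : Convex ℝ W := convex_convexHull ℝ B
  refine ⟨gaugeSeminorm hWb hWc (absorbent_nhds_zero hW0), continuous_gauge hWc hW0, ?_⟩
  intro x hx
  apply hCU
  apply hWC
  exact setOfPred_gauge_lt_one_subset_self hWc (mem_of_mem_nhds hW0) (absorbent_nhds_zero hW0) hx

lemma exists_SN [FirstCountableTopology F] : ∃ q : ℕ → Seminorm 𝕜 F, SN q := by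
  obtain ⟨u, hu⟩ := (𝓝 (0 : F)).exists_antitone_basis
  choose p hp1 hp2 using fun n => exists_sn1 (𝕜 := 𝕜) (u n) (hu.1.mem_of_mem trivial)
  let q : ℕ → Seminorm 𝕜 F := fun n => Nat.rec (p 0) (fun n qn => qn ⊔ p (n + 1)) n
  have hq1 : ∀ n, q (n + 1) = q n ⊔ p (n + 1) := fun n => rfl
  have hpq : ∀ n, p n ≤ q n := by
    intro n
    cases n with
    | zero => exact le_rfl
    | succ n => rw [hq1]; exact le_sup_right
  refine ⟨q, ?_, ?_, ?_⟩
  · apply monotone_nat_of_le_succ
    intro n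
    rw [hq1]
    exact le_sup_left
  · intro n
    induction n with
    | zero => exact hp1 0
    | succ n ih =>
      rw [hq1]
      have : (⇑(q n ⊔ p (n + 1)) : F → ℝ) = fun x => max (q n x) (p (n + 1) x) := rfl
      rw [this]
      exact ih.max (hp1 _)
  · intro U hU
    obtain ⟨n, _, hn⟩ := hu.1.mem_iff.1 hU
    refine ⟨n, fun x hx => hn (hp2 n ?_)⟩
    exact lt_of_le_of_lt (hpq n x) hx

variable {q : ℕ → Seminorm 𝕜 F}

lemma SN.tendsto_iff (hq : SN q) {ι : Type*} {l : Filter ι} {u : ι → F} {v : F} :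
    Tendsto u l (𝓝 v) ↔ ∀ j, Tendsto (fun i => q j (u i - v)) l (𝓝 0) := by
  constructor
  · intro h j
    have h1 : Tendsto (fun i => u i - v) l (𝓝 0) := by
      have := h.sub_const v
      rwa [sub_self] at this
    have h2 := ((hq.cont j).tendsto 0).comp h1
    rw [map_zero] at h2
    exact h2
  · intro h
    rw [tendsto_sub_nhds_zero_iff.symm]
    intro U hU
    obtain ⟨n, hn⟩ := hq.basis U hU
    have h1 := (h n).eventually_lt_const (show (0 : ℝ) < 1 from one_pos)
    exact h1.mono fun i hi => hn hi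

lemma SN.exists_limit [CompleteSpace F] (hq : SN q) {u : ℕ → F}
    (h : ∀ j, ∀ δ > 0, ∃ N, ∀ m ≥ N, ∀ n ≥ N, q j (u m - u n) < δ) :
    ∃ v, Tendsto u atTop (𝓝 v) := by
  apply cauchySeq_tendsto_of_complete
  rw [cauchySeq_iff]
  intro W hW
  rw [uniformity_eq_comap_nhds_zero F] at hW
  obtain ⟨U, hU, hUW⟩ := hW
  obtain ⟨j, hj⟩ := hq.basis U hU
  obtain ⟨N, hN⟩ := h j 1 one_pos
  refine ⟨N, fun m hm n hn => hUW ?_⟩
  exact hj (hN n hn m hm)

lemma SN.continuousWithinAt_iff (hq : SN q) {V : Type*} [TopologicalSpace V] {g : V → F}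
    {E : Set V} {y : V} :
    ContinuousWithinAt g E y ↔ ∀ j, ∀ δ > 0, ∀ᶠ z in 𝓝[E] y, q j (g z - g y) < δ := by
  unfold ContinuousWithinAt
  rw [hq.tendsto_iff]
  constructor
  · intro h j δ hδ
    exact (h j).eventually_lt_const hδ
  · intro h j
    rw [tendsto_order]
    refine ⟨fun a ha => Eventually.of_forall fun z => lt_of_lt_of_le ha (apply_nonneg _ _),
      fun a ha => h j a ha⟩

lemma SN.bounded (hq : SN q) {S : Set F} (hS : Bornology.IsVonNBounded ℝ S) (j : ℕ) :
    ∃ C : ℝ, ∀ v ∈ S, q j v ≤ C := by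
  have hU : {x | q j x < 1} ∈ 𝓝 (0 : F) := by
    have : IsOpen {x | q j x < 1} := isOpen_lt (hq.cont j) continuous_const
    exact this.mem_nhds (by simp)
  obtain ⟨r, hr, h⟩ := (hS hU).exists_pos
  refine ⟨r, fun v hv => ?_⟩
  have h1 := h r (by rw [Real.norm_of_nonneg hr.le]) hv
  obtain ⟨x, hx, rfl⟩ := h1
  have h2 : q j (r • x) = r * q j x := by
    have : r • x = (r : 𝕜) • x := by
      rw [RCLike.real_smul_eq_coe_smul (K := 𝕜)]
    rw [this, map_smul_eq_mul, RCLike.norm_ofReal, abs_of_pos hr]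
  change q j (r • x) ≤ r
  rw [h2]
  have h3 : q j x < 1 := hx
  nlinarith

end semi

end C64
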