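import Pool.Agent.R197.C64.Defs

set_option autoImplicit false

open Set Filter Topology MeasureTheory

namespace C64

variable {V : Type*} [AddCommGroup V] [Module ℝ V] [TopologicalSpace V]
  [IsTopologicalAddGroup V] [ContinuousSMul ℝ V] [LocallyConvexSpace ℝ V] [T2Space V]

namespace Simons

/-- supremum over `X`. -/
noncomputable def S (X : Set V) (h : V → ℝ) : ℝ := sSup (h '' X)

omit [IsTopologicalAddGroup V] [ContinuousSMul ℝ V] [LocallyConvexSpace ℝ V] [T2Space V]
  [AddCommGroup V] [Module ℝ V] in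
theorem le_S {X : Set V} (hX : IsCompact X) {h : V → ℝ} (hh : ContinuousOn h X) {x : V}
    (hx : x ∈ X) : h x ≤ S X h :=
  le_csSup (hX.image_of_continuousOn hh).bddAbove (mem_image_of_mem h hx)

omit [IsTopologicalAddGroup V] [ContinuousSMul ℝ V] [LocallyConvexSpace ℝ V] [T2Space V]
  [AddCommGroup V] [Module ℝ V] [TopologicalSpace V] in
theorem S_le {X : Set V} (hne : X.Nonempty) {h : V → ℝ} {c : ℝ} (hc : ∀ x ∈ X, h x ≤ c) :
    S X h ≤ c :=
  csSup_le (hne.image h) (by rintro _ ⟨x, hx, rfl⟩; exact hc x hx)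

theorem bauer {X : Set V} (hX : IsCompact X) (hne : X.Nonempty) {h : V → ℝ}
    (hh : ContinuousOn h X) (hcv : ConvexOn ℝ X h) :
    ∃ b ∈ X.extremePoints ℝ, ∀ x ∈ X, h x ≤ h b := by
  obtain ⟨a, ha, hmax⟩ := hX.exists_isMaxOn hne hh
  have hM : IsClosed {x : X | h x = h a} :=
    isClosed_eq (continuousOn_iff_continuous_domRestrict.1 hh) continuous_const
  have hMc : IsCompact {x | x ∈ X ∧ h x = h a} := by
    have : CompactSpace X := isCompact_iff_compactSpace.1 hX
    have h1 := hM.isCompact.image continuous_subtype_val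
    convert h1 using 1
    ext x
    simp only [mem_ofPred_eq, mem_image, Subtype.exists, exists_and_right, exists_eq_right]
    constructor
    · rintro ⟨h2, h3⟩; exact ⟨h2, h3⟩
    · rintro ⟨h2, h3⟩; exact ⟨h2, h3⟩
  have hMne : {x | x ∈ X ∧ h x = h a}.Nonempty := ⟨a, ha, rfl⟩
  obtain ⟨b, hb⟩ := hMc.extremePoints_nonempty hMne
  have hext : IsExtreme ℝ X {x | x ∈ X ∧ h x = h a} := by
    refine ⟨fun x hx => hx.1, ?_⟩
    rintro x hx y hy z ⟨hz, hz'⟩ ⟨p, q, hp, hq, hpq, rfl⟩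
    refine ⟨hx, le_antisymm (hmax hx) ?_⟩
    have h1 := hcv.2 hx hy hp.le hq.le hpq
    rw [hz', smul_eq_mul, smul_eq_mul] at h1
    have h2 : h y ≤ h a := hmax hy
    have h3 : p * h a ≤ p * h x := by
      have : q * h y ≤ q * h a := mul_le_mul_of_nonneg_left h2 hq.le
      have h4 : p * h a + q * h a = h a := by rw [← add_mul, hpq, one_mul]
      linarith
    exact le_of_mul_le_mul_left h3 hp
  refine ⟨b, hext.extremePoints_subset_extremePoints hb, fun x hx => ?_⟩
  have : h b = h a := (extremePoints_subset hb).2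
  rw [this]
  exact hmax hx

/-- continuous convex functions with values in `[0, K]`. -/
def Good (X : Set V) (K : ℝ) : Set (V → ℝ) :=
  {g | ContinuousOn g X ∧ ConvexOn ℝ X g ∧ ∀ x ∈ X, 0 ≤ g x ∧ g x ≤ K}

omit [IsTopologicalAddGroup V] [ContinuousSMul ℝ V] [LocallyConvexSpace ℝ V] [T2Space V] in
theorem convex_good (X : Set V) (K : ℝ) : Convex ℝ (Good X K) := by
  rintro f ⟨hf1, hf2, hf3⟩ g ⟨hg1, hg2, hg3⟩ a b ha hb hab
  refine ⟨?_, ?_, fun x hx => ?_⟩
  · have h1 : ContinuousOn (fun x => a * f x + b * g x) X :=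
      (continuousOn_const.mul hf1).add (continuousOn_const.mul hg1)
    exact h1
  · exact (hf2.smul ha).add (hg2.smul hb)
  · obtain ⟨h1, h2⟩ := hf3 x hx
    obtain ⟨h3, h4⟩ := hg3 x hx
    simp only [Pi.add_apply, Pi.smul_apply, smul_eq_mul]
    refine ⟨by positivity, ?_⟩
    calc a * f x + b * g x ≤ a * K + b * K := by gcongr
      _ = K := by rw [← add_mul, hab, one_mul]

/-- tails. -/
def C (G : ℕ → V → ℝ) (n : ℕ) : Set (V → ℝ) := convexHull ℝ (G '' Ici n)

omit [IsTopologicalAddGroup V] [ContinuousSMul ℝ V] [LocallyConvexSpace ℝ V] [T2Space V]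
  [AddCommGroup V] [Module ℝ V] [TopologicalSpace V] in
theorem C_mono (G : ℕ → V → ℝ) {m n : ℕ} (h : m ≤ n) : C G n ⊆ C G m :=
  convexHull_mono (image_mono (Ici_subset_Ici.2 h))

omit [IsTopologicalAddGroup V] [ContinuousSMul ℝ V] [LocallyConvexSpace ℝ V] [T2Space V]
  [AddCommGroup V] [Module ℝ V] [TopologicalSpace V] in
theorem C_ne (G : ℕ → V → ℝ) (n : ℕ) : (C G n).Nonempty :=
  ⟨G n, subset_convexHull ℝ _ ⟨n, self_mem_Ici, rfl⟩⟩

omit [IsTopologicalAddGroup V] [ContinuousSMul ℝ V] [LocallyConvexSpace ℝ V] [T2Space V] in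
theorem C_good {X : Set V} {K : ℝ} {G : ℕ → V → ℝ} (hG : ∀ n, G n ∈ Good X K) (n : ℕ) :
    C G n ⊆ Good X K :=
  convexHull_min (by rintro _ ⟨p, _, rfl⟩; exact hG p) (convex_good X K)

omit [IsTopologicalAddGroup V] [ContinuousSMul ℝ V] [LocallyConvexSpace ℝ V] [T2Space V]
  [AddCommGroup V] [Module ℝ V] [TopologicalSpace V] in
theorem C_le {G : ℕ → V → ℝ} {n : ℕ} {b : V} {c : ℝ} (h : ∀ p, n ≤ p → G p b ≤ c) :
    ∀ g ∈ C G n, g b ≤ c := by
  have : C G n ⊆ {g | g b ≤ c} := by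
    refine convexHull_min ?_ ?_
    · rintro _ ⟨p, hp, rfl⟩; exact h p hp
    · intro f hf g hg a a' ha ha' haa
      have hf' : f b ≤ c := hf
      have hg' : g b ≤ c := hg
      change a * f b + a' * g b ≤ c
      calc a * f b + a' * g b ≤ a * c + a' * c := by gcongr
        _ = c := by rw [← add_mul, haa, one_mul]
  exact this

omit [IsTopologicalAddGroup V] [ContinuousSMul ℝ V] [LocallyConvexSpace ℝ V] [T2Space V]
  [AddCommGroup V] [Module ℝ V] [TopologicalSpace V] in
theorem C_rep {G : ℕ → V → ℝ} {n : ℕ} {g : V → ℝ} (hg : g ∈ C G n) :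
    ∃ (s : Finset ℕ) (w : ℕ → ℝ), (∀ k ∈ s, n ≤ k) ∧ (∀ k ∈ s, 0 ≤ w k) ∧ ∑ k ∈ s, w k = 1 ∧
      ∀ x, g x = ∑ k ∈ s, w k * G k x := by
  classical
  let D : Set (V → ℝ) := {g | ∃ (w : ℕ →₀ ℝ), (∀ k ∈ w.support, n ≤ k) ∧ (∀ k, 0 ≤ w k) ∧
    (w.sum fun _ a => a) = 1 ∧ g = w.sum fun k a => a • G k}
  have hD : C G n ⊆ D := by
    refine convexHull_min ?_ ?_
    · rintro _ ⟨p, hp, rfl⟩
      refine ⟨Finsupp.single p 1, ?_, ?_, ?_, ?_⟩
      · intro k hk
        rw [Finsupp.support_single _ one_ne_zero, Finset.mem_singleton] at hk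
        rw [hk]; exact hp
      · intro k
        rw [Finsupp.single_apply]; split_ifs <;> norm_num
      · rw [Finsupp.sum_single_index rfl]
      · rw [Finsupp.sum_single_index (by simp), one_smul]
    · rintro f ⟨w, h1, h2, h3, rfl⟩ g ⟨v, h4, h5, h6, rfl⟩ a b ha hb hab
      refine ⟨a • w + b • v, ?_, ?_, ?_, ?_⟩
      · intro k hk
        rcases Finset.mem_union.1 (Finsupp.support_add hk) with h | h
        · exact h1 k (Finsupp.support_smul h)
        · exact h4 k (Finsupp.support_smul h)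
      · intro k
        simp only [Finsupp.add_apply, Finsupp.smul_apply, smul_eq_mul]
        have := h2 k
        have := h5 k
        positivity
      · rw [Finsupp.sum_add_index' (fun _ => rfl) (fun _ _ _ => rfl),
          Finsupp.sum_smul_index' (fun _ => rfl), Finsupp.sum_smul_index' (fun _ => rfl)]
        simp only [smul_eq_mul]
        rw [← Finsupp.mul_sum, ← Finsupp.mul_sum, h3, h6, mul_one, mul_one, hab]
      · rw [Finsupp.sum_add_index' (fun _ => by simp) (fun _ _ _ => by rw [add_smul]),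
          Finsupp.sum_smul_index' (fun _ => by simp), Finsupp.sum_smul_index' (fun _ => by simp)]
        simp only [smul_assoc]
        rw [← Finsupp.smul_sum, ← Finsupp.smul_sum]
  obtain ⟨w, h1, h2, h3, h4⟩ := hD hg
  refine ⟨w.support, w, h1, fun k _ => h2 k, h3, fun x => ?_⟩
  rw [h4, Finsupp.sum, Finset.sum_apply]
  rfl

theorem key {X : Set V} (hX : IsCompact X) (hne : X.Nonempty) {G : ℕ → V → ℝ} {K : ℝ}
    (hG : ∀ n, G n ∈ Good X K)
    (hlim : ∀ y ∈ X.extremePoints ℝ, Tendsto (fun n => G n y) atTop (𝓝 0))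
    {η : ℝ} (hη : 0 < η) : ∃ g ∈ C G 0, ∀ x ∈ X, g x ≤ η := by
  by_contra hcon
  push Not at hcon
  obtain ⟨x0, hx0⟩ := hne
  have hK : 0 ≤ K := ((hG 0).2.2 x0 hx0).1.trans ((hG 0).2.2 x0 hx0).2
  obtain ⟨lam, hl0, hl1, hlK⟩ : ∃ lam : ℝ, 0 < lam ∧ lam ≤ 1 / 2 ∧ K * lam ≤ η / 4 := by
    refine ⟨min (1 / 2) (η / (4 * (K + 1))), by positivity, min_le_left _ _, ?_⟩
    calc K * min (1 / 2) (η / (4 * (K + 1))) ≤ K * (η / (4 * (K + 1))) :=
          mul_le_mul_of_nonneg_left (min_le_right _ _) hK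
      _ = (K / (K + 1)) * (η / 4) := by field_simp
      _ ≤ 1 * (η / 4) := by
          refine mul_le_mul_of_nonneg_right ?_ (by positivity)
          exact div_le_one_of_le₀ (by linarith) (by linarith)
      _ = η / 4 := one_mul _
  obtain ⟨δ, hδ⟩ : ∃ δ : ℝ, δ = η / 8 := ⟨_, rfl⟩
  have hδ0 : 0 < δ := by rw [hδ]; positivity
  -- near minimisers
  have hpick : ∀ (n : ℕ) (h : V → ℝ), ∃ g ∈ C G n, (ContinuousOn h X → (∀ x ∈ X, 0 ≤ h x) →
      ∀ g' ∈ C G n, S X (h + lam ^ n • g) ≤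
        S X (h + lam ^ n • g') + δ * (lam / 2) ^ (n + 1)) := by
    intro n h
    by_cases hh : ContinuousOn h X ∧ ∀ x ∈ X, 0 ≤ h x
    · have hne' : ((fun g => S X (h + lam ^ n • g)) '' C G n).Nonempty := (C_ne G n).image _
      obtain ⟨_, ⟨g, hg, rfl⟩, hlt⟩ := Real.lt_sInf_add_pos hne'
        (show 0 < δ * (lam / 2) ^ (n + 1) by positivity)
      refine ⟨g, hg, fun _ _ g' hg' => hlt.le.trans ?_⟩
      refine add_le_add (csInf_le ⟨0, ?_⟩ ⟨g', hg', rfl⟩) le_rfl
      rintro _ ⟨f, hf, rfl⟩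
      have h1 := C_good hG n hf
      have h2 : ContinuousOn (h + lam ^ n • f) X := hh.1.add (h1.1.const_smul _)
      refine le_trans ?_ (le_S hX h2 hx0)
      have := hh.2 x0 hx0
      have := (h1.2.2 x0 hx0).1
      simp only [Pi.add_apply, Pi.smul_apply, smul_eq_mul]
      positivity
    · obtain ⟨g, hg⟩ := C_ne G n
      exact ⟨g, hg, fun h1 h2 => absurd ⟨h1, h2⟩ hh⟩
  choose pick hpick1 hpick2 using hpick
  let h : ℕ → V → ℝ := fun n => Nat.rec 0 (fun n f => f + lam ^ n • pick n f) n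
  let g : ℕ → V → ℝ := fun n => pick n (h n)
  have h00 : h 0 = 0 := rfl
  have hsucc : ∀ n, h (n + 1) = h n + lam ^ n • g n := fun n => rfl
  have hgC : ∀ n, g n ∈ C G n := fun n => hpick1 n _
  have hgG : ∀ n, g n ∈ Good X K := fun n => C_good hG n (hgC n)
  have hh : ∀ n, ContinuousOn (h n) X ∧ (∀ x ∈ X, 0 ≤ h n x) ∧ ConvexOn ℝ X (h n) := by
    intro n
    induction n with
    | zero =>
      exact ⟨continuousOn_const, fun x _ => le_rfl, convexOn_const 0 (hgG 0).2.1.1⟩
    | succ n ih =>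
      rw [hsucc]
      refine ⟨ih.1.add ((hgG n).1.const_smul _), fun x hx => ?_, ?_⟩
      · have := ih.2.1 x hx
        have := ((hgG n).2.2 x hx).1
        simp only [Pi.add_apply, Pi.smul_apply, smul_eq_mul]
        positivity
      · exact ih.2.2.add ((hgG n).2.1.smul (by positivity))
  have hmin : ∀ n, ∀ g' ∈ C G n,
      S X (h (n + 1)) ≤ S X (h n + lam ^ n • g') + δ * (lam / 2) ^ (n + 1) :=
    fun n => hpick2 n (h n) (hh n).1 (hh n).2.1
  clear_value g h
  -- the recursive inequality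
  have hrec : ∀ n, (1 + lam) * S X (h (n + 1)) ≤
      lam * S X (h n) + S X (h (n + 2)) + (1 + lam) * (δ * (lam / 2) ^ (n + 1)) := by
    intro n
    have h1 : (1 / (1 + lam)) • g n + (lam / (1 + lam)) • g (n + 1) ∈ C G n :=
      convex_convexHull ℝ _ (hgC n) (C_mono G (Nat.le_succ n) (hgC (n + 1)))
        (by positivity) (by positivity) (by field_simp)
    have h2 := hmin n _ h1
    have h3 : S X (h n + lam ^ n • ((1 / (1 + lam)) • g n + (lam / (1 + lam)) • g (n + 1))) ≤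
        (lam * S X (h n) + S X (h (n + 2))) / (1 + lam) := by
      refine S_le ⟨x0, hx0⟩ fun x hx => ?_
      have h4 : h (n + 2) x = h n x + lam ^ n * g n x + lam ^ (n + 1) * g (n + 1) x := by
        rw [hsucc (n + 1), hsucc n]; rfl
      have h5 := le_S hX (hh n).1 hx
      have h6 := le_S hX (hh (n + 2)).1 hx
      rw [le_div_iff₀ (by positivity)]
      simp only [Pi.add_apply, Pi.smul_apply, smul_eq_mul]
      have h7 : (h n x + lam ^ n * (1 / (1 + lam) * g n x + lam / (1 + lam) * g (n + 1) x)) *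
          (1 + lam) = lam * h n x + h (n + 2) x := by
        rw [h4]; field_simp; ring
      rw [h7]
      have := mul_le_mul_of_nonneg_left h5 hl0.le
      linarith
    have h8 := h2.trans (add_le_add_left h3 (δ * (lam / 2) ^ (n + 1)))
    have h9 := mul_le_mul_of_nonneg_left h8 (show 0 ≤ 1 + lam by positivity)
    have h10 : (1 + lam) * ((lam * S X (h n) + S X (h (n + 2))) / (1 + lam) +
        δ * (lam / 2) ^ (n + 1)) = lam * S X (h n) + S X (h (n + 2)) +
        (1 + lam) * (δ * (lam / 2) ^ (n + 1)) := by field_simp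
    rw [h10] at h9
    exact h9
  have hD : ∀ n, lam ^ n * (η - δ * (1 + lam) * (1 - (1 / 2) ^ n)) ≤
      S X (h (n + 1)) - S X (h n) := by
    intro n
    induction n with
    | zero =>
      obtain ⟨x, hx, hx'⟩ := hcon (g 0) (hgC 0)
      have h1 : S X (h 0) ≤ 0 := S_le ⟨x0, hx0⟩ fun x _ => by rw [h00]; exact le_rfl
      have h2 := le_S hX (hh 1).1 hx
      have h3 : h 1 x = g 0 x := by
        rw [hsucc 0, h00]; simp
      rw [h3] at h2
      simp only [pow_zero, sub_self, mul_zero, sub_zero, one_mul]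
      linarith
    | succ n ih =>
      have h1 := hrec n
      have h2 := mul_le_mul_of_nonneg_left ih hl0.le
      have h3 : lam * (lam ^ n * (η - δ * (1 + lam) * (1 - (1 / 2) ^ n))) -
          (1 + lam) * (δ * (lam / 2) ^ (n + 1)) =
          lam ^ (n + 1) * (η - δ * (1 + lam) * (1 - (1 / 2) ^ (n + 1))) := by
        rw [div_pow, div_pow, div_pow, pow_succ 2 n]
        field_simp
        ring
      rw [← h3]
      linarith
  obtain ⟨e, he⟩ : ∃ e : ℝ, e = η - δ * (1 + lam) := ⟨_, rfl⟩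
  have hD' : ∀ n, lam ^ n * e ≤ S X (h (n + 1)) - S X (h n) := by
    intro n
    refine le_trans ?_ (hD n)
    refine mul_le_mul_of_nonneg_left ?_ (by positivity)
    rw [he]
    have : δ * (1 + lam) * (1 - (1 / 2) ^ n) ≤ δ * (1 + lam) := by
      have h1 : (0 : ℝ) ≤ (1 / 2) ^ n := by positivity
      have h2 : (0 : ℝ) ≤ δ * (1 + lam) * (1 / 2) ^ n := by positivity
      linarith
    linarith
  have hsum : ∀ n k, e * lam ^ n * (1 - lam ^ k) ≤ (1 - lam) * (S X (h (n + k)) - S X (h n)) := by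
    intro n k
    induction k with
    | zero => simp
    | succ k ih =>
      have h1 := mul_le_mul_of_nonneg_left (hD' (n + k)) (show 0 ≤ 1 - lam by linarith)
      have h2 : e * lam ^ n * (1 - lam ^ (k + 1)) = e * lam ^ n * (1 - lam ^ k) +
          (1 - lam) * (lam ^ (n + k) * e) := by ring
      rw [h2, ← add_assoc n k 1]
      linarith
  -- the limit
  have hterm : ∀ x ∈ X, ∀ n, 0 ≤ lam ^ n * g n x ∧ lam ^ n * g n x ≤ K * lam ^ n := by
    intro x hx n
    obtain ⟨h1, h2⟩ := (hgG n).2.2 x hx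
    refine ⟨by positivity, ?_⟩
    rw [mul_comm]
    exact mul_le_mul_of_nonneg_right h2 (by positivity)
  have hgeo : Summable (fun n : ℕ => K * lam ^ n) :=
    (summable_geometric_of_lt_one hl0.le (by linarith)).mul_left K
  have hsm : ∀ x ∈ X, Summable (fun n => lam ^ n * g n x) := fun x hx =>
    Summable.of_nonneg_of_le (fun n => (hterm x hx n).1) (fun n => (hterm x hx n).2) hgeo
  have hpart : ∀ x n, h n x = ∑ k ∈ Finset.range n, lam ^ k * g k x := by
    intro x n
    induction n with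
    | zero => rw [h00]; simp
    | succ n ih => rw [hsucc, Finset.sum_range_succ, ← ih]; rfl
  obtain ⟨H, hH⟩ : ∃ H : V → ℝ, ∀ x, H x = ∑' n, lam ^ n * g n x := ⟨_, fun _ => rfl⟩
  have hle : ∀ x ∈ X, ∀ n, h n x ≤ H x := by
    intro x hx n
    rw [hpart, hH]
    exact (hsm x hx).sum_le_tsum _ fun k _ => (hterm x hx k).1
  have htail : ∀ x ∈ X, ∀ n, (1 - lam) * H x ≤ (1 - lam) * h n x + K * lam ^ n := by
    intro x hx n
    rw [hpart, hH, ← (hsm x hx).sum_add_tsum_nat_add n]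
    have h1 : ∑' k, lam ^ (k + n) * g (k + n) x ≤ ∑' k, K * lam ^ n * lam ^ k := by
      refine Summable.tsum_le_tsum (fun k => ?_) ((summable_nat_add_iff n).2 (hsm x hx))
        ((summable_geometric_of_lt_one hl0.le (by linarith)).mul_left _)
      refine ((hterm x hx (k + n)).2).trans_eq ?_
      ring
    rw [tsum_mul_left, tsum_geometric_of_lt_one hl0.le (by linarith)] at h1
    have h2 := mul_le_mul_of_nonneg_left h1 (show 0 ≤ 1 - lam by linarith)
    have h3 : (1 - lam) * (K * lam ^ n * (1 - lam)⁻¹) = K * lam ^ n := by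
      have : 1 - lam ≠ 0 := by linarith
      field_simp
    rw [h3] at h2
    rw [mul_add]
    linarith
  have hHc : ContinuousOn H X := by
    have h1 : ContinuousOn (fun x => ∑' n, lam ^ n * g n x) X := by
      refine continuousOn_tsum (u := fun n => K * lam ^ n)
        (fun n => (hgG n).1.const_mul _) hgeo fun n x hx => ?_
      rw [Real.norm_of_nonneg (hterm x hx n).1]
      exact (hterm x hx n).2
    exact h1.congr fun x _ => hH x
  have htend : ∀ x ∈ X, Tendsto (fun n => h n x) atTop (𝓝 (H x)) := by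
    intro x hx
    rw [hH]
    have := (hsm x hx).hasSum.tendsto_sum_nat
    refine this.congr fun n => (hpart x n).symm
  have hHv : ConvexOn ℝ X H := by
    refine ⟨(hgG 0).2.1.1, fun x hx y hy a b ha hb hab => ?_⟩
    have hz := (hgG 0).2.1.1 hx hy ha hb hab
    refine le_of_tendsto_of_tendsto' (htend _ hz)
      (((htend x hx).const_smul a).add ((htend y hy).const_smul b)) fun n => ?_
    exact (hh n).2.2.2 hx hy ha hb hab
  obtain ⟨b, hb, hbmax⟩ := bauer hX ⟨x0, hx0⟩ hHc hHv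
  have hbX : b ∈ X := extremePoints_subset hb
  have hlow : ∀ n, e * lam ^ n ≤ (1 - lam) * (H b - S X (h n)) := by
    intro n
    have h1 : ∀ k, e * lam ^ n * (1 - lam ^ k) ≤ (1 - lam) * (H b - S X (h n)) := by
      intro k
      refine (hsum n k).trans ?_
      refine mul_le_mul_of_nonneg_left ?_ (by linarith)
      have : S X (h (n + k)) ≤ H b :=
        S_le ⟨x0, hx0⟩ fun x hx => (hle x hx _).trans (hbmax x hx)
      linarith
    have h2 : Tendsto (fun k : ℕ => e * lam ^ n * (1 - lam ^ k)) atTop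
        (𝓝 (e * lam ^ n * (1 - 0))) :=
      (tendsto_const_nhds.sub
        (tendsto_pow_atTop_nhds_zero_of_lt_one hl0.le (by linarith))).const_mul _
    rw [sub_zero, mul_one] at h2
    exact le_of_tendsto' h2 h1
  have hgb : ∀ n, η / 2 ≤ g n b := by
    intro n
    have h1 := hlow n
    have h2 := htail b hbX (n + 1)
    have h3 : h (n + 1) b = h n b + lam ^ n * g n b := by rw [hsucc]; rfl
    have h4 := le_S hX (hh n).1 hbX
    have h4' := mul_le_mul_of_nonneg_left h4 (show 0 ≤ 1 - lam by linarith)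
    have h5 : e * lam ^ n - K * lam ^ (n + 1) ≤ (1 - lam) * (lam ^ n * g n b) := by
      rw [h3, mul_add] at h2
      rw [mul_sub] at h1
      linarith
    have hp : 0 < lam ^ n := by positivity
    have h6 : lam ^ n * (e - K * lam) ≤ lam ^ n * ((1 - lam) * g n b) := by
      calc lam ^ n * (e - K * lam) = e * lam ^ n - K * lam ^ (n + 1) := by ring
        _ ≤ (1 - lam) * (lam ^ n * g n b) := h5
        _ = _ := by ring
    have h7 := le_of_mul_le_mul_left h6 hp
    have h8 := ((hgG n).2.2 b hbX).1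
    have h9 : 0 ≤ lam * g n b := by positivity
    have h10 : δ * lam ≤ δ * (1 / 2) := mul_le_mul_of_nonneg_left hl1 hδ0.le
    have h11 : e = η - δ - δ * lam := by rw [he]; ring
    rw [h11, hδ] at h7
    rw [hδ] at h10
    linarith
  have h1 := (hlim b hb).eventually (gt_mem_nhds (show (0 : ℝ) < η / 4 by positivity))
  obtain ⟨N, hN⟩ := eventually_atTop.1 h1
  have h2 := C_le (fun p hp => (hN p hp).le) (g N) (hgC N)
  have h3 := hgb N
  linarith

end Simons

open Simons in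
theorem L_a {X : Set V} (hX : IsCompact X) (hc : Convex ℝ X) {G : ℕ → V → ℝ} {K : ℝ}
    (hG : ∀ n, ContinuousOn (G n) X) (hconv : ∀ n, ConvexOn ℝ X (G n))
    (h0 : ∀ n, ∀ x ∈ X, 0 ≤ G n x ∧ G n x ≤ K)
    (hlim : ∀ y ∈ X.extremePoints ℝ, Tendsto (fun n => G n y) atTop (𝓝 0))
    (N0 : ℕ) {η : ℝ} (hη : 0 < η) :
    ∃ (s : Finset ℕ) (w : ℕ → ℝ), (∀ n ∈ s, N0 ≤ n) ∧ (∀ n ∈ s, 0 ≤ w n) ∧ ∑ n ∈ s, w n = 1 ∧
      ∀ x ∈ X, ∑ n ∈ s, w n * G n x ≤ η := by
  rcases X.eq_empty_or_nonempty with rfl | hne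
  · exact ⟨{N0}, fun _ => 1, by simp, by simp, by simp, by simp⟩
  obtain ⟨g, hg, hgη⟩ := key hX hne (G := fun n => G (N0 + n)) (K := K)
    (fun n => ⟨hG _, hconv _, h0 _⟩)
    (fun y hy => (hlim y hy).comp
      (tendsto_atTop_mono (fun n => Nat.le_add_left n N0) tendsto_id)) hη
  have hg' : g ∈ C G N0 := by
    refine convexHull_mono ?_ hg
    rintro _ ⟨n, _, rfl⟩
    exact ⟨N0 + n, Nat.le_add_right _ _, rfl⟩
  obtain ⟨s, w, h1, h2, h3, h4⟩ := C_rep hg'
  exact ⟨s, w, h1, h2, h3, fun x hx => by rw [← h4]; exact hgη x hx⟩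

open Simons in
theorem L_b {X : Set V} (hX : IsCompact X) (hc : Convex ℝ X) {G : ℕ → V → ℝ} {K : ℝ}
    (hG : ∀ n, ContinuousOn (G n) X) (hconv : ∀ n, ConvexOn ℝ X (G n))
    (h0 : ∀ n, ∀ x ∈ X, 0 ≤ G n x ∧ G n x ≤ K)
    (hlim : ∀ y ∈ X.extremePoints ℝ, Tendsto (fun n => G n y) atTop (𝓝 0)) :
    ∀ x ∈ X, Tendsto (fun n => G n x) atTop (𝓝 0) := by
  intro x hx
  by_contra hnot
  have h1 : ∃ δ > 0, ∀ N, ∃ n, N ≤ n ∧ δ ≤ G n x := by
    by_contra h2
    push Not at h2
    apply hnot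
    rw [Metric.tendsto_atTop]
    intro ε hε
    obtain ⟨N, hN⟩ := h2 ε hε
    refine ⟨N, fun n hn => ?_⟩
    rw [Real.dist_eq, sub_zero, abs_of_nonneg (h0 n x hx).1]
    exact hN n hn
  obtain ⟨δ, hδ, hδ'⟩ := h1
  obtain ⟨φ, hφ, hφ'⟩ := extraction_of_frequently_atTop
    (frequently_atTop.2 fun N => by obtain ⟨n, h1, h2⟩ := hδ' N; exact ⟨n, h1, h2⟩)
  obtain ⟨s, w, -, h3, h4, h5⟩ := L_a hX hc (G := fun n => G (φ n)) (K := K)
    (fun n => hG _) (fun n => hconv _) (fun n => h0 _)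
    (fun y hy => (hlim y hy).comp hφ.tendsto_atTop) 0 (show 0 < δ / 2 by positivity)
  have h6 := h5 x hx
  have h7 : δ ≤ ∑ n ∈ s, w n * G (φ n) x := by
    calc δ = ∑ n ∈ s, w n * δ := by rw [← Finset.sum_mul, h4, one_mul]
      _ ≤ _ := Finset.sum_le_sum fun n hn => mul_le_mul_of_nonneg_left (hφ' n) (h3 n hn)
  linarith

end C64
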