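import Pool.Agent.R197.C64.Semi

/-!
# MP_c64b61_an, module M5: countable partitions (Claim 1)
-/
open Set Filter Topology MeasureTheory

set_option linter.unusedSectionVars false

namespace C64

section part

variable {𝕜 : Type*} [RCLike 𝕜]
  {V : Type*} [AddCommGroup V] [Module 𝕜 V] [TopologicalSpace V]
  {F : Type*} [AddCommGroup F] [Module ℝ F] [Module 𝕜 F] [IsScalarTower ℝ 𝕜 F] [UniformSpace F]
  [IsUniformAddGroup F] [ContinuousSMul 𝕜 F] [ContinuousSMul ℝ F] [LocallyConvexSpace ℝ F]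
  [T2Space F] [CompleteSpace F]

/-- Continuous, homogeneous, bounded maps on the set `E`. -/
structure VGood (E : Set V) (Γ : Set 𝕜) (q : ℕ → Seminorm 𝕜 F) (r : V → F) : Prop where
  cont : ContinuousOn r E
  hom : ∀ α ∈ Γ, ∀ y ∈ E, r (α • y) = α • r y
  bdd : ∀ k, ∃ C : ℝ, ∀ y ∈ E, q k (r y) ≤ C

/-- The output of Claim 1. -/
structure VPart (E : Set V) (Γ : Set 𝕜) (q : ℕ → Seminorm 𝕜 F) (r : V → F) (j : ℕ) (ε : ℝ)
    (ψ : ℕ → V → 𝕜) (w : ℕ → F) (g : V → F) : Prop where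
  cont : ∀ i, ContinuousOn (ψ i) E
  hom : ∀ i, ∀ α ∈ Γ, ∀ y ∈ E, ψ i (α • y) = α * ψ i y
  sum : ∀ y ∈ E, HasSum (fun i => ‖ψ i y‖) 1
  val : ∀ i, ∃ y ∈ E, ∀ k, q k (w i) = q k (r y)
  lim : ∀ y ∈ E, Tendsto (fun n => ∑ i ∈ Finset.range n, ψ i y • w i) atTop (𝓝 (g y))
  close : ∀ y ∈ E, q j (r y - g y) ≤ ε
  good : VGood E Γ q g

variable {E : Set V} {Γ : Set 𝕜} {q : ℕ → Seminorm 𝕜 F}

lemma sn_sum {ι : Type*} (p : Seminorm 𝕜 F) (s : Finset ι) (v : ι → F) :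
    p (∑ i ∈ s, v i) ≤ ∑ i ∈ s, p (v i) :=
  Finset.le_sum_of_subadditive p (map_zero p).le (map_add_le_add p) s v

/-- The tail estimate. -/
lemma tail_est (hqc : ∀ n, Continuous (q n)) {ψ : ℕ → 𝕜} {w : ℕ → F} {g : F}
    (hs : HasSum (fun i => ‖ψ i‖) 1) {k : ℕ} {C : ℝ} (hC : ∀ i, q k (w i) ≤ C)
    (hl : Tendsto (fun n => ∑ i ∈ Finset.range n, ψ i • w i) atTop (𝓝 g)) (n : ℕ) :
    q k (g - ∑ i ∈ Finset.range n, ψ i • w i) ≤ C * (1 - ∑ i ∈ Finset.range n, ‖ψ i‖) := by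
  have hC0 : 0 ≤ C := (apply_nonneg _ _).trans (hC 0)
  have h1 : Tendsto (fun m => q k ((∑ i ∈ Finset.range m, ψ i • w i) -
      ∑ i ∈ Finset.range n, ψ i • w i)) atTop
      (𝓝 (q k (g - ∑ i ∈ Finset.range n, ψ i • w i))) :=
    ((hqc k).tendsto _).comp (hl.sub_const _)
  refine le_of_tendsto h1 ?_
  filter_upwards [eventually_ge_atTop n] with m hm
  rw [← Finset.sum_range_add_sum_Ico _ hm, add_sub_cancel_left]
  calc q k (∑ i ∈ Finset.Ico n m, ψ i • w i)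
      ≤ ∑ i ∈ Finset.Ico n m, q k (ψ i • w i) := sn_sum _ _ _
    _ ≤ ∑ i ∈ Finset.Ico n m, C * ‖ψ i‖ := by
        refine Finset.sum_le_sum fun i _ => ?_
        rw [map_smul_eq_mul, mul_comm]
        exact mul_le_mul_of_nonneg_right (hC i) (norm_nonneg _)
    _ = C * ∑ i ∈ Finset.Ico n m, ‖ψ i‖ := by rw [Finset.mul_sum]
    _ ≤ C * (1 - ∑ i ∈ Finset.range n, ‖ψ i‖) := by
        apply mul_le_mul_of_nonneg_left _ hC0
        have h2 : ∑ i ∈ Finset.range m, ‖ψ i‖ ≤ 1 :=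
          sum_le_hasSum _ (fun i _ => norm_nonneg _) hs
        rw [← Finset.sum_range_add_sum_Ico _ hm] at h2
        linarith

/-- The limit of the partial sums. -/
lemma exists_g (hq : SN q) {ψ : ℕ → 𝕜} {w : ℕ → F}
    (hs : HasSum (fun i => ‖ψ i‖) 1) (hC : ∀ k, ∃ C : ℝ, ∀ i, q k (w i) ≤ C) :
    ∃ g, Tendsto (fun n => ∑ i ∈ Finset.range n, ψ i • w i) atTop (𝓝 g) := by
  have key : ∀ j, ∀ C : ℝ, (∀ i, q j (w i) ≤ C) → ∀ n m, n ≤ m →
      q j ((∑ i ∈ Finset.range m, ψ i • w i) - ∑ i ∈ Finset.range n, ψ i • w i) ≤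
        C * (1 - ∑ i ∈ Finset.range n, ‖ψ i‖) := by
    intro j C hCj n m hm
    have hC0 : 0 ≤ C := (apply_nonneg _ _).trans (hCj 0)
    rw [← Finset.sum_range_add_sum_Ico _ hm, add_sub_cancel_left]
    calc q j (∑ i ∈ Finset.Ico n m, ψ i • w i)
        ≤ ∑ i ∈ Finset.Ico n m, q j (ψ i • w i) := sn_sum _ _ _
      _ ≤ ∑ i ∈ Finset.Ico n m, C * ‖ψ i‖ := by
          refine Finset.sum_le_sum fun i _ => ?_
          rw [map_smul_eq_mul, mul_comm]
          exact mul_le_mul_of_nonneg_right (hCj i) (norm_nonneg _)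
      _ = C * ∑ i ∈ Finset.Ico n m, ‖ψ i‖ := by rw [Finset.mul_sum]
      _ ≤ C * (1 - ∑ i ∈ Finset.range n, ‖ψ i‖) := by
          apply mul_le_mul_of_nonneg_left _ hC0
          have h2 : ∑ i ∈ Finset.range m, ‖ψ i‖ ≤ 1 :=
            sum_le_hasSum _ (fun i _ => norm_nonneg _) hs
          rw [← Finset.sum_range_add_sum_Ico _ hm] at h2
          linarith
  apply hq.exists_limit
  intro j δ hδ
  obtain ⟨C, hCj⟩ := hC j
  have h1 : Tendsto (fun n => C * (1 - ∑ i ∈ Finset.range n, ‖ψ i‖)) atTop (𝓝 0) := by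
    have := (hs.tendsto_sum_nat.const_sub 1).const_mul C
    simpa using this
  obtain ⟨N, hN⟩ := ((h1.eventually_lt_const hδ)).exists_forall_of_atTop
  refine ⟨N, fun m hm n hn => ?_⟩
  rcases le_total n m with h | h
  · exact (key j C hCj n m h).trans_lt (hN n hn)
  · rw [← map_neg_eq_map, neg_sub]
    exact (key j C hCj m n h).trans_lt (hN m hm)

/-- Claim 1. -/
lemma claim1 (hq : SN q) (hE : E.Nonempty) (hL : IsLindelof E)
    (hΓ : ∀ α ∈ Γ, ‖α‖ = 1) (hst : ∀ α ∈ Γ, ∀ y ∈ E, α • y ∈ E)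
    (hP : ∀ y₀ ∈ E, ∃ σ : V → 𝕜, ContinuousOn σ E ∧
      (∀ α ∈ Γ, ∀ y ∈ E, σ (α • y) = α * σ y) ∧ (∀ y ∈ E, ‖σ y‖ ≤ 1) ∧ σ y₀ ≠ 0)
    {r : V → F} (hr : VGood E Γ q r) (j : ℕ) {ε : ℝ} (hε : 0 < ε) :
    ∃ (ψ : ℕ → V → 𝕜) (w : ℕ → F) (g : V → F), VPart E Γ q r j ε ψ w g := by
  classical
  have hne : Nonempty E := hE.to_subtype
  choose σ hσc hσh hσb hσ0 using fun y₀ : E => hP y₀.1 y₀.2
  let v : E → F := fun y₀ => (σ y₀ y₀)⁻¹ • ((‖σ y₀ y₀‖ : ℝ) : 𝕜) • r y₀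
  let u : E → V → ℝ := fun y₀ y =>
    max 0 (ε * ‖σ y₀ y‖ - q j (((‖σ y₀ y‖ : ℝ) : 𝕜) • r y - σ y₀ y • v y₀))
  have hv : ∀ y₀ k, q k (v y₀) = q k (r y₀) := by
    intro y₀ k
    have h0 : ‖σ y₀ y₀‖ ≠ 0 := norm_ne_zero_iff.2 (hσ0 y₀)
    change q k ((σ y₀ y₀)⁻¹ • ((‖σ y₀ y₀‖ : ℝ) : 𝕜) • r y₀) = _
    rw [map_smul_eq_mul, map_smul_eq_mul, norm_inv, RCLike.norm_ofReal, abs_norm, ← mul_assoc,
      inv_mul_cancel₀ h0, one_mul]
  have huc : ∀ y₀, ContinuousOn (u y₀) E := by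
    intro y₀
    have h1 : ContinuousOn (fun y => ‖σ y₀ y‖) E := (hσc y₀).norm
    have h2 : ContinuousOn (fun y => ((‖σ y₀ y‖ : ℝ) : 𝕜) • r y - σ y₀ y • v y₀) E :=
      ((RCLike.continuous_ofReal.comp_continuousOn h1).smul hr.cont).sub
        ((hσc y₀).smul continuousOn_const)
    have h3 : ContinuousOn (fun y => ε * ‖σ y₀ y‖ -
        q j (((‖σ y₀ y‖ : ℝ) : 𝕜) • r y - σ y₀ y • v y₀)) E :=
      (continuousOn_const.mul h1).sub ((hq.cont j).comp_continuousOn h2)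
    exact (continuous_const.max continuous_id).comp_continuousOn h3
  have hu00 : ∀ y₀ y, 0 ≤ u y₀ y := fun y₀ y => le_max_left _ _
  have hu0 : ∀ y₀ : E, 0 < u y₀ y₀ := by
    intro y₀
    have h1 : ((‖σ y₀ y₀‖ : ℝ) : 𝕜) • r y₀ - σ y₀ y₀ • v y₀ = 0 := by
      change _ - σ y₀ y₀ • ((σ y₀ y₀)⁻¹ • ((‖σ y₀ y₀‖ : ℝ) : 𝕜) • r y₀) = 0
      rw [smul_inv_smul₀ (hσ0 y₀), sub_self]
    change 0 < max 0 (ε * ‖σ y₀ y₀‖ - q j (((‖σ y₀ y₀‖ : ℝ) : 𝕜) • r y₀ - σ y₀ y₀ • v y₀))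
    rw [h1, map_zero, sub_zero]
    exact lt_max_of_lt_right (mul_pos hε (norm_pos_iff.2 (hσ0 y₀)))
  have hule : ∀ y₀ y, u y₀ y ≤ ε * ‖σ y₀ y‖ := by
    intro y₀ y
    apply max_le (by positivity)
    have := apply_nonneg (q j) (((‖σ y₀ y‖ : ℝ) : 𝕜) • r y - σ y₀ y • v y₀)
    linarith
  have hule' : ∀ y₀, ∀ y ∈ E, u y₀ y ≤ ε := by
    intro y₀ y hy
    refine (hule y₀ y).trans ?_
    have := hσb y₀ y hy
    nlinarith
  have huh : ∀ y₀, ∀ α ∈ Γ, ∀ y ∈ E, u y₀ (α • y) = u y₀ y := by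
    intro y₀ α hα y hy
    change max 0 (ε * ‖σ y₀ (α • y)‖ - q j (((‖σ y₀ (α • y)‖ : ℝ) : 𝕜) • r (α • y) -
      σ y₀ (α • y) • v y₀)) = _
    rw [hσh y₀ α hα y hy, hr.hom α hα y hy, norm_mul, hΓ α hα, one_mul, mul_smul, smul_comm _ α,
      ← smul_sub, map_smul_eq_mul, hΓ α hα, one_mul]
  -- the countable cover
  choose O hO hO' using fun y₀ : E => continuousOn_iff'.1 (huc y₀) (Ioi 0) isOpen_Ioi
  obtain ⟨e, he⟩ := hL.indexed_countable_subcover O hO (by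
    intro y hy
    refine mem_iUnion.2 ⟨⟨y, hy⟩, ?_⟩
    have h1 : y ∈ u ⟨y, hy⟩ ⁻¹' Ioi 0 ∩ E := ⟨hu0 ⟨y, hy⟩, hy⟩
    rw [hO'] at h1
    exact h1.1)
  have hex : ∀ y ∈ E, ∃ n, 0 < u (e n) y := by
    intro y hy
    obtain ⟨n, hn⟩ := mem_iUnion.1 (he hy)
    have h1 : y ∈ O (e n) ∩ E := ⟨hn, hy⟩
    rw [← hO'] at h1
    exact ⟨n, h1.1⟩
  -- weights
  let T : ℕ → V → ℝ := fun n y => (1 / 2 : ℝ) ^ n * u (e n) y * ‖σ (e n) y‖
  let U : V → ℝ := fun y => ∑' n, T n y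
  have hT0 : ∀ n y, 0 ≤ T n y := fun n y => by
    have := hu00 (e n) y
    positivity
  have hTle : ∀ n, ∀ y ∈ E, ‖T n y‖ ≤ (1 / 2 : ℝ) ^ n * ε := by
    intro n y hy
    rw [Real.norm_of_nonneg (hT0 n y)]
    have h1 := hule' (e n) y hy
    have h2 := hσb (e n) y hy
    have h3 := hu00 (e n) y
    change (1 / 2 : ℝ) ^ n * u (e n) y * ‖σ (e n) y‖ ≤ _
    rw [mul_assoc]
    apply mul_le_mul_of_nonneg_left _ (by positivity)
    nlinarith [norm_nonneg (σ (e n) y)]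
  have hsum : Summable fun n : ℕ => (1 / 2 : ℝ) ^ n * ε :=
    (summable_geometric_of_lt_one (by norm_num) (by norm_num)).mul_right ε
  have hTs : ∀ y ∈ E, Summable fun n => T n y := fun y hy =>
    Summable.of_norm_bounded hsum (fun n => hTle n y hy)
  have hUc : ContinuousOn U E := by
    apply continuousOn_tsum (u := fun n : ℕ => (1 / 2 : ℝ) ^ n * ε) _ hsum
    · intro n y hy
      exact hTle n y hy
    · intro n
      exact (continuousOn_const.mul (huc (e n))).mul (hσc (e n)).norm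
  have hσne : ∀ n y, 0 < u (e n) y → σ (e n) y ≠ 0 := by
    intro n y h h0
    have := hule (e n) y
    rw [h0, norm_zero, mul_zero] at this
    linarith
  have hU0 : ∀ y ∈ E, 0 < U y := by
    intro y hy
    obtain ⟨n, hn⟩ := hex y hy
    have h1 : 0 < T n y := by
      have := norm_pos_iff.2 (hσne n y hn)
      change 0 < (1 / 2 : ℝ) ^ n * u (e n) y * ‖σ (e n) y‖
      positivity
    exact (hTs y hy).tsum_pos (fun n => hT0 n y) n h1
  have hTh : ∀ n, ∀ α ∈ Γ, ∀ y ∈ E, T n (α • y) = T n y := by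
    intro n α hα y hy
    change (1 / 2 : ℝ) ^ n * u (e n) (α • y) * ‖σ (e n) (α • y)‖ = _
    rw [huh (e n) α hα y hy, hσh (e n) α hα y hy, norm_mul, hΓ α hα, one_mul]
  have hUh : ∀ α ∈ Γ, ∀ y ∈ E, U (α • y) = U y := by
    intro α hα y hy
    exact tsum_congr fun n => hTh n α hα y hy
  let c : ℕ → V → ℝ := fun n y => (1 / 2 : ℝ) ^ n * u (e n) y / U y
  let ψ : ℕ → V → 𝕜 := fun n y => ((c n y : ℝ) : 𝕜) * σ (e n) y
  have hc0 : ∀ n, ∀ y ∈ E, 0 ≤ c n y := by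
    intro n y hy
    have h1 := hu00 (e n) y
    have h2 := hU0 y hy
    change 0 ≤ (1 / 2 : ℝ) ^ n * u (e n) y / U y
    positivity
  have hψn : ∀ n, ∀ y ∈ E, ‖ψ n y‖ = c n y * ‖σ (e n) y‖ := by
    intro n y hy
    change ‖((c n y : ℝ) : 𝕜) * σ (e n) y‖ = _
    rw [norm_mul, RCLike.norm_ofReal, abs_of_nonneg (hc0 n y hy)]
  have hψs : ∀ y ∈ E, HasSum (fun i => ‖ψ i y‖) 1 := by
    intro y hy
    have h1 := (hTs y hy).hasSum.div_const (U y)
    have h2 : (∑' n, T n y) / U y = 1 := div_self (hU0 y hy).ne'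
    rw [h2] at h1
    refine h1.congr_fun ?_ |> fun h => h
    intro n
    rw [hψn n y hy]
    change (1 / 2 : ℝ) ^ n * u (e n) y / U y * ‖σ (e n) y‖ =
      (1 / 2 : ℝ) ^ n * u (e n) y * ‖σ (e n) y‖ / U y
    ring
  have hbw : ∀ k, ∃ C : ℝ, ∀ i, q k (v (e i)) ≤ C := by
    intro k
    obtain ⟨C, hC⟩ := hr.bdd k
    exact ⟨C, fun i => by rw [hv]; exact hC _ (e i).2⟩
  have hg : ∀ y, ∃ g : F, y ∈ E →
      Tendsto (fun n => ∑ i ∈ Finset.range n, ψ i y • v (e i)) atTop (𝓝 g) := by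
    intro y
    by_cases hy : y ∈ E
    · obtain ⟨g, hg⟩ := exists_g hq (hψs y hy) hbw
      exact ⟨g, fun _ => hg⟩
    · exact ⟨0, fun h => absurd h hy⟩
  choose g hg using hg
  have hψc : ∀ i, ContinuousOn (ψ i) E := by
    intro i
    have h1 : ContinuousOn (c i) E :=
      (continuousOn_const.mul (huc (e i))).div hUc (fun y hy => (hU0 y hy).ne')
    exact (RCLike.continuous_ofReal.comp_continuousOn h1).mul (hσc (e i))
  have hψh : ∀ i, ∀ α ∈ Γ, ∀ y ∈ E, ψ i (α • y) = α * ψ i y := by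
    intro i α hα y hy
    change (((1 / 2 : ℝ) ^ i * u (e i) (α • y) / U (α • y) : ℝ) : 𝕜) * σ (e i) (α • y) =
      α * ((((1 / 2 : ℝ) ^ i * u (e i) y / U y : ℝ) : 𝕜) * σ (e i) y)
    rw [huh (e i) α hα y hy, hUh α hα y hy, hσh (e i) α hα y hy]
    ring
  refine ⟨ψ, fun i => v (e i), g, hψc, hψh, hψs, fun i => ⟨e i, (e i).2, fun k => hv _ k⟩,
    fun y hy => hg y hy, ?_, ?_, ?_, ?_⟩
  · -- closeness
    intro y hy
    obtain ⟨C, hC⟩ := hr.bdd j
    have hterm : ∀ i, q j (((‖ψ i y‖ : ℝ) : 𝕜) • r y - ψ i y • v (e i)) ≤ ε * ‖ψ i y‖ := by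
      intro i
      have h1 : ((‖ψ i y‖ : ℝ) : 𝕜) • r y - ψ i y • v (e i) =
          ((c i y : ℝ) : 𝕜) • (((‖σ (e i) y‖ : ℝ) : 𝕜) • r y - σ (e i) y • v (e i)) := by
        have e1 : ψ i y = ((c i y : ℝ) : 𝕜) * σ (e i) y := rfl
        rw [hψn i y hy, e1, smul_sub, RCLike.ofReal_mul, mul_smul, mul_smul]
      rw [h1, map_smul_eq_mul, RCLike.norm_ofReal, abs_of_nonneg (hc0 i y hy), hψn i y hy]
      rcases (hu00 (e i) y).eq_or_lt with h2 | h2
      · have h3 : c i y = 0 := by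
          change (1 / 2 : ℝ) ^ i * u (e i) y / U y = 0
          rw [← h2, mul_zero, zero_div]
        rw [h3]
        simp
      · have h3 : q j (((‖σ (e i) y‖ : ℝ) : 𝕜) • r y - σ (e i) y • v (e i)) ≤
            ε * ‖σ (e i) y‖ := by
          have h4 : 0 < max 0 (ε * ‖σ (e i) y‖ -
            q j (((‖σ (e i) y‖ : ℝ) : 𝕜) • r y - σ (e i) y • v (e i))) := h2
          rw [lt_max_iff] at h4
          rcases h4 with h4 | h4
          · exact absurd h4 (lt_irrefl _)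
          · linarith
        calc c i y * q j (((‖σ (e i) y‖ : ℝ) : 𝕜) • r y - σ (e i) y • v (e i))
            ≤ c i y * (ε * ‖σ (e i) y‖) := mul_le_mul_of_nonneg_left h3 (hc0 i y hy)
          _ = ε * (c i y * ‖σ (e i) y‖) := by ring
    have h1 : Tendsto (fun n => q j (r y - ∑ i ∈ Finset.range n, ψ i y • v (e i))) atTop
        (𝓝 (q j (r y - g y))) :=
      ((hq.cont j).tendsto _).comp ((hg y hy).const_sub _)
    have h2 : Tendsto (fun n => ε + (1 - ∑ i ∈ Finset.range n, ‖ψ i y‖) * C) atTop (𝓝 ε) := by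
      have := (((hψs y hy).tendsto_sum_nat.const_sub 1).mul_const C).const_add ε
      simpa using this
    refine le_of_tendsto_of_tendsto' h1 h2 fun n => ?_
    have hle1 : ∑ i ∈ Finset.range n, ‖ψ i y‖ ≤ 1 :=
      sum_le_hasSum _ (fun i _ => norm_nonneg _) (hψs y hy)
    have h3 : r y - ∑ i ∈ Finset.range n, ψ i y • v (e i) =
        (∑ i ∈ Finset.range n, (((‖ψ i y‖ : ℝ) : 𝕜) • r y - ψ i y • v (e i))) +
        (((1 - ∑ i ∈ Finset.range n, ‖ψ i y‖ : ℝ)) : 𝕜) • r y := by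
      rw [Finset.sum_sub_distrib, ← Finset.sum_smul, RCLike.ofReal_sub, RCLike.ofReal_one,
        RCLike.ofReal_sum, sub_smul, one_smul]
      abel
    rw [h3]
    refine (map_add_le_add _ _ _).trans (add_le_add ?_ ?_)
    · refine (sn_sum _ _ _).trans ?_
      calc ∑ i ∈ Finset.range n, q j (((‖ψ i y‖ : ℝ) : 𝕜) • r y - ψ i y • v (e i))
          ≤ ∑ i ∈ Finset.range n, ε * ‖ψ i y‖ := Finset.sum_le_sum fun i _ => hterm i
        _ = ε * ∑ i ∈ Finset.range n, ‖ψ i y‖ := by rw [Finset.mul_sum]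
        _ ≤ ε := by nlinarith
    · rw [map_smul_eq_mul, RCLike.norm_ofReal, abs_of_nonneg (by linarith)]
      exact mul_le_mul_of_nonneg_left (hC y hy) (by linarith)
  · -- continuity
    intro y hy
    rw [hq.continuousWithinAt_iff]
    intro k δ hδ
    obtain ⟨C, hC⟩ := hbw k
    have hC0 : 0 ≤ C := (apply_nonneg _ _).trans (hC 0)
    set η := δ / (4 * (C + 1)) with hη
    have hη0 : 0 < η := by positivity
    have hηC : 3 * (C * η) ≤ 3 / 4 * δ := by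
      have : C * η ≤ δ / 4 := by
        rw [hη, mul_div_assoc', div_le_div_iff₀ (by positivity) (by norm_num)]
        nlinarith
      linarith
    have h1 : Tendsto (fun n => 1 - ∑ i ∈ Finset.range n, ‖ψ i y‖) atTop (𝓝 0) := by
      have := (hψs y hy).tendsto_sum_nat.const_sub 1
      simpa using this
    obtain ⟨n, hn⟩ := (h1.eventually_lt_const hη0).exists
    have h2 : ContinuousWithinAt (fun z => 1 - ∑ i ∈ Finset.range n, ‖ψ i z‖) E y :=
      (ContinuousOn.sub continuousOn_const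
        (continuousOn_finsetSum _ fun i _ => (hψc i).norm)) y hy
    have h3 : ContinuousWithinAt (fun z => ∑ i ∈ Finset.range n, ψ i z • v (e i)) E y :=
      (continuousOn_finsetSum _ fun i _ => (hψc i).smul continuousOn_const) y hy
    have h4 := h2.tendsto.eventually_lt_const (show _ < 2 * η by linarith)
    have h5 := (hq.continuousWithinAt_iff.1 h3) k (δ / 4) (by positivity)
    filter_upwards [h4, h5, self_mem_nhdsWithin] with z hz1 hz2 hz3
    have e1 := tail_est hq.cont (hψs y hy) (hC) (hg y hy) n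
    have e2 := tail_est hq.cont (hψs z hz3) (hC) (hg z hz3) n
    have h6 : g z - g y = (g z - ∑ i ∈ Finset.range n, ψ i z • v (e i)) +
        ((∑ i ∈ Finset.range n, ψ i z • v (e i)) - ∑ i ∈ Finset.range n, ψ i y • v (e i)) -
        (g y - ∑ i ∈ Finset.range n, ψ i y • v (e i)) := by abel
    rw [h6]
    refine (map_sub_le_add _ _ _).trans_lt ?_
    have h7 := map_add_le_add (q k) (g z - ∑ i ∈ Finset.range n, ψ i z • v (e i))
      ((∑ i ∈ Finset.range n, ψ i z • v (e i)) - ∑ i ∈ Finset.range n, ψ i y • v (e i))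
    have e3 : C * (1 - ∑ i ∈ Finset.range n, ‖ψ i y‖) ≤ C * η :=
      mul_le_mul_of_nonneg_left hn.le hC0
    have e4 : C * (1 - ∑ i ∈ Finset.range n, ‖ψ i z‖) ≤ C * (2 * η) :=
      mul_le_mul_of_nonneg_left hz1.le hC0
    linarith
  · -- homogeneity
    intro α hα y hy
    have h1 := hg (α • y) (hst α hα y hy)
    have h2 : (fun n => ∑ i ∈ Finset.range n, ψ i (α • y) • v (e i)) =
        fun n => α • ∑ i ∈ Finset.range n, ψ i y • v (e i) := by
      funext n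
      rw [Finset.smul_sum]
      refine Finset.sum_congr rfl fun i _ => ?_
      rw [hψh i α hα y hy, mul_smul]
    rw [h2] at h1
    exact tendsto_nhds_unique h1 ((hg y hy).const_smul α)
  · intro k
    obtain ⟨C, hC⟩ := hbw k
    refine ⟨C, fun y hy => ?_⟩
    have hC0 : 0 ≤ C := (apply_nonneg _ _).trans (hC 0)
    have h1 : Tendsto (fun n => q k (∑ i ∈ Finset.range n, ψ i y • v (e i))) atTop
        (𝓝 (q k (g y))) := ((hq.cont k).tendsto _).comp (hg y hy)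
    refine le_of_tendsto' h1 fun n => ?_
    have hle1 : ∑ i ∈ Finset.range n, ‖ψ i y‖ ≤ 1 :=
      sum_le_hasSum _ (fun i _ => norm_nonneg _) (hψs y hy)
    refine (sn_sum _ _ _).trans ?_
    calc ∑ i ∈ Finset.range n, q k (ψ i y • v (e i))
        ≤ ∑ i ∈ Finset.range n, C * ‖ψ i y‖ := by
          refine Finset.sum_le_sum fun i _ => ?_
          rw [map_smul_eq_mul, mul_comm]
          exact mul_le_mul_of_nonneg_right (hC i) (norm_nonneg _)
      _ = C * ∑ i ∈ Finset.range n, ‖ψ i y‖ := by rw [Finset.mul_sum]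
      _ ≤ C := by nlinarith

end part

end C64
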