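import Pool.Agent.R197.C64.Vec1
import Pool.Agent.R197.C64.Simons

/-!
# MP_c64b61_an, module M5: simultaneous approximation (Claim 3)
-/
open Set Filter Topology MeasureTheory

set_option linter.unusedSectionVars false

namespace C64

section aff

variable {𝕜 : Type*} [RCLike 𝕜] {V : Type*} [AddCommGroup V] [Module ℝ V] [TopologicalSpace V]
  {F : Type*} [AddCommGroup F] [Module ℝ F] [Module 𝕜 F] [IsScalarTower ℝ 𝕜 F]
  [TopologicalSpace F] [IsTopologicalAddGroup F] [ContinuousSMul 𝕜 F] [ContinuousSMul ℝ F]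
  {X : Set V}

lemma A0.smul_const {h : V → F} (hh : A0 X h) (c : ℝ) : A0 X (fun x => c • h x) := by
  refine ⟨hh.1.const_smul c, ?_⟩
  intro x hx y hy t ht
  change c • h (t • x + (1 - t) • y) = t • c • h x + (1 - t) • c • h y
  rw [hh.2 x hx y hy t ht, smul_add, smul_comm c t, smul_comm c (1 - t)]

lemma A0.sum {ι : Type*} (s : Finset ι) {h : ι → V → F} (hh : ∀ i ∈ s, A0 X (h i)) :
    A0 X (fun x => ∑ i ∈ s, h i x) := by
  refine ⟨continuousOn_finsetSum _ fun i hi => (hh i hi).1, ?_⟩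
  intro x hx y hy t ht
  change ∑ i ∈ s, h i (t • x + (1 - t) • y) = t • (∑ i ∈ s, h i x) + (1 - t) • ∑ i ∈ s, h i y
  rw [Finset.smul_sum, Finset.smul_sum, ← Finset.sum_add_distrib]
  exact Finset.sum_congr rfl fun i hi => (hh i hi).2 x hx y hy t ht

lemma A0.smul_vec {b : V → 𝕜} (hb : A0 X b) (w : F) : A0 X (fun x => b x • w) := by
  refine ⟨hb.1.smul continuousOn_const, ?_⟩
  intro x hx y hy t ht
  change b (t • x + (1 - t) • y) • w = t • b x • w + (1 - t) • b y • w
  rw [hb.2 x hx y hy t ht, add_smul, smul_assoc, smul_assoc]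

lemma sn_real (p : Seminorm 𝕜 F) {c : ℝ} (hc : 0 ≤ c) (v : F) : p (c • v) = c * p v := by
  have : c • v = (c : 𝕜) • v := by
    rw [RCLike.real_smul_eq_coe_smul (K := 𝕜)]
  rw [this, map_smul_eq_mul, RCLike.norm_ofReal, abs_of_nonneg hc]

lemma convexOn_sn (hc : Convex ℝ X) (p : Seminorm 𝕜 F) {h : V → F} (hh : IsAffOn X h) :
    ConvexOn ℝ X (fun x => p (h x)) := by
  refine ⟨hc, ?_⟩
  intro x hx y hy s t hs ht hst
  have ht' : t = 1 - s := by linarith
  subst ht'
  change p (h (s • x + (1 - s) • y)) ≤ s • p (h x) + (1 - s) • p (h y)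
  rw [hh x hx y hy s ⟨hs, by linarith⟩]
  refine (map_add_le_add _ _ _).trans ?_
  rw [sn_real p hs, sn_real p ht, smul_eq_mul, smul_eq_mul]

end aff

section claim3

variable {𝕜 : Type*} [RCLike 𝕜] {V : Type*} [AddCommGroup V] [Module ℝ V] [TopologicalSpace V]
  [IsTopologicalAddGroup V] [ContinuousSMul ℝ V] [LocallyConvexSpace ℝ V] [T2Space V]
  {X : Set V}

lemma convexOn_norm (hc : Convex ℝ X) {h : V → 𝕜} (hh : IsAffOn X h) :
    ConvexOn ℝ X (fun x => ‖h x‖) :=
  convexOn_sn hc (normSeminorm 𝕜 𝕜) hh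

/-- Claim 3. -/
lemma claim3 (hX : IsCompact X) (hc : Convex ℝ X) (ψ : ℕ → V → 𝕜) (a : ℕ → ℕ → V → 𝕜)
    (ha0 : ∀ i k, A0 X (a i k)) (ha2 : ∀ i k, ∀ x ∈ X, ‖a i k x‖ ≤ 2)
    (hal : ∀ i, ∀ y ∈ X.extremePoints ℝ, Tendsto (fun k => a i k y) atTop (𝓝 (ψ i y)))
    (hs : ∀ y ∈ X.extremePoints ℝ, HasSum (fun i => ‖ψ i y‖) 1) :
    ∃ b : ℕ → ℕ → V → 𝕜, (∀ N i, A0 X (b N i)) ∧
      (∀ N, ∀ x ∈ X, ∑ i ∈ Finset.range N, ‖b N i x‖ ≤ 2) ∧
      ∀ y ∈ X.extremePoints ℝ,
        Tendsto (fun N => ∑ i ∈ Finset.range N, ‖b N i y - ψ i y‖) atTop (𝓝 0) := by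
  let G : ℕ → ℕ → V → ℝ := fun N k x => max 0 ((∑ i ∈ Finset.range N, ‖a i k x‖) - 1)
  have hGc : ∀ N k, ContinuousOn (G N k) X := by
    intro N k
    have h1 : ContinuousOn (fun x => (∑ i ∈ Finset.range N, ‖a i k x‖) - 1) X :=
      (continuousOn_finsetSum _ fun i _ => (ha0 i k).1.norm).sub continuousOn_const
    exact (continuous_const.max continuous_id).comp_continuousOn h1
  have hGv : ∀ N k, ConvexOn ℝ X (G N k) := by
    intro N k
    have h1 : ConvexOn ℝ X (fun x => (∑ i ∈ Finset.range N, ‖a i k x‖) - 1) := by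
      have h2 : ConvexOn ℝ X (fun x => ∑ i ∈ Finset.range N, ‖a i k x‖) := by
        induction N with
        | zero => simpa using convexOn_const (0 : ℝ) hc
        | succ N ih =>
          simp only [Finset.sum_range_succ]
          exact ih.add (convexOn_norm hc (ha0 N k).2)
      have h3 := h2.add (convexOn_const (-1 : ℝ) hc)
      refine h3.congr ?_
      intro x _
      simp [sub_eq_add_neg]
    exact (convexOn_const (0 : ℝ) hc).sup h1
  have hG0 : ∀ N k, ∀ x ∈ X, 0 ≤ G N k x ∧ G N k x ≤ 2 * N := by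
    intro N k x hx
    refine ⟨le_max_left _ _, max_le (by positivity) ?_⟩
    have h1 : ∑ i ∈ Finset.range N, ‖a i k x‖ ≤ ∑ i ∈ Finset.range N, (2 : ℝ) :=
      Finset.sum_le_sum fun i _ => ha2 i k x hx
    rw [Finset.sum_const, Finset.card_range, nsmul_eq_mul] at h1
    linarith
  have hGl : ∀ N, ∀ y ∈ X.extremePoints ℝ, Tendsto (fun k => G N k y) atTop (𝓝 0) := by
    intro N y hy
    have h1 : Tendsto (fun k => (∑ i ∈ Finset.range N, ‖a i k y‖) - 1) atTop
        (𝓝 ((∑ i ∈ Finset.range N, ‖ψ i y‖) - 1)) :=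
      (tendsto_finsetSum _ fun i _ => (hal i y hy).norm).sub_const 1
    have h2 : Tendsto (fun k => G N k y) atTop
        (𝓝 (max 0 ((∑ i ∈ Finset.range N, ‖ψ i y‖) - 1))) := tendsto_const_nhds.max h1
    have h3 : ∑ i ∈ Finset.range N, ‖ψ i y‖ ≤ 1 :=
      sum_le_hasSum _ (fun i _ => norm_nonneg _) (hs y hy)
    rwa [max_eq_left (by linarith)] at h2
  choose s w hsN hw0 hw1 hwG using fun N : ℕ => L_a hX hc (hGc N) (hGv N) (hG0 N) (hGl N) N
    (show (0 : ℝ) < 1 / (N + 1) by positivity)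
  let b : ℕ → ℕ → V → 𝕜 := fun N i x => ∑ k ∈ s N, w N k • a i k x
  have hb0 : ∀ N i, A0 X (b N i) := fun N i => A0.sum _ fun k _ => (ha0 i k).smul_const _
  have hbn : ∀ N i, ∀ x, ‖b N i x‖ ≤ ∑ k ∈ s N, w N k * ‖a i k x‖ := by
    intro N i x
    refine (norm_sum_le _ _).trans (Finset.sum_le_sum fun k hk => ?_)
    rw [norm_smul, Real.norm_of_nonneg (hw0 N k hk)]
  have hb1 : ∀ N, ∀ x ∈ X, ∑ i ∈ Finset.range N, ‖b N i x‖ ≤ 1 + 1 / ((N : ℝ) + 1) := by
    intro N x hx
    calc ∑ i ∈ Finset.range N, ‖b N i x‖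
        ≤ ∑ i ∈ Finset.range N, ∑ k ∈ s N, w N k * ‖a i k x‖ :=
          Finset.sum_le_sum fun i _ => hbn N i x
      _ = ∑ k ∈ s N, w N k * ∑ i ∈ Finset.range N, ‖a i k x‖ := by
          rw [Finset.sum_comm]
          simp only [Finset.mul_sum]
      _ ≤ ∑ k ∈ s N, w N k * (1 + G N k x) := by
          refine Finset.sum_le_sum fun k hk => mul_le_mul_of_nonneg_left ?_ (hw0 N k hk)
          have : (∑ i ∈ Finset.range N, ‖a i k x‖) - 1 ≤ G N k x := le_max_right _ _
          linarith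
      _ = 1 + ∑ k ∈ s N, w N k * G N k x := by
          simp only [mul_add, mul_one, Finset.sum_add_distrib, hw1]
      _ ≤ 1 + 1 / ((N : ℝ) + 1) := by
          have := hwG N x hx
          linarith
  refine ⟨b, hb0, ?_, ?_⟩
  · intro N x hx
    refine (hb1 N x hx).trans ?_
    have : 1 / ((N : ℝ) + 1) ≤ 1 := by
      rw [div_le_one (by positivity)]
      have : (0 : ℝ) ≤ N := Nat.cast_nonneg N
      linarith
    linarith
  · intro y hy
    have hyX : y ∈ X := hy.1
    -- pointwise convergence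
    have hpt : ∀ i, Tendsto (fun N => b N i y) atTop (𝓝 (ψ i y)) := by
      intro i
      rw [Metric.tendsto_atTop]
      intro η hη
      obtain ⟨K0, hK0⟩ := Metric.tendsto_atTop.1 (hal i y hy) (η / 2) (by positivity)
      refine ⟨K0, fun N hN => ?_⟩
      rw [dist_eq_norm]
      have h1 : b N i y - ψ i y = ∑ k ∈ s N, w N k • (a i k y - ψ i y) := by
        change (∑ k ∈ s N, w N k • a i k y) - ψ i y = _
        simp only [smul_sub, Finset.sum_sub_distrib, ← Finset.sum_smul, hw1, one_smul]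
      rw [h1]
      calc ‖∑ k ∈ s N, w N k • (a i k y - ψ i y)‖
          ≤ ∑ k ∈ s N, ‖w N k • (a i k y - ψ i y)‖ := norm_sum_le _ _
        _ ≤ ∑ k ∈ s N, w N k * (η / 2) := by
            refine Finset.sum_le_sum fun k hk => ?_
            rw [norm_smul, Real.norm_of_nonneg (hw0 N k hk)]
            apply mul_le_mul_of_nonneg_left _ (hw0 N k hk)
            have := hK0 k (hN.trans (hsN N k hk))
            rw [dist_eq_norm] at this
            exact this.le
        _ = η / 2 := by rw [← Finset.sum_mul, hw1, one_mul]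
        _ < η := by linarith
    rw [Metric.tendsto_atTop]
    intro η hη
    have hη8 : 0 < η / 8 := by positivity
    -- choose `n`
    obtain ⟨n, hn⟩ := ((hs y hy).tendsto_sum_nat.eventually_const_lt
      (show 1 - η / 8 < 1 by linarith)).exists
    have h1 : Tendsto (fun N => ∑ i ∈ Finset.range n, ‖b N i y - ψ i y‖) atTop (𝓝 0) := by
      have : Tendsto (fun N => ∑ i ∈ Finset.range n, ‖b N i y - ψ i y‖) atTop
          (𝓝 (∑ i ∈ Finset.range n, (0 : ℝ))) := by
        refine tendsto_finsetSum _ fun i _ => ?_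
        have := ((hpt i).sub_const (ψ i y)).norm
        simpa using this
      simpa using this
    have h2 : Tendsto (fun N : ℕ => 1 / ((N : ℝ) + 1)) atTop (𝓝 0) :=
      tendsto_one_div_add_atTop_nhds_zero_nat
    obtain ⟨N0, hN0⟩ := ((h1.eventually_lt_const hη8).and ((h2.eventually_lt_const hη8).and
      (eventually_ge_atTop n))).exists_forall_of_atTop
    refine ⟨N0, fun N hN => ?_⟩
    obtain ⟨e1, e2, e3⟩ := hN0 N hN
    rw [Real.dist_eq, sub_zero, abs_of_nonneg (Finset.sum_nonneg fun i _ => norm_nonneg _)]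
    have e4 := hb1 N y hyX
    have e5 : ∑ i ∈ Finset.range N, ‖ψ i y‖ ≤ 1 :=
      sum_le_hasSum _ (fun i _ => norm_nonneg _) (hs y hy)
    rw [← Finset.sum_range_add_sum_Ico _ e3] at e4 e5 ⊢
    have e6 : ∑ i ∈ Finset.range n, ‖ψ i y‖ ≤
        (∑ i ∈ Finset.range n, ‖b N i y‖) + ∑ i ∈ Finset.range n, ‖b N i y - ψ i y‖ := by
      rw [← Finset.sum_add_distrib]
      refine Finset.sum_le_sum fun i _ => ?_
      have := norm_sub_norm_le (ψ i y) (b N i y)
      rw [norm_sub_rev] at this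
      linarith
    have e7 : ∑ i ∈ Finset.Ico n N, ‖b N i y - ψ i y‖ ≤
        (∑ i ∈ Finset.Ico n N, ‖b N i y‖) + ∑ i ∈ Finset.Ico n N, ‖ψ i y‖ := by
      rw [← Finset.sum_add_distrib]
      exact Finset.sum_le_sum fun i _ => norm_sub_le _ _
    linarith

end claim3

end C64
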