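import Pool.Agent.R197.C64.Vec2

/-!
# MP_c64b61_an, module M5: Fréchet-valued extension from scalar approximation
-/
open Set Filter Topology MeasureTheory

set_option linter.unusedSectionVars false

namespace C64

section good

variable {𝕜 : Type*} [RCLike 𝕜]
  {V : Type*} [AddCommGroup V] [Module 𝕜 V] [TopologicalSpace V]
  {F : Type*} [AddCommGroup F] [Module ℝ F] [Module 𝕜 F] [IsScalarTower ℝ 𝕜 F] [UniformSpace F]
  [IsUniformAddGroup F] [ContinuousSMul 𝕜 F] [ContinuousSMul ℝ F] [LocallyConvexSpace ℝ F]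
  [T2Space F] [CompleteSpace F]
  {E : Set V} {Γ : Set 𝕜} {q : ℕ → Seminorm 𝕜 F}

lemma VGood.sub {r s : V → F} (hr : VGood E Γ q r) (hs : VGood E Γ q s) :
    VGood E Γ q (fun y => r y - s y) := by
  refine ⟨hr.cont.sub hs.cont, ?_, ?_⟩
  · intro α hα y hy
    rw [hr.hom α hα y hy, hs.hom α hα y hy, smul_sub]
  · intro k
    obtain ⟨C, hC⟩ := hr.bdd k
    obtain ⟨D, hD⟩ := hs.bdd k
    refine ⟨C + D, fun y hy => ?_⟩
    exact (map_sub_le_add _ _ _).trans (add_le_add (hC y hy) (hD y hy))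

/-- Claim 2. -/
lemma claim2 (hq : SN q) (hE : E.Nonempty) (hL : IsLindelof E)
    (hΓ : ∀ α ∈ Γ, ‖α‖ = 1) (hst : ∀ α ∈ Γ, ∀ y ∈ E, α • y ∈ E)
    (hP : ∀ y₀ ∈ E, ∃ σ : V → 𝕜, ContinuousOn σ E ∧
      (∀ α ∈ Γ, ∀ y ∈ E, σ (α • y) = α * σ y) ∧ (∀ y ∈ E, ‖σ y‖ ≤ 1) ∧ σ y₀ ≠ 0)
    {f : V → F} (hf : VGood E Γ q f) :
    ∃ (r : ℕ → V → F) (ψ : ℕ → ℕ → V → 𝕜) (w : ℕ → ℕ → F) (g : ℕ → V → F),
      r 0 = f ∧ (∀ m y, r (m + 1) y = r m y - g m y) ∧ (∀ m, VGood E Γ q (r m)) ∧
      ∀ m, VPart E Γ q (r m) m ((1 / 2 : ℝ) ^ m) (ψ m) (w m) (g m) := by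
  choose ψ w g hpart using fun (r : {r // VGood E Γ q r}) (m : ℕ) =>
    claim1 hq hE hL hΓ hst hP r.2 m (show (0 : ℝ) < (1 / 2 : ℝ) ^ m by positivity)
  let R : ℕ → {r // VGood E Γ q r} := fun n =>
    Nat.rec ⟨f, hf⟩ (fun m r => ⟨fun y => r.1 y - g r m y, r.2.sub (hpart r m).good⟩) n
  exact ⟨fun m => (R m).1, fun m => ψ (R m) m, fun m => w (R m) m, fun m => g (R m) m, rfl,
    fun m y => rfl, fun m => (R m).2, fun m => hpart (R m) m⟩

/-- The summable bounds. -/
lemma bounds (hq : SN q) {r : ℕ → V → F} {ψ : ℕ → ℕ → V → 𝕜} {w : ℕ → ℕ → F} {g : ℕ → V → F}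
    (hr : ∀ m y, r (m + 1) y = r m y - g m y) (hgood : ∀ m, VGood E Γ q (r m))
    (hpart : ∀ m, VPart E Γ q (r m) m ((1 / 2 : ℝ) ^ m) (ψ m) (w m) (g m)) (j : ℕ) :
    ∃ B : ℕ → ℝ, Summable B ∧ (∀ m, 0 ≤ B m) ∧ ∀ m, ∀ y ∈ E, q j (r m y) ≤ B m := by
  choose C hC using fun m => (hgood m).bdd j
  refine ⟨fun m => (if m ≤ j then |C m| else 0) + 2 * (1 / 2 : ℝ) ^ m, ?_, ?_, ?_⟩
  · apply Summable.add
    · apply summable_of_ne_finset_zero (s := Finset.range (j + 1))
      intro m hm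
      rw [Finset.mem_range, not_lt] at hm
      exact if_neg (by omega)
    · exact (summable_geometric_of_lt_one (by norm_num) (by norm_num)).mul_left 2
  · intro m
    have : (0 : ℝ) ≤ if m ≤ j then |C m| else 0 := by split_ifs <;> positivity
    positivity
  · intro m y hy
    by_cases h : m ≤ j
    · simp only [if_pos h]
      have h1 := hC m y hy
      have h2 := le_abs_self (C m)
      have h3 : (0 : ℝ) ≤ 2 * (1 / 2 : ℝ) ^ m := by positivity
      linarith
    · simp only [if_neg h]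
      obtain ⟨m, rfl⟩ : ∃ m', m = m' + 1 := ⟨m - 1, by omega⟩
      rw [hr, zero_add, pow_succ]
      have h1 := (hpart m).close y hy
      have h2 : q j (r m y - g m y) ≤ q m (r m y - g m y) := hq.mono (by omega) _
      linarith

end good

theorem vector_ext {𝕜 : Type*} [RCLike 𝕜]
    {V : Type*} [AddCommGroup V] [Module ℝ V] [Module 𝕜 V] [TopologicalSpace V]
    [IsTopologicalAddGroup V] [ContinuousSMul ℝ V] [LocallyConvexSpace ℝ V] [T2Space V]
    {F : Type*} [AddCommGroup F] [Module ℝ F] [Module 𝕜 F] [IsScalarTower ℝ 𝕜 F] [UniformSpace F]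
    [IsUniformAddGroup F] [ContinuousSMul 𝕜 F] [ContinuousSMul ℝ F] [LocallyConvexSpace ℝ F]
    [T2Space F] [CompleteSpace F] [FirstCountableTopology F]
    {X : Set V} (hX : IsCompact X) (hc : Convex ℝ X) (hL : IsLindelof (X.extremePoints ℝ))
    (Γ : Set 𝕜) (hΓ : ∀ α ∈ Γ, ‖α‖ = 1)
    (hst : ∀ α ∈ Γ, ∀ y ∈ X.extremePoints ℝ, α • y ∈ X.extremePoints ℝ)
    (hP : ∀ y₀ ∈ X.extremePoints ℝ, ∃ σ : V → 𝕜, ContinuousOn σ (X.extremePoints ℝ) ∧
      (∀ α ∈ Γ, ∀ y ∈ X.extremePoints ℝ, σ (α • y) = α * σ y) ∧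
      (∀ y ∈ X.extremePoints ℝ, ‖σ y‖ ≤ 1) ∧ σ y₀ ≠ 0)
    (hSA : ∀ ψ : V → 𝕜, ContinuousOn ψ (X.extremePoints ℝ) →
      (∀ α ∈ Γ, ∀ y ∈ X.extremePoints ℝ, ψ (α • y) = α * ψ y) →
      (∀ y ∈ X.extremePoints ℝ, ‖ψ y‖ ≤ 1) →
      ∃ a : ℕ → V → 𝕜, (∀ n, A0 X (a n)) ∧ (∀ n, ∀ x ∈ X, ‖a n x‖ ≤ 2) ∧
        ∀ y ∈ X.extremePoints ℝ, Tendsto (fun n => a n y) atTop (𝓝 (ψ y)))
    (f : V → F) (hf : ContinuousOn f (X.extremePoints ℝ))
    (hb : Bornology.IsVonNBounded ℝ (f '' X.extremePoints ℝ))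
    (hhom : ∀ α ∈ Γ, ∀ y ∈ X.extremePoints ℝ, f (α • y) = α • f y) :
    ∃ g : V → F, A1 X g ∧ EqOn g f (X.extremePoints ℝ) := by
  classical
  by_cases hE : (X.extremePoints ℝ).Nonempty
  swap
  · have hXe : X = ∅ := by
      by_contra h
      exact hE (hX.extremePoints_nonempty (nonempty_iff_ne_empty.2 h))
    subst hXe
    refine ⟨fun _ => 0, ⟨fun _ _ => 0, fun n => ⟨continuousOn_empty _, ?_⟩, ?_⟩, ?_⟩
    · intro x hx
      exact absurd hx (notMem_empty x)
    · intro x hx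
      exact absurd hx (notMem_empty x)
    · intro y hy
      exact absurd hy.1 (notMem_empty y)
  obtain ⟨q, hq⟩ := exists_SN (𝕜 := 𝕜) (F := F)
  have hfg : VGood (X.extremePoints ℝ) Γ q f := by
    refine ⟨hf, hhom, fun k => ?_⟩
    obtain ⟨C, hC⟩ := hq.bounded hb k
    exact ⟨C, fun y hy => hC _ (mem_image_of_mem _ hy)⟩
  obtain ⟨r, ψ, w, g, hr0, hr, hgood, hpart⟩ := claim2 hq hE hL hΓ hst hP hfg
  choose B hBs hB0 hB using fun j => bounds hq hr hgood hpart j
  have hW : ∀ j m i, q j (w m i) ≤ B j m := by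
    intro j m i
    obtain ⟨y, hy, hy'⟩ := (hpart m).val i
    rw [hy']
    exact hB j m y hy
  have hrM : ∀ M y, r M y = f y - ∑ m ∈ Finset.range M, g m y := by
    intro M y
    induction M with
    | zero => simp [hr0]
    | succ M ih =>
      rw [hr, ih, Finset.sum_range_succ]
      abel
  -- scalar approximations
  choose a ha0 ha2 hal using fun m i => hSA (ψ m i) ((hpart m).cont i) ((hpart m).hom i)
    (fun y hy => le_hasSum ((hpart m).sum y hy) i (fun k _ => norm_nonneg _))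
  choose b hb0 hb2 hbl using fun m => claim3 hX hc (ψ m) (a m) (ha0 m) (ha2 m) (hal m)
    (hpart m).sum
  let h : ℕ → V → F := fun N x =>
    ∑ m ∈ Finset.range N, ∑ i ∈ Finset.range N, b m N i x • w m i
  have hh0 : ∀ N, A0 X (h N) := fun N =>
    A0.sum _ fun m _ => A0.sum _ fun i _ => (hb0 m N i).smul_vec (w m i)
  -- bounds on `X`
  have hhX : ∀ j N, ∀ x ∈ X, q j (h N x) ≤ 2 * ∑' m, B j m := by
    intro j N x hx
    calc q j (h N x) ≤ ∑ m ∈ Finset.range N, ∑ i ∈ Finset.range N, ‖b m N i x‖ * B j m := by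
          refine (sn_sum _ _ _).trans (Finset.sum_le_sum fun m _ => ?_)
          refine (sn_sum _ _ _).trans (Finset.sum_le_sum fun i _ => ?_)
          rw [map_smul_eq_mul]
          exact mul_le_mul_of_nonneg_left (hW j m i) (norm_nonneg _)
      _ ≤ ∑ m ∈ Finset.range N, 2 * B j m := by
          refine Finset.sum_le_sum fun m _ => ?_
          rw [← Finset.sum_mul]
          exact mul_le_mul_of_nonneg_right (hb2 m N x hx) (hB0 j m)
      _ = 2 * ∑ m ∈ Finset.range N, B j m := by rw [Finset.mul_sum]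
      _ ≤ 2 * ∑' m, B j m := by
          have := (hBs j).sum_le_tsum (Finset.range N) (fun m _ => hB0 j m)
          linarith
  -- convergence on the extreme points
  have hhE : ∀ y ∈ X.extremePoints ℝ, Tendsto (fun N => h N y) atTop (𝓝 (f y)) := by
    intro y hy
    have hyX : y ∈ X := hy.1
    rw [hq.tendsto_iff]
    intro j
    let D : ℕ → ℕ → ℝ := fun m N => (∑ i ∈ Finset.range N, ‖b m N i y - ψ m i y‖) +
      (1 - ∑ i ∈ Finset.range N, ‖ψ m i y‖)
    have hle1 : ∀ m N, ∑ i ∈ Finset.range N, ‖ψ m i y‖ ≤ 1 := fun m N =>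
      sum_le_hasSum _ (fun i _ => norm_nonneg _) ((hpart m).sum y hy)
    have hD0 : ∀ m N, 0 ≤ D m N := by
      intro m N
      have h1 := hle1 m N
      have h2 : 0 ≤ ∑ i ∈ Finset.range N, ‖b m N i y - ψ m i y‖ :=
        Finset.sum_nonneg fun i _ => norm_nonneg _
      change 0 ≤ (∑ i ∈ Finset.range N, ‖b m N i y - ψ m i y‖) +
        (1 - ∑ i ∈ Finset.range N, ‖ψ m i y‖)
      linarith
    have hD4 : ∀ m N, D m N ≤ 4 := by
      intro m N
      have h1 := hle1 m N
      have h2 : ∑ i ∈ Finset.range N, ‖b m N i y - ψ m i y‖ ≤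
          (∑ i ∈ Finset.range N, ‖b m N i y‖) + ∑ i ∈ Finset.range N, ‖ψ m i y‖ := by
        rw [← Finset.sum_add_distrib]
        exact Finset.sum_le_sum fun i _ => norm_sub_le _ _
      have h3 := hb2 m N y hyX
      have h4 : 0 ≤ ∑ i ∈ Finset.range N, ‖ψ m i y‖ :=
        Finset.sum_nonneg fun i _ => norm_nonneg _
      change (∑ i ∈ Finset.range N, ‖b m N i y - ψ m i y‖) +
        (1 - ∑ i ∈ Finset.range N, ‖ψ m i y‖) ≤ 4
      linarith
    have hDl : ∀ m, Tendsto (fun N => D m N) atTop (𝓝 0) := by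
      intro m
      have h1 := hbl m y hy
      have h2 : Tendsto (fun N => 1 - ∑ i ∈ Finset.range N, ‖ψ m i y‖) atTop (𝓝 0) := by
        have := ((hpart m).sum y hy).tendsto_sum_nat.const_sub 1
        simpa using this
      simpa using h1.add h2
    have hterm : ∀ m N, q j ((∑ i ∈ Finset.range N, b m N i y • w m i) - g m y) ≤
        B j m * D m N := by
      intro m N
      have h1 : (∑ i ∈ Finset.range N, b m N i y • w m i) - g m y =
          (∑ i ∈ Finset.range N, (b m N i y - ψ m i y) • w m i) -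
          (g m y - ∑ i ∈ Finset.range N, ψ m i y • w m i) := by
        simp only [sub_smul, Finset.sum_sub_distrib]
        abel
      rw [h1]
      refine (map_sub_le_add _ _ _).trans ?_
      have h2 := tail_est hq.cont ((hpart m).sum y hy) (hW j m) ((hpart m).lim y hy) N
      have h3 : q j (∑ i ∈ Finset.range N, (b m N i y - ψ m i y) • w m i) ≤
          B j m * ∑ i ∈ Finset.range N, ‖b m N i y - ψ m i y‖ := by
        refine (sn_sum _ _ _).trans ?_
        rw [Finset.mul_sum]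
        refine Finset.sum_le_sum fun i _ => ?_
        rw [map_smul_eq_mul, mul_comm]
        exact mul_le_mul_of_nonneg_right (hW j m i) (norm_nonneg _)
      calc _ ≤ B j m * (∑ i ∈ Finset.range N, ‖b m N i y - ψ m i y‖) +
            B j m * (1 - ∑ i ∈ Finset.range N, ‖ψ m i y‖) := add_le_add h3 h2
        _ = B j m * D m N := by
          change _ = B j m * ((∑ i ∈ Finset.range N, ‖b m N i y - ψ m i y‖) +
            (1 - ∑ i ∈ Finset.range N, ‖ψ m i y‖))
          ring
    have hsm : Summable fun m => B j m * 4 := (hBs j).mul_right 4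
    have hdom : Tendsto (fun N => ∑' m, B j m * D m N) atTop (𝓝 (∑' _m : ℕ, (0 : ℝ))) := by
      apply tendsto_tsum_of_dominated_convergence hsm
      · intro m
        have := (hDl m).const_mul (B j m)
        simpa using this
      · refine Eventually.of_forall fun N m => ?_
        rw [Real.norm_of_nonneg (mul_nonneg (hB0 j m) (hD0 m N))]
        exact mul_le_mul_of_nonneg_left (hD4 m N) (hB0 j m)
    rw [tsum_zero] at hdom
    have hBz : Tendsto (fun N => B j N) atTop (𝓝 0) := (hBs j).tendsto_atTop_zero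
    have hsum0 := hdom.add hBz
    rw [add_zero] at hsum0
    refine squeeze_zero (fun N => apply_nonneg _ _) (fun N => ?_) hsum0
    have h1 : h N y - f y = (∑ m ∈ Finset.range N,
        ((∑ i ∈ Finset.range N, b m N i y • w m i) - g m y)) - r N y := by
      rw [hrM, Finset.sum_sub_distrib]
      change (∑ m ∈ Finset.range N, ∑ i ∈ Finset.range N, b m N i y • w m i) - f y = _
      abel
    rw [h1]
    refine (map_sub_le_add _ _ _).trans (add_le_add ?_ (hB j N y hy))
    refine (sn_sum _ _ _).trans ?_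
    refine (Finset.sum_le_sum fun m _ => hterm m N).trans ?_
    apply Summable.sum_le_tsum
    · intro m _
      exact mul_nonneg (hB0 j m) (hD0 m N)
    · apply Summable.of_nonneg_of_le (fun m => mul_nonneg (hB0 j m) (hD0 m N)) (fun m => ?_) hsm
      exact mul_le_mul_of_nonneg_left (hD4 m N) (hB0 j m)
  -- convergence on `X`
  have hlim : ∀ x ∈ X, ∃ v, Tendsto (fun N => h N x) atTop (𝓝 v) := by
    intro x hx
    apply hq.exists_limit
    by_contra hcon
    push Not at hcon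
    obtain ⟨j, δ, hδ, hcon⟩ := hcon
    choose M hM N hN hMN using hcon
    let G : ℕ → V → ℝ := fun k z => q j (h (M k) z - h (N k) z)
    have haff : ∀ k, IsAffOn X (fun z => h (M k) z - h (N k) z) := by
      intro k x hx y hy t ht
      change h (M k) (t • x + (1 - t) • y) - h (N k) (t • x + (1 - t) • y) = _
      rw [(hh0 (M k)).2 x hx y hy t ht, (hh0 (N k)).2 x hx y hy t ht]
      simp only [smul_sub]
      abel
    have hG := L_b hX hc (G := G) (K := 4 * ∑' m, B j m)
      (fun k => (hq.cont j).comp_continuousOn ((hh0 (M k)).1.sub (hh0 (N k)).1))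
      (fun k => convexOn_sn hc (q j) (haff k))
      (fun k x hx => ⟨apply_nonneg _ _, by
        refine (map_sub_le_add _ _ _).trans ?_
        have h1 := hhX j (M k) x hx
        have h2 := hhX j (N k) x hx
        linarith⟩)
      (by
        intro y hy
        have h1 := (hq.tendsto_iff.1 (hhE y hy) j)
        have h2 : Tendsto (fun k => q j (h (M k) y - f y)) atTop (𝓝 0) :=
          h1.comp (tendsto_atTop_mono (fun k => hM k) tendsto_id)
        have h3 : Tendsto (fun k => q j (h (N k) y - f y)) atTop (𝓝 0) :=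
          h1.comp (tendsto_atTop_mono (fun k => hN k) tendsto_id)
        have h4 := h2.add h3
        rw [add_zero] at h4
        refine squeeze_zero (fun k => apply_nonneg _ _) (fun k => ?_) h4
        have h5 : h (M k) y - h (N k) y = (h (M k) y - f y) - (h (N k) y - f y) := by abel
        change q j (h (M k) y - h (N k) y) ≤ _
        rw [h5]
        exact map_sub_le_add _ _ _) x hx
    have h1 := hG.eventually_lt_const hδ
    obtain ⟨k, hk⟩ := h1.exists
    exact absurd (hMN k) (not_le.2 hk)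
  have hlim' : ∀ x, ∃ v, x ∈ X → Tendsto (fun N => h N x) atTop (𝓝 v) := by
    intro x
    by_cases hx : x ∈ X
    · obtain ⟨v, hv⟩ := hlim x hx
      exact ⟨v, fun _ => hv⟩
    · exact ⟨0, fun h => absurd h hx⟩
  choose G hG using hlim'
  refine ⟨G, ⟨h, hh0, fun x hx => hG x hx⟩, ?_⟩
  intro y hy
  exact tendsto_nhds_unique (hG y hy.1) (hhE y hy)

end C64
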